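import Mathlib
import Pool.Agent.W576.Defs

/-!
# Gaussian orthant integrals: integrability, integration by parts, derivative
-/

namespace Pool.Agent.W31.Bel

open MeasureTheory Pool.Agent.W576 Filter Topology Set

section Basic

variable {ι : Type*} [Fintype ι]

omit [Fintype ι] in
lemma orth_eq : orth ι = Set.pi Set.univ (fun _ => Set.Ioi (0:ℝ)) := by
  ext s; simp [orth, Set.mem_pi]

lemma measurableSet_orth : MeasurableSet (orth ι) := by
  rw [orth_eq]; exact MeasurableSet.univ_pi (fun _ => measurableSet_Ioi)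

lemma continuous_qf (G : Matrix ι ι ℝ) : Continuous (qf G) := by
  unfold qf; fun_prop

lemma sum_sq_le (s : ι → ℝ) (hs : ∀ i, 0 ≤ s i) :
    ∑ i, (s i)^2 ≤ ∑ i, ∑ j, s i * s j := by
  apply Finset.sum_le_sum
  intro i _
  have := Finset.single_le_sum (f := fun j => s i * s j)
    (fun j _ => mul_nonneg (hs i) (hs j)) (Finset.mem_univ i)
  nlinarith [this]

lemma qf_le {G : Matrix ι ι ℝ} {δ : ℝ} (hδ : 0 ≤ δ) (h : ∀ i j, G i j ≤ -δ) {s : ι → ℝ}
    (hs : ∀ i, 0 ≤ s i) :
    qf G s ≤ -δ * ∑ i, (s i)^2 := by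
  have h1 : qf G s ≤ ∑ i, ∑ j, (-δ) * (s i * s j) := by
    unfold qf
    apply Finset.sum_le_sum
    intro i _
    apply Finset.sum_le_sum
    intro j _
    exact mul_le_mul_of_nonneg_right (h i j) (mul_nonneg (hs i) (hs j))
  have h2 : ∑ i, ∑ j, (-δ) * (s i * s j) = -δ * ∑ i, ∑ j, s i * s j := by
    simp only [Finset.mul_sum]
  have h3 := sum_sq_le s hs
  rw [h2] at h1
  nlinarith

lemma integrable_gauss {δ : ℝ} (hδ : 0 < δ) :
    Integrable (fun s : ι → ℝ => Real.exp (-δ * ∑ i, (s i)^2)) := by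
  have h : (fun s : ι → ℝ => Real.exp (-δ * ∑ i, (s i)^2)) =
      fun s : ι → ℝ => ∏ i, Real.exp (-δ * (s i)^2) := by
    funext s
    rw [Finset.mul_sum, Real.exp_sum]
  rw [h]
  exact Integrable.fintype_prod (fun i => integrable_exp_neg_mul_sq hδ)

lemma key_bound {G : Matrix ι ι ℝ} {δ : ℝ} (hδ : 0 < δ) (h : ∀ i j, G i j ≤ -δ) {s : ι → ℝ}
    (hs : ∀ i, 0 ≤ s i) :
    (1 + ∑ i, (s i)^2) * Real.exp (qf G s) ≤
      (1 + 2/δ) * Real.exp (-(δ/2) * ∑ i, (s i)^2) := by
  set Q := ∑ i, (s i)^2 with hQ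
  have hQ0 : 0 ≤ Q := Finset.sum_nonneg (fun i _ => sq_nonneg _)
  have h1 : Real.exp (qf G s) ≤ Real.exp (-δ * Q) := Real.exp_le_exp.2 (qf_le hδ.le h hs)
  have h2 : Real.exp (-δ * Q) = Real.exp (-(δ/2) * Q) * Real.exp (-(δ/2) * Q) := by
    rw [← Real.exp_add]; ring_nf
  have h3 : (1 + Q) * Real.exp (-(δ/2) * Q) ≤ 1 + 2/δ := by
    have h4 : Real.exp (-(δ/2) * Q) ≤ 1 := by
      apply Real.exp_le_one_iff.2; nlinarith
    have h5 : Q * Real.exp (-(δ/2) * Q) ≤ 2/δ := by
      have h6 : (δ/2) * Q ≤ Real.exp ((δ/2) * Q) := by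
        have := Real.add_one_le_exp ((δ/2) * Q); linarith
      have h7 : Real.exp ((δ/2) * Q) * Real.exp (-(δ/2) * Q) = 1 := by
        rw [← Real.exp_add]; simp
      have h8 : (δ/2) * Q * Real.exp (-(δ/2) * Q) ≤ 1 := by
        rw [← h7]; exact mul_le_mul_of_nonneg_right h6 (Real.exp_pos _).le
      rw [le_div_iff₀ hδ]
      nlinarith
    nlinarith
  calc (1 + Q) * Real.exp (qf G s) ≤ (1 + Q) * Real.exp (-δ * Q) :=
        mul_le_mul_of_nonneg_left h1 (by linarith)
    _ = ((1 + Q) * Real.exp (-(δ/2) * Q)) * Real.exp (-(δ/2) * Q) := by rw [h2]; ring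
    _ ≤ (1 + 2/δ) * Real.exp (-(δ/2) * Q) :=
        mul_le_mul_of_nonneg_right h3 (Real.exp_pos _).le

lemma exists_delta (M : Matrix ι ι ℝ) (hn : ∀ i j, M i j < 0) :
    ∃ δ : ℝ, 0 < δ ∧ ∀ i j, M i j ≤ -δ := by
  rcases isEmpty_or_nonempty ι with he | he
  · exact ⟨1, one_pos, fun i => (he.false i).elim⟩
  · obtain ⟨p, hp⟩ := Finite.exists_max (fun p : ι × ι => M p.1 p.2)
    refine ⟨-M p.1 p.2, by linarith [hn p.1 p.2], fun i j => ?_⟩
    have := hp (i, j)
    simp only at this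
    linarith

lemma integrableOn_poly {G : Matrix ι ι ℝ} (hn : ∀ i j, G i j < 0) {p : (ι → ℝ) → ℝ}
    (hp : Continuous p) {C : ℝ} (hC : ∀ s ∈ orth ι, |p s| ≤ C * (1 + ∑ i, (s i)^2)) :
    IntegrableOn (fun s => p s * Real.exp (qf G s)) (orth ι) := by
  obtain ⟨δ, hδ, hδ'⟩ := exists_delta G hn
  have hg : IntegrableOn (fun s : ι → ℝ => |C| * ((1 + 2/δ) * Real.exp (-(δ/2) * ∑ i, (s i)^2)))
      (orth ι) :=
    (((integrable_gauss (ι := ι) (half_pos hδ)).const_mul (1 + 2/δ)).const_mul |C|).integrableOn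
  refine Integrable.mono' hg ?_ ?_
  · exact (hp.mul (Real.continuous_exp.comp (continuous_qf G))).aestronglyMeasurable
  · refine (ae_restrict_iff' measurableSet_orth).2 (Eventually.of_forall fun s hs => ?_)
    have hs' : ∀ i, 0 ≤ s i := fun i => (hs i).le
    have h1 := key_bound hδ hδ' hs'
    have h0 : 0 ≤ 1 + ∑ i, (s i)^2 := by
      have : 0 ≤ ∑ i, (s i)^2 := Finset.sum_nonneg (fun i _ => sq_nonneg _)
      linarith
    rw [Real.norm_eq_abs, abs_mul, abs_of_pos (Real.exp_pos _)]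
    calc |p s| * Real.exp (qf G s) ≤ (C * (1 + ∑ i, (s i)^2)) * Real.exp (qf G s) :=
          mul_le_mul_of_nonneg_right (hC s hs) (Real.exp_pos _).le
      _ ≤ (|C| * (1 + ∑ i, (s i)^2)) * Real.exp (qf G s) := by
          apply mul_le_mul_of_nonneg_right _ (Real.exp_pos _).le
          exact mul_le_mul_of_nonneg_right (le_abs_self C) h0
      _ = |C| * ((1 + ∑ i, (s i)^2) * Real.exp (qf G s)) := by ring
      _ ≤ |C| * ((1 + 2/δ) * Real.exp (-(δ/2) * ∑ i, (s i)^2)) :=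
          mul_le_mul_of_nonneg_left h1 (abs_nonneg C)

lemma sq_le_sum (s : ι → ℝ) (i : ι) : (s i)^2 ≤ ∑ i, (s i)^2 :=
  Finset.single_le_sum (f := fun i => (s i)^2) (fun i _ => sq_nonneg _) (Finset.mem_univ i)

lemma abs_mul_le (s : ι → ℝ) (i j : ι) : |s i * s j| ≤ ∑ i, (s i)^2 := by
  have h1 := sq_le_sum s i
  have h2 := sq_le_sum s j
  rw [abs_le]; constructor <;> nlinarith [sq_nonneg (s i - s j), sq_nonneg (s i + s j)]

lemma integrableOn_0 {G : Matrix ι ι ℝ} (hn : ∀ i j, G i j < 0) :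
    IntegrableOn (fun s => Real.exp (qf G s)) (orth ι) := by
  have := integrableOn_poly hn (p := fun _ => 1) continuous_const (C := 1) (fun s _ => by
    have : 0 ≤ ∑ i, (s i)^2 := Finset.sum_nonneg (fun i _ => sq_nonneg _)
    simp; linarith)
  simpa using this

lemma integrableOn_1 {G : Matrix ι ι ℝ} (hn : ∀ i j, G i j < 0) (i : ι) :
    IntegrableOn (fun s => s i * Real.exp (qf G s)) (orth ι) := by
  refine integrableOn_poly hn (p := fun s => s i) (by fun_prop) (C := 1) (fun s _ => ?_)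
  have h1 := sq_le_sum s i
  rw [abs_le]; constructor <;> nlinarith [sq_nonneg (s i - 1), sq_nonneg (s i + 1)]

lemma integrableOn_2 {G : Matrix ι ι ℝ} (hn : ∀ i j, G i j < 0) (i j : ι) :
    IntegrableOn (fun s => s i * s j * Real.exp (qf G s)) (orth ι) := by
  refine integrableOn_poly hn (p := fun s => s i * s j) (by fun_prop) (C := 1) (fun s _ => ?_)
  have h1 := abs_mul_le s i j
  linarith

/-- the linear form `H ↦ qf H s` on matrices -/
noncomputable def Lform (s : ι → ℝ) : (ι → ι → ℝ) →L[ℝ] ℝ :=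
  ∑ i, ∑ j, (s i * s j) •
    ((ContinuousLinearMap.proj (R := ℝ) (φ := fun _ : ι => ℝ) j).comp
      (ContinuousLinearMap.proj (R := ℝ) (φ := fun _ : ι => ι → ℝ) i))

lemma Lform_apply (s : ι → ℝ) (H : ι → ι → ℝ) : Lform s H = qf H s := by
  simp [Lform, qf, mul_comm]

lemma Lform_norm (s : ι → ℝ) : ‖Lform s‖ ≤ (Fintype.card ι : ℝ)^2 * ∑ i, (s i)^2 := by
  have hQ0 : 0 ≤ ∑ i, (s i)^2 := Finset.sum_nonneg (fun i _ => sq_nonneg _)
  refine ContinuousLinearMap.opNorm_le_bound _ (by positivity) (fun H => ?_)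
  rw [Lform_apply, Real.norm_eq_abs]
  change |∑ i, ∑ j, H i j * (s i * s j)| ≤ _
  have hH : ∀ i j, |H i j * (s i * s j)| ≤ (∑ i, (s i)^2) * ‖H‖ := by
    intro i j
    rw [abs_mul]
    have h1 : |H i j| ≤ ‖H‖ := by
      calc |H i j| = ‖H i j‖ := (Real.norm_eq_abs _).symm
        _ ≤ ‖H i‖ := norm_le_pi_norm (H i) j
        _ ≤ ‖H‖ := norm_le_pi_norm H i
    have h2 := abs_mul_le s i j
    calc |H i j| * |s i * s j| ≤ ‖H‖ * ∑ i, (s i)^2 :=
          mul_le_mul h1 h2 (abs_nonneg _) (norm_nonneg _)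
      _ = _ := mul_comm _ _
  calc |∑ i, ∑ j, H i j * (s i * s j)| ≤ ∑ i, |∑ j, H i j * (s i * s j)| :=
        Finset.abs_sum_le_sum_abs _ _
    _ ≤ ∑ i : ι, ∑ j, |H i j * (s i * s j)| :=
        Finset.sum_le_sum (fun i _ => Finset.abs_sum_le_sum_abs _ _)
    _ ≤ ∑ i : ι, ∑ j : ι, (∑ i, (s i)^2) * ‖H‖ :=
        Finset.sum_le_sum (fun i _ => Finset.sum_le_sum (fun j _ => hH i j))
    _ = (Fintype.card ι : ℝ)^2 * (∑ i, (s i)^2) * ‖H‖ := by
        simp [Finset.sum_const, Finset.card_univ]; ring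

lemma continuous_Lform : Continuous (fun s : ι → ℝ => Lform s) := by
  unfold Lform
  fun_prop

lemma hasFDerivAt_I0 (M : ι → ι → ℝ) (hn : ∀ i j, M i j < 0) :
    HasFDerivAt (fun M : ι → ι → ℝ => I0 M)
      (∫ s in orth ι, Real.exp (qf M s) • Lform s) M := by
  obtain ⟨δ, hδ, hδ'⟩ := exists_delta M hn
  have hball : ∀ N ∈ Metric.ball M (δ/2), ∀ i j, N i j ≤ -(δ/2) := by
    intro N hN i j
    have h1 : |N i j - M i j| ≤ ‖N - M‖ := by
      calc |N i j - M i j| = ‖(N - M) i j‖ := by simp [Real.norm_eq_abs]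
        _ ≤ ‖(N - M) i‖ := norm_le_pi_norm _ j
        _ ≤ ‖N - M‖ := norm_le_pi_norm _ i
    have h2 : ‖N - M‖ < δ/2 := by rwa [← dist_eq_norm]
    have := (abs_le.1 (h1.trans h2.le)).2
    linarith [hδ' i j]
  have hδ2 : 0 < δ/2 := half_pos hδ
  refine hasFDerivAt_integral_of_dominated_of_fderiv_le
    (μ := volume.restrict (orth ι))
    (F := fun (N : ι → ι → ℝ) s => Real.exp (qf N s))
    (F' := fun (N : ι → ι → ℝ) s => Real.exp (qf N s) • Lform s)
    (bound := fun s => (Fintype.card ι : ℝ)^2 *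
      ((1 + 2/(δ/2)) * Real.exp (-((δ/2)/2) * ∑ i, (s i)^2)))
    (Metric.ball_mem_nhds M hδ2) ?_ ?_ ?_ ?_ ?_ ?_
  · exact Eventually.of_forall fun N =>
      (Real.continuous_exp.comp (continuous_qf N)).aestronglyMeasurable
  · exact integrableOn_0 hn
  · exact ((Real.continuous_exp.comp (continuous_qf M)).smul continuous_Lform).aestronglyMeasurable
  · refine (ae_restrict_iff' measurableSet_orth).2 (Eventually.of_forall fun s hs N hN => ?_)
    have hs' : ∀ i, 0 ≤ s i := fun i => (hs i).le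
    have hQ0 : 0 ≤ ∑ i, (s i)^2 := Finset.sum_nonneg (fun i _ => sq_nonneg _)
    rw [norm_smul, Real.norm_eq_abs, abs_of_pos (Real.exp_pos _)]
    have h1 := key_bound hδ2 (hball N hN) hs'
    calc Real.exp (qf N s) * ‖Lform s‖
        ≤ Real.exp (qf N s) * ((Fintype.card ι : ℝ)^2 * ∑ i, (s i)^2) :=
          mul_le_mul_of_nonneg_left (Lform_norm s) (Real.exp_pos _).le
      _ ≤ Real.exp (qf N s) * ((Fintype.card ι : ℝ)^2 * (1 + ∑ i, (s i)^2)) := by
          apply mul_le_mul_of_nonneg_left _ (Real.exp_pos _).le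
          apply mul_le_mul_of_nonneg_left _ (by positivity)
          linarith
      _ = (Fintype.card ι : ℝ)^2 * ((1 + ∑ i, (s i)^2) * Real.exp (qf N s)) := by ring
      _ ≤ _ := mul_le_mul_of_nonneg_left h1 (by positivity)
  · exact (((integrable_gauss (ι := ι) (half_pos hδ2)).const_mul _).const_mul _).integrableOn
  · refine Eventually.of_forall fun s N _ => ?_
    have h1 : HasFDerivAt (fun N : ι → ι → ℝ => qf N s) (Lform s) N := by
      have : (fun N : ι → ι → ℝ => qf N s) = fun N => Lform s N := by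
        funext N; rw [Lform_apply]
      rw [this]; exact (Lform s).hasFDerivAt
    exact h1.exp

lemma integrable_Lform (M : ι → ι → ℝ) (hn : ∀ i j, M i j < 0) :
    Integrable (fun s => Real.exp (qf M s) • Lform s) (volume.restrict (orth ι)) := by
  obtain ⟨δ, hδ, hδ'⟩ := exists_delta M hn
  have hg : Integrable (fun s : ι → ℝ => (Fintype.card ι : ℝ)^2 *
      ((1 + 2/δ) * Real.exp (-(δ/2) * ∑ i, (s i)^2))) (volume.restrict (orth ι)) :=
    (((integrable_gauss (ι := ι) (half_pos hδ)).const_mul _).const_mul _).integrableOn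
  refine Integrable.mono' hg ?_ ?_
  · exact ((Real.continuous_exp.comp (continuous_qf M)).smul continuous_Lform).aestronglyMeasurable
  · refine (ae_restrict_iff' measurableSet_orth).2 (Eventually.of_forall fun s hs => ?_)
    have hs' : ∀ i, 0 ≤ s i := fun i => (hs i).le
    have hQ0 : 0 ≤ ∑ i, (s i)^2 := Finset.sum_nonneg (fun i _ => sq_nonneg _)
    rw [norm_smul, Real.norm_eq_abs, abs_of_pos (Real.exp_pos _)]
    have h1 := key_bound hδ hδ' hs'
    calc Real.exp (qf M s) * ‖Lform s‖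
        ≤ Real.exp (qf M s) * ((Fintype.card ι : ℝ)^2 * ∑ i, (s i)^2) :=
          mul_le_mul_of_nonneg_left (Lform_norm s) (Real.exp_pos _).le
      _ ≤ Real.exp (qf M s) * ((Fintype.card ι : ℝ)^2 * (1 + ∑ i, (s i)^2)) := by
          apply mul_le_mul_of_nonneg_left _ (Real.exp_pos _).le
          apply mul_le_mul_of_nonneg_left _ (by positivity)
          linarith
      _ = (Fintype.card ι : ℝ)^2 * ((1 + ∑ i, (s i)^2) * Real.exp (qf M s)) := by ring
      _ ≤ _ := mul_le_mul_of_nonneg_left h1 (by positivity)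

lemma integral_Lform_apply (M : ι → ι → ℝ) (hn : ∀ i j, M i j < 0) (H : ι → ι → ℝ) :
    (∫ s in orth ι, Real.exp (qf M s) • Lform s) H = ∑ i, ∑ j, H i j * J2 M i j := by
  rw [ContinuousLinearMap.integral_apply (integrable_Lform M hn)]
  have h1 : ∀ s : ι → ℝ, (Real.exp (qf M s) • Lform s) H =
      ∑ i, ∑ j, H i j * (s i * s j * Real.exp (qf M s)) := by
    intro s
    change Real.exp (qf M s) • (Lform s H) = _
    rw [Lform_apply, smul_eq_mul]
    change Real.exp (qf M s) * (∑ i, ∑ j, H i j * (s i * s j)) = _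
    rw [Finset.mul_sum]
    refine Finset.sum_congr rfl (fun i _ => ?_)
    rw [Finset.mul_sum]
    refine Finset.sum_congr rfl (fun j _ => ?_)
    ring
  simp only [h1]
  rw [integral_finsetSum]
  · refine Finset.sum_congr rfl (fun i _ => ?_)
    rw [integral_finsetSum]
    · refine Finset.sum_congr rfl (fun j _ => ?_)
      rw [integral_const_mul]; rfl
    · intro j _
      exact (integrableOn_2 hn i j).const_mul _
  · intro i _
    refine integrable_finsetSum _ (fun j _ => ?_)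
    exact (integrableOn_2 hn i j).const_mul _

end Basic

theorem hasDerivAt_I0 {ι : Type} [Fintype ι] (G : ℝ → Matrix ι ι ℝ) (G' : Matrix ι ι ℝ) (t : ℝ)
    (hG : ∀ i j, HasDerivAt (fun s => G s i j) (G' i j) t) (hn : ∀ i j, G t i j < 0) :
    HasDerivAt (fun s => I0 (G s)) (∑ i, ∑ j, G' i j * J2 (G t) i j) t := by
  have h1 : HasDerivAt (F := ι → ι → ℝ) (fun s => fun i j => G s i j) (fun i j => G' i j) t :=
    hasDerivAt_pi.2 (fun i => hasDerivAt_pi.2 (fun j => hG i j))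
  have h2 := (hasFDerivAt_I0 (fun i j => G t i j) hn).comp_hasDerivAt t h1
  have h3 := integral_Lform_apply (fun i j => G t i j) hn (fun i j => G' i j)
  have h4 : HasDerivAt (fun s => I0 (G s))
    ((∫ s in orth ι, Real.exp (qf (fun i j => G t i j) s) • Lform s) (fun i j => G' i j)) t := h2
  rw [h3] at h4
  exact h4

theorem continuousAt_I0 {ι : Type} [Fintype ι] (G : ℝ → Matrix ι ι ℝ) (t : ℝ)
    (hG : ∀ i j, ContinuousAt (fun s => G s i j) t) (hn : ∀ i j, G t i j < 0) :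
    ContinuousAt (fun s => I0 (G s)) t := by
  have h1 : ContinuousAt (Y := ι → ι → ℝ) (fun s => fun i j => G s i j) t :=
    continuousAt_pi.2 (fun i => continuousAt_pi.2 (fun j => hG i j))
  exact ContinuousAt.comp (f := fun s => (fun i j => G s i j : ι → ι → ℝ))
    (g := fun M : ι → ι → ℝ => I0 M) (hasFDerivAt_I0 (fun i j => G t i j) hn).continuousAt h1

end Pool.Agent.W31.Bel
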