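import Mathlib
import Pool.Agent.W576.Defs
import Pool.Agent.W31.BelGauss

/-!
# Gaussian orthant integrals: integration by parts in one coordinate
-/

namespace Pool.Agent.W31.Bel

open MeasureTheory Pool.Agent.W576 Filter Topology Set

lemma insertNth_mem_orth {a : ℕ} (j : Fin (a+1)) (t : ℝ) (x : Fin a → ℝ) :
    (j.insertNth t x : Fin (a+1) → ℝ) ∈ orth (Fin (a+1)) ↔ 0 < t ∧ x ∈ orth (Fin a) := by
  constructor
  · intro h
    refine ⟨by simpa using h j, fun i => by simpa using h (j.succAbove i)⟩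
  · rintro ⟨h1, h2⟩ i
    rcases Fin.eq_self_or_eq_succAbove j i with rfl | ⟨k, rfl⟩
    · simpa using h1
    · simpa using h2 k

lemma integral_orth_split {a : ℕ} (j : Fin (a+1)) (F : (Fin (a+1) → ℝ) → ℝ)
    (hi : IntegrableOn F (orth (Fin (a+1)))) :
    ∫ s in orth (Fin (a+1)), F s =
      ∫ x in orth (Fin a), ∫ t in Ioi (0:ℝ), F (j.insertNth t x) ∧
    ∀ᵐ x ∂(volume.restrict (orth (Fin a))),
      IntegrableOn (fun t : ℝ => F (j.insertNth t x)) (Ioi (0:ℝ)) := by
  have mp := (volume_preserving_piFinSuccAbove (fun _ : Fin (a+1) => ℝ) j).symm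
  set e := (MeasurableEquiv.piFinSuccAbove (fun _ : Fin (a+1) => ℝ) j).symm with he
  have hpre : e ⁻¹' (orth (Fin (a+1))) = Ioi (0:ℝ) ×ˢ orth (Fin a) := by
    ext p
    simp only [mem_preimage, mem_prod, mem_Ioi]
    exact insertNth_mem_orth j p.1 p.2
  have h1 : ∫ s in orth (Fin (a+1)), F s = ∫ p in e ⁻¹' (orth (Fin (a+1))), F (e p) :=
    (mp.setIntegral_preimage_emb e.measurableEmbedding F _).symm
  have h2 : IntegrableOn (fun p => F (e p)) (e ⁻¹' (orth (Fin (a+1)))) :=
    (mp.integrableOn_comp_preimage e.measurableEmbedding).2 hi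
  rw [hpre] at h1 h2
  have hm : (volume : Measure (ℝ × (Fin a → ℝ))).restrict (Ioi (0:ℝ) ×ˢ orth (Fin a)) =
      (volume.restrict (Ioi (0:ℝ))).prod (volume.restrict (orth (Fin a))) := by
    rw [Measure.volume_eq_prod, Measure.prod_restrict]
  rw [IntegrableOn, hm] at h2
  rw [hm] at h1
  refine ⟨?_, ?_⟩
  · rw [h1, integral_prod_symm _ h2]
    rfl
  · exact h2.prod_left_ae

lemma ibp_gen {a : ℕ} (j : Fin (a+1)) (F F' : (Fin (a+1) → ℝ) → ℝ)
    (hd : ∀ x : Fin a → ℝ, ∀ t : ℝ,
      HasDerivAt (fun t : ℝ => F (j.insertNth t x)) (F' (j.insertNth t x)) t)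
    (hi : IntegrableOn F' (orth (Fin (a+1))))
    (hlim : ∀ x ∈ orth (Fin a), Tendsto (fun t : ℝ => F (j.insertNth t x)) atTop (𝓝 0)) :
    ∫ s in orth (Fin (a+1)), F' s = - ∫ x in orth (Fin a), F (j.insertNth 0 x) := by
  obtain ⟨h1, h2⟩ := integral_orth_split j F' hi
  rw [h1, ← integral_neg]
  refine integral_congr_ae ?_
  filter_upwards [h2, ae_restrict_mem measurableSet_orth] with x hx1 hx2
  have := integral_Ioi_of_hasDerivAt_of_tendsto (f := fun t : ℝ => F (j.insertNth t x))
    (f' := fun t : ℝ => F' (j.insertNth t x)) (a := 0) (m := 0)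
    (hd x 0).continuousAt.continuousWithinAt (fun t _ => hd x t) hx1 (hlim x hx2)
  rw [this]; simp

variable {a : ℕ} (G : Matrix (Fin (a+1)) (Fin (a+1)) ℝ)

lemma qf_insertNth_zero (j : Fin (a+1)) (x : Fin a → ℝ) :
    qf G (j.insertNth 0 x) = qf (G.submatrix j.succAbove j.succAbove) x := by
  unfold qf
  rw [Fin.sum_univ_succAbove _ j]
  simp [Fin.sum_univ_succAbove _ j]

lemma hasDerivAt_insertNth (j : Fin (a+1)) (x : Fin a → ℝ) (t : ℝ) (i : Fin (a+1)) :
    HasDerivAt (fun t : ℝ => (j.insertNth t x : Fin (a+1) → ℝ) i)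
      (if i = j then 1 else 0) t := by
  rcases Fin.eq_self_or_eq_succAbove j i with rfl | ⟨k, rfl⟩
  · simpa using hasDerivAt_id' t
  · simpa [Fin.succAbove_ne] using hasDerivAt_const t (x k)

lemma hasDerivAt_qf (hs : G.IsSymm) (j : Fin (a+1)) (x : Fin a → ℝ) (t : ℝ) :
    HasDerivAt (fun t : ℝ => qf G (j.insertNth t x))
      (2 * ∑ l, G j l * (j.insertNth t x : Fin (a+1) → ℝ) l) t := by
  unfold qf
  have h : HasDerivAt (fun t : ℝ => ∑ i, ∑ l, G i l * ((j.insertNth t x : Fin (a+1) → ℝ) i *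
      (j.insertNth t x : Fin (a+1) → ℝ) l))
      (∑ i, ∑ l, G i l * ((if i = j then 1 else 0) * (j.insertNth t x : Fin (a+1) → ℝ) l +
        (j.insertNth t x : Fin (a+1) → ℝ) i * (if l = j then 1 else 0))) t := by
    refine HasDerivAt.fun_sum (fun i _ => HasDerivAt.fun_sum (fun l _ => ?_))
    exact ((hasDerivAt_insertNth j x t i).mul (hasDerivAt_insertNth j x t l)).const_mul _
  convert h using 1
  simp only [mul_add, Finset.sum_add_distrib]
  have e1 : ∑ i, ∑ l, G i l * ((if i = j then (1:ℝ) else 0) *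
      (j.insertNth t x : Fin (a+1) → ℝ) l) = ∑ l, G j l * (j.insertNth t x : Fin (a+1) → ℝ) l := by
    rw [Finset.sum_comm]
    refine Finset.sum_congr rfl (fun l _ => ?_)
    simp
  have e2 : ∑ i, ∑ l, G i l * ((j.insertNth t x : Fin (a+1) → ℝ) i *
      (if l = j then (1:ℝ) else 0)) = ∑ l, G j l * (j.insertNth t x : Fin (a+1) → ℝ) l := by
    refine Finset.sum_congr rfl (fun l _ => ?_)
    simp
    left
    exact hs.apply _ _
  rw [e1, e2]; ring

lemma tendsto_qf_poly (hn : ∀ i j, G i j < 0) (j : Fin (a+1)) (x : Fin a → ℝ)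
    (hx : x ∈ orth (Fin a)) {p : (Fin (a+1) → ℝ) → ℝ}
    {C : ℝ} (hC : ∀ s ∈ orth (Fin (a+1)), |p s| ≤ C * (1 + ∑ i, (s i)^2)) :
    Tendsto (fun t : ℝ => p (j.insertNth t x) * Real.exp (qf G (j.insertNth t x)))
      atTop (𝓝 0) := by
  obtain ⟨δ, hδ, hδ'⟩ := exists_delta G hn
  have hlim : Tendsto (fun t : ℝ => |C| * ((1 + 2/δ) * Real.exp (-(δ/2) * t^2))) atTop (𝓝 0) := by
    have h1 : Tendsto (fun t : ℝ => -(δ/2) * t^2) atTop atBot :=
      Tendsto.const_mul_atTop_of_neg (by linarith) (tendsto_pow_atTop (by norm_num))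
    have h2 := Real.tendsto_exp_atBot.comp h1
    have h3 := (h2.const_mul (1 + 2/δ)).const_mul |C|
    simpa using h3
  refine squeeze_zero_norm' ?_ hlim
  filter_upwards [eventually_gt_atTop (0:ℝ)] with t ht
  have hs : (j.insertNth t x : Fin (a+1) → ℝ) ∈ orth (Fin (a+1)) :=
    (insertNth_mem_orth j t x).2 ⟨ht, hx⟩
  set s : Fin (a+1) → ℝ := j.insertNth t x with hsdef
  have hs' : ∀ i, 0 ≤ s i := fun i => (hs i).le
  have h1 := key_bound hδ hδ' hs'
  have h0 : 0 ≤ 1 + ∑ i, (s i)^2 := by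
    have : 0 ≤ ∑ i, (s i)^2 := Finset.sum_nonneg (fun i _ => sq_nonneg _)
    linarith
  have h2 : t^2 ≤ ∑ i, (s i)^2 := by
    have := sq_le_sum s j
    simpa [hsdef] using this
  rw [Real.norm_eq_abs, abs_mul, abs_of_pos (Real.exp_pos _)]
  calc |p s| * Real.exp (qf G s) ≤ (C * (1 + ∑ i, (s i)^2)) * Real.exp (qf G s) :=
        mul_le_mul_of_nonneg_right (hC s hs) (Real.exp_pos _).le
    _ ≤ (|C| * (1 + ∑ i, (s i)^2)) * Real.exp (qf G s) := by
        apply mul_le_mul_of_nonneg_right _ (Real.exp_pos _).le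
        exact mul_le_mul_of_nonneg_right (le_abs_self C) h0
    _ = |C| * ((1 + ∑ i, (s i)^2) * Real.exp (qf G s)) := by ring
    _ ≤ |C| * ((1 + 2/δ) * Real.exp (-(δ/2) * ∑ i, (s i)^2)) :=
        mul_le_mul_of_nonneg_left h1 (abs_nonneg C)
    _ ≤ |C| * ((1 + 2/δ) * Real.exp (-(δ/2) * t^2)) := by
        apply mul_le_mul_of_nonneg_left _ (abs_nonneg C)
        apply mul_le_mul_of_nonneg_left _ (by positivity)
        apply Real.exp_le_exp.2
        nlinarith

lemma bd0 {ι : Type*} [Fintype ι] (s : ι → ℝ) : |(1:ℝ)| ≤ 1 * (1 + ∑ i, (s i)^2) := by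
  have : 0 ≤ ∑ i, (s i)^2 := Finset.sum_nonneg (fun i _ => sq_nonneg _)
  simp; linarith

lemma bd1 {ι : Type*} [Fintype ι] (s : ι → ℝ) (i : ι) : |s i| ≤ 1 * (1 + ∑ i, (s i)^2) := by
  have h1 := sq_le_sum s i
  rw [abs_le]; constructor <;> nlinarith [sq_nonneg (s i - 1), sq_nonneg (s i + 1)]

theorem ibp0 {a : ℕ} (G : Matrix (Fin (a+1)) (Fin (a+1)) ℝ) (hs : G.IsSymm)
    (hn : ∀ i j, G i j < 0) (j : Fin (a+1)) :
    2 * ∑ l, G j l * J1 G l = - I0 (G.submatrix j.succAbove j.succAbove) := by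
  have key := ibp_gen j (fun s => Real.exp (qf G s))
    (fun s => Real.exp (qf G s) * (2 * ∑ l, G j l * s l))
    (fun x t => (hasDerivAt_qf G hs j x t).exp) ?_ ?_
  · have h1 : ∫ s in orth (Fin (a+1)), Real.exp (qf G s) * (2 * ∑ l, G j l * s l) =
        2 * ∑ l, G j l * J1 G l := by
      have h2 : ∀ s : Fin (a+1) → ℝ, Real.exp (qf G s) * (2 * ∑ l, G j l * s l) =
          2 * ∑ l, G j l * (s l * Real.exp (qf G s)) := by
        intro s
        rw [mul_left_comm, Finset.mul_sum]
        congr 1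
        exact Finset.sum_congr rfl (fun l _ => by ring)
      simp only [h2]
      rw [integral_const_mul, integral_finsetSum]
      · congr 1
        refine Finset.sum_congr rfl (fun l _ => ?_)
        rw [integral_const_mul]; rfl
      · intro l _
        exact (integrableOn_1 hn l).const_mul _
    rw [← h1, key]
    congr 1
    unfold I0
    simp only [qf_insertNth_zero]
  · have h2 : ∀ s : Fin (a+1) → ℝ, Real.exp (qf G s) * (2 * ∑ l, G j l * s l) =
          2 * ∑ l, G j l * (s l * Real.exp (qf G s)) := by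
      intro s
      rw [mul_left_comm, Finset.mul_sum]
      congr 1
      exact Finset.sum_congr rfl (fun l _ => by ring)
    simp only [h2]
    refine Integrable.const_mul ?_ _
    refine integrable_finsetSum _ (fun l _ => ?_)
    exact (integrableOn_1 hn l).const_mul _
  · intro x hx
    have := tendsto_qf_poly G hn j x hx (p := fun _ => 1) (C := 1) (fun s _ => bd0 s)
    simpa using this

theorem ibp1_same {a : ℕ} (G : Matrix (Fin (a+1)) (Fin (a+1)) ℝ) (hs : G.IsSymm)
    (hn : ∀ i j, G i j < 0) (j : Fin (a+1)) :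
    2 * ∑ l, G j l * J2 G j l = - I0 G := by
  have h2 : ∀ s : Fin (a+1) → ℝ, Real.exp (qf G s) + s j * (Real.exp (qf G s) *
        (2 * ∑ l, G j l * s l)) =
          Real.exp (qf G s) + 2 * ∑ l, G j l * (s j * s l * Real.exp (qf G s)) := by
      intro s
      congr 1
      rw [← mul_assoc, mul_left_comm, Finset.mul_sum]
      congr 1
      exact Finset.sum_congr rfl (fun l _ => by ring)
  have hi2 : IntegrableOn (fun s => 2 * ∑ l, G j l * (s j * s l * Real.exp (qf G s)))
      (orth (Fin (a+1))) := by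
    refine Integrable.const_mul ?_ _
    refine integrable_finsetSum _ (fun l _ => ?_)
    exact (integrableOn_2 hn j l).const_mul _
  have key := ibp_gen j (fun s => s j * Real.exp (qf G s))
    (fun s => Real.exp (qf G s) + s j * (Real.exp (qf G s) * (2 * ∑ l, G j l * s l)))
    ?_ ?_ ?_
  · have h1 : ∫ s in orth (Fin (a+1)), (Real.exp (qf G s) + s j * (Real.exp (qf G s) *
        (2 * ∑ l, G j l * s l))) =
        I0 G + 2 * ∑ l, G j l * J2 G j l := by
      simp only [h2]
      rw [integral_add (integrableOn_0 hn) hi2, integral_const_mul, integral_finsetSum]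
      · congr 2
        refine Finset.sum_congr rfl (fun l _ => ?_)
        rw [integral_const_mul]; rfl
      · intro l _
        exact (integrableOn_2 hn j l).const_mul _
    rw [h1] at key
    simp only [Fin.insertNth_apply_same, zero_mul, integral_zero, neg_zero] at key
    linarith
  · intro x t
    have h3 := (hasDerivAt_id' t).fun_mul ((hasDerivAt_qf G hs j x t).exp)
    simpa using h3
  · simp only [h2]
    exact (integrableOn_0 hn).add hi2
  · intro x hx
    exact tendsto_qf_poly G hn j x hx (p := fun s => s j) (C := 1) (fun s _ => bd1 s j)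

theorem ibp1_ne {a : ℕ} (G : Matrix (Fin (a+1)) (Fin (a+1)) ℝ) (hs : G.IsSymm)
    (hn : ∀ i j, G i j < 0) (j : Fin (a+1)) (i : Fin a) :
    2 * ∑ l, G j l * J2 G (j.succAbove i) l =
      - J1 (G.submatrix j.succAbove j.succAbove) i := by
  have h2 : ∀ s : Fin (a+1) → ℝ, s (j.succAbove i) * (Real.exp (qf G s) *
        (2 * ∑ l, G j l * s l)) =
          2 * ∑ l, G j l * (s (j.succAbove i) * s l * Real.exp (qf G s)) := by
      intro s
      rw [← mul_assoc, mul_left_comm, Finset.mul_sum]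
      congr 1
      exact Finset.sum_congr rfl (fun l _ => by ring)
  have hi2 : IntegrableOn (fun s => 2 * ∑ l, G j l * (s (j.succAbove i) * s l *
      Real.exp (qf G s))) (orth (Fin (a+1))) := by
    refine Integrable.const_mul ?_ _
    refine integrable_finsetSum _ (fun l _ => ?_)
    exact (integrableOn_2 hn _ l).const_mul _
  have key := ibp_gen j (fun s => s (j.succAbove i) * Real.exp (qf G s))
    (fun s => s (j.succAbove i) * (Real.exp (qf G s) * (2 * ∑ l, G j l * s l)))
    ?_ ?_ ?_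
  · have h1 : ∫ s in orth (Fin (a+1)), (s (j.succAbove i) * (Real.exp (qf G s) *
        (2 * ∑ l, G j l * s l))) = 2 * ∑ l, G j l * J2 G (j.succAbove i) l := by
      simp only [h2]
      rw [integral_const_mul, integral_finsetSum]
      · congr 1
        refine Finset.sum_congr rfl (fun l _ => ?_)
        rw [integral_const_mul]; rfl
      · intro l _
        exact (integrableOn_2 hn _ l).const_mul _
    rw [← h1, key]
    congr 1
    unfold J1
    simp only [qf_insertNth_zero, Fin.insertNth_apply_succAbove]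
  · intro x t
    have h3 := (hasDerivAt_qf G hs j x t).exp.const_mul (x i)
    simpa using h3
  · simp only [h2]
    exact hi2
  · intro x hx
    exact tendsto_qf_poly G hn j x hx (p := fun s => s (j.succAbove i)) (C := 1)
      (fun s _ => bd1 s _)

end Pool.Agent.W31.Bel
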