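import Mathlib
import Pool.Agent.W576.Defs
import Pool.Agent.W576.Defs2
import Pool.Agent.W31.BelGauss
import Pool.Agent.W31.BelIbp

/-!
# Derivative of the signed simplex volume
-/

namespace Pool.Agent.W31.Bel

open MeasureTheory Pool.Agent.W576 Filter Topology Set

section lor

lemma lor_comm' {R : Type*} [CommRing R] {d : ℕ} (x y : Fin d → R) : lor x y = lor y x := by
  unfold lor; exact Finset.sum_congr rfl (fun i _ => by ring)

lemma lor_smul_left {R : Type*} [CommRing R] {d : ℕ} (c : R) (x y : Fin d → R) :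
    lor (c • x) y = c * lor x y := by
  unfold lor
  rw [Finset.mul_sum]
  exact Finset.sum_congr rfl (fun i _ => by simp only [Pi.smul_apply, smul_eq_mul]; ring)

lemma lor_add_left {R : Type*} [CommRing R] {d : ℕ} (x x' y : Fin d → R) :
    lor (x + x') y = lor x y + lor x' y := by
  unfold lor
  rw [← Finset.sum_add_distrib]
  exact Finset.sum_congr rfl (fun i _ => by simp only [Pi.add_apply]; ring)

lemma lor_smul_right {R : Type*} [CommRing R] {d : ℕ} (c : R) (x y : Fin d → R) :
    lor x (c • y) = c * lor x y := by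
  rw [lor_comm', lor_smul_left, lor_comm']

lemma lor_add_right {R : Type*} [CommRing R] {d : ℕ} (x y y' : Fin d → R) :
    lor x (y + y') = lor x y + lor x y' := by
  rw [lor_comm', lor_add_left, lor_comm' y, lor_comm' y']

lemma lor_sum_left {R : Type*} [CommRing R] {d : ℕ} {κ : Type*} (s : Finset κ)
    (f : κ → Fin d → R) (y : Fin d → R) :
    lor (∑ k ∈ s, f k) y = ∑ k ∈ s, lor (f k) y := by
  unfold lor
  rw [Finset.sum_comm]
  refine Finset.sum_congr rfl (fun i _ => ?_)
  rw [Finset.sum_apply, Finset.sum_mul, Finset.mul_sum]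

lemma lor_succ {R : Type*} [CommRing R] {d : ℕ} (x y : Fin (d+1) → R) :
    lor x y = -(x 0 * y 0) + ∑ i : Fin d, x i.succ * y i.succ := by
  unfold lor
  rw [Fin.sum_univ_succ]
  simp [eta]

theorem lor_neg_of_fut {d : ℕ} {x y : Fin (d+1) → ℝ} (hx : Fut x) (hy : Fut y) :
    lor x y < 0 := by
  obtain ⟨hx0, hx1⟩ := hx
  obtain ⟨hy0, hy1⟩ := hy
  rw [lor_succ] at hx1 hy1 ⊢
  have hcs := Finset.sum_mul_sq_le_sq_mul_sq Finset.univ (fun i : Fin d => x i.succ)
    (fun i : Fin d => y i.succ)
  have hA : ∑ i : Fin d, x i.succ * x i.succ = ∑ i : Fin d, (x i.succ)^2 :=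
    Finset.sum_congr rfl (fun i _ => by ring)
  have hB : ∑ i : Fin d, y i.succ * y i.succ = ∑ i : Fin d, (y i.succ)^2 :=
    Finset.sum_congr rfl (fun i _ => by ring)
  rw [hA] at hx1
  rw [hB] at hy1
  set A := ∑ i : Fin d, (x i.succ)^2
  set B := ∑ i : Fin d, (y i.succ)^2
  set S := ∑ i : Fin d, x i.succ * y i.succ
  have hA0 : 0 ≤ A := Finset.sum_nonneg (fun i _ => sq_nonneg _)
  have hB0 : 0 ≤ B := Finset.sum_nonneg (fun i _ => sq_nonneg _)
  have hp : 0 < x 0 * y 0 := mul_pos hx0 hy0
  have h1 : S^2 < (x 0 * y 0)^2 := by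
    calc S^2 ≤ A * B := hcs
      _ ≤ (x 0 * x 0) * B := mul_le_mul_of_nonneg_right (by linarith) hB0
      _ < (x 0 * x 0) * (y 0 * y 0) := mul_lt_mul_of_pos_left (by linarith) (mul_pos hx0 hx0)
      _ = (x 0 * y 0)^2 := by ring
  have h2 := abs_lt_of_sq_lt_sq h1 hp.le
  have h3 := (abs_lt.1 h2).2
  linarith

theorem fut_convex {d : ℕ} : Convex ℝ {x : Fin (d+1) → ℝ | Fut x} := by
  intro x hx y hy a b ha hb hab
  simp only [mem_ofPred_eq] at hx hy ⊢
  have hxy := lor_neg_of_fut hx hy
  obtain ⟨hx0, hx1⟩ := hx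
  obtain ⟨hy0, hy1⟩ := hy
  rcases ha.eq_or_lt with rfl | ha'
  · have hb1 : b = 1 := by linarith
    subst hb1
    simp only [zero_smul, one_smul, zero_add]
    exact ⟨hy0, hy1⟩
  · constructor
    · have h1 : 0 < a * x 0 := mul_pos ha' hx0
      have h2 : 0 ≤ b * y 0 := mul_nonneg hb hy0.le
      simp only [Pi.add_apply, Pi.smul_apply, smul_eq_mul]
      linarith
    · rw [lor_add_left, lor_add_right, lor_add_right, lor_smul_left, lor_smul_left,
        lor_smul_right, lor_smul_right, lor_smul_left, lor_smul_left, lor_smul_right,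
        lor_smul_right, lor_comm' y x]
      have h1 : a * (a * lor x x) < 0 :=
        mul_neg_of_pos_of_neg ha' (mul_neg_of_pos_of_neg ha' hx1)
      have h2 : a * (b * lor x y) ≤ 0 :=
        mul_nonpos_of_nonneg_of_nonpos ha (mul_nonpos_of_nonneg_of_nonpos hb hxy.le)
      have h3 : b * (b * lor y y) ≤ 0 :=
        mul_nonpos_of_nonneg_of_nonpos hb (mul_nonpos_of_nonneg_of_nonpos hb hy1.le)
      nlinarith

end lor

/-- the determinant as a continuous multilinear map of the rows -/
noncomputable def detCM (n : ℕ) : ContinuousMultilinearMap ℝ (fun _ : Fin n => Fin n → ℝ) ℝ :=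
  { (Matrix.detRowAlternating (R := ℝ) (n := Fin n)).toMultilinearMap with
    cont := by
      change Continuous (fun v : Fin n → Fin n → ℝ => (Matrix.of v).det)
      exact Continuous.matrix_det continuous_id }

lemma detCM_apply {n : ℕ} (v : Fin n → Fin n → ℝ) : detCM n v = (Matrix.of v).det := rfl

lemma hasDerivAt_det {n : ℕ} (v : ℝ → Fin n → Fin n → ℝ) (w : Fin n → Fin n → ℝ) (t : ℝ)
    (hv : ∀ i j, HasDerivAt (fun s => v s i j) (w i j) t) :
    HasDerivAt (fun s => (Matrix.of (v s)).det)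
      (∑ i, (Matrix.of (Function.update (v t) i (w i))).det) t := by
  have h1 : HasDerivAt v w t :=
    hasDerivAt_pi.2 (fun i => hasDerivAt_pi.2 (fun j => hv i j))
  have h2 := ((detCM n).hasFDerivAt (x := v t)).comp_hasDerivAt t h1
  rw [ContinuousMultilinearMap.linearDeriv_apply] at h2
  exact h2

lemma det_update_eq {R : Type*} [CommRing R] {a : ℕ} (v : Fin (a+1) → Fin (a+1) → R)
    (l : Fin (a+1)) (x : Fin (a+1) → R) :
    (Matrix.of (Function.update v l x)).det =
      (-1)^(l:ℕ) * (Matrix.of (Fin.cons x (fun i => v (l.succAbove i)) :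
        Fin (a+1) → Fin (a+1) → R)).det := by
  rw [Matrix.det_succ_row _ l, Matrix.det_succ_row_zero, Finset.mul_sum]
  refine Finset.sum_congr rfl (fun j _ => ?_)
  have h1 : (Matrix.of (Function.update v l x)).submatrix l.succAbove j.succAbove =
      (Matrix.of (Fin.cons x (fun i => v (l.succAbove i)) :
        Fin (a+1) → Fin (a+1) → R)).submatrix Fin.succ j.succAbove := by
    ext i k
    simp [Matrix.submatrix]
  rw [h1]
  simp [pow_add]; ring

lemma cramer_expand {R : Type*} [CommRing R] {n : ℕ} (v : Fin n → Fin n → R) (x : Fin n → R) :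
    (Matrix.of v).det • x = ∑ l, (Matrix.of (Function.update v l x)).det • v l := by
  have h1 := Matrix.mulVec_cramer (Matrix.of v).transpose x
  rw [Matrix.det_transpose] at h1
  rw [← h1]
  funext j
  simp only [Matrix.mulVec, dotProduct, Matrix.transpose_apply, Matrix.of_apply,
    Finset.sum_apply, Pi.smul_apply, smul_eq_mul]
  refine Finset.sum_congr rfl (fun l _ => ?_)
  rw [Matrix.cramer_transpose_apply, mul_comm]
  rfl

lemma gram_symm {R : Type*} [CommRing R] {ι : Type*} {d : ℕ} (v : ι → Fin d → R) :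
    (gram v).IsSymm := by
  ext i j
  exact lor_comm' _ _

lemma J2_symm {ι : Type*} [Fintype ι] (G : Matrix ι ι ℝ) (i j : ι) : J2 G i j = J2 G j i := by
  unfold J2
  simp only [mul_comm]

lemma hasDerivAt_gram {n d : ℕ} (v : ℝ → Fin n → Fin d → ℝ) (w : Fin n → Fin d → ℝ) (t : ℝ)
    (hv : ∀ i j, HasDerivAt (fun s => v s i j) (w i j) t) (i j : Fin n) :
    HasDerivAt (fun s => gram (v s) i j) (lor (w i) (v t j) + lor (v t i) (w j)) t := by
  unfold gram lor
  rw [← Finset.sum_add_distrib]
  refine HasDerivAt.fun_sum (fun k _ => ?_)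
  have h := ((hv i k).fun_mul (hv j k)).const_mul (eta k : ℝ)
  exact h.congr_deriv (by ring)

theorem hasDerivAt_SV {a : ℕ} (v : ℝ → Fin (a+1) → Fin (a+1) → ℝ) (w : Fin (a+1) → Fin (a+1) → ℝ)
    (t : ℝ) (hv : ∀ i j, HasDerivAt (fun s => v s i j) (w i j) t)
    (hn : ∀ i j, gram (v t) i j < 0) :
    HasDerivAt (fun s => SV (v s))
      (-∑ j : Fin (a+1), (-1 : ℝ) ^ (j : ℕ) *
        TT (fun i => v t (j.succAbove i)) (fun i => w (j.succAbove i))) t := by
  have h1 := hasDerivAt_det v w t hv
  have h2 := hasDerivAt_I0 (fun s => gram (v s))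
    (fun i j => lor (w i) (v t j) + lor (v t i) (w j)) t (hasDerivAt_gram v w t hv) hn
  have h3 := h1.fun_mul h2
  refine h3.congr_deriv ?_
  set u := v t with hu
  set G := gram u with hG
  set D : Fin (a+1) → (Fin (a+1) → ℝ) → ℝ := fun l x => (Matrix.of (Function.update u l x)).det
    with hD
  -- second term
  have e1 : (∑ i, ∑ j, (lor (w i) (u j) + lor (u i) (w j)) * J2 G i j) =
      2 * ∑ i, ∑ j, lor (w i) (u j) * J2 G i j := by
    simp only [add_mul, Finset.sum_add_distrib]
    have : ∑ i, ∑ j, lor (u i) (w j) * J2 G i j = ∑ i, ∑ j, lor (w i) (u j) * J2 G i j := by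
      rw [Finset.sum_comm]
      refine Finset.sum_congr rfl (fun i _ => Finset.sum_congr rfl (fun j _ => ?_))
      rw [lor_comm', J2_symm]
    rw [this]; ring
  have e2 : ∀ i j, (Matrix.of u).det * lor (w i) (u j) = ∑ l, D l (w i) * G l j := by
    intro i j
    rw [← lor_smul_left, cramer_expand, lor_sum_left]
    refine Finset.sum_congr rfl (fun l _ => ?_)
    rw [lor_smul_left]; rfl
  have e3 : (Matrix.of u).det * (∑ i, ∑ j, (lor (w i) (u j) + lor (u i) (w j)) * J2 G i j) =
      ∑ l, ∑ i, D l (w i) * (2 * ∑ j, G l j * J2 G i j) := by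
    rw [e1, mul_left_comm, Finset.mul_sum]
    have : ∀ i, (Matrix.of u).det * ∑ j, lor (w i) (u j) * J2 G i j =
        ∑ l, D l (w i) * ∑ j, G l j * J2 G i j := by
      intro i
      rw [Finset.mul_sum]
      simp only [← mul_assoc, e2]
      simp only [Finset.sum_mul, Finset.mul_sum]
      rw [Finset.sum_comm]
      refine Finset.sum_congr rfl (fun l _ => Finset.sum_congr rfl (fun j _ => ?_))
      ring
    simp only [this]
    rw [Finset.sum_comm, Finset.mul_sum]
    refine Finset.sum_congr rfl (fun l _ => ?_)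
    rw [Finset.mul_sum]
    refine Finset.sum_congr rfl (fun i _ => ?_)
    ring
  have e4 : ∀ l, ∑ i, D l (w i) * (2 * ∑ j, G l j * J2 G i j) =
      - (D l (w l) * I0 G) - ∑ i', D l (w (l.succAbove i')) *
        J1 (G.submatrix l.succAbove l.succAbove) i' := by
    intro l
    rw [Fin.sum_univ_succAbove _ l]
    have hsame := ibp1_same G (gram_symm u) hn l
    have hne := fun i' => ibp1_ne G (gram_symm u) hn l i'
    rw [hsame]
    simp only [hne]
    rw [show ∀ x y : ℝ, D l (w l) * -x + y = -(D l (w l) * x) - (-y) from fun x y => by ring]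
    congr 1
    rw [← Finset.sum_neg_distrib]
    refine Finset.sum_congr rfl (fun i' _ => by ring)
  rw [e3]
  simp only [e4, Finset.sum_sub_distrib, Finset.sum_neg_distrib]
  have e5 : ∑ l, D l (w l) * I0 G = (∑ l, D l (w l)) * I0 G := by rw [Finset.sum_mul]
  rw [e5]
  have e6 : ∀ l : Fin (a+1), (-1 : ℝ) ^ (l : ℕ) *
        TT (fun i => u (l.succAbove i)) (fun i => w (l.succAbove i)) =
      ∑ i', D l (w (l.succAbove i')) * J1 (G.submatrix l.succAbove l.succAbove) i' := by
    intro l
    unfold TT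
    rw [Finset.mul_sum]
    refine Finset.sum_congr rfl (fun i' _ => ?_)
    simp only [hD]
    rw [det_update_eq, mul_assoc]
    rfl
  simp only [e6]
  ring

end Pool.Agent.W31.Bel
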