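import Mathlib
import Pool.Agent.W576.Defs
import Pool.Agent.W576.Defs2
import Pool.Agent.W31.BelSV

/-!
# Cocycle identity for the signed simplex volume, and flux of Killing fields
-/

namespace Pool.Agent.W31.Bel

open MeasureTheory Pool.Agent.W576 Filter Topology Set

/-- double alternating sums over faces vanish -/
lemma double_face_sum {b : ℕ} {α : Type*} (y : Fin (b+2) → α)
    (f : (Fin b → α) → ℝ) :
    ∑ i : Fin (b+2), (-1 : ℝ)^(i:ℕ) * ∑ j : Fin (b+1), (-1 : ℝ)^(j:ℕ) *
      f (fun k => y (i.succAbove (j.succAbove k))) = 0 := by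
  simp only [Finset.mul_sum]
  rw [← Finset.sum_product' (s := Finset.univ) (t := Finset.univ)
    (f := fun (i : Fin (b+2)) (j : Fin (b+1)) => (-1 : ℝ)^(i:ℕ) * ((-1 : ℝ)^(j:ℕ) *
      f (fun k => y (i.succAbove (j.succAbove k)))))]
  refine Finset.sum_involution (fun p _ => (p.1.succAbove p.2, p.2.predAbove p.1)) ?_ ?_ ?_ ?_
  · rintro ⟨i, j⟩ _
    simp only
    have h1 : (fun k => y ((i.succAbove j).succAbove ((j.predAbove i).succAbove k))) =
        fun k => y (i.succAbove (j.succAbove k)) := by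
      funext k
      rw [Fin.succAbove_succAbove_succAbove_predAbove]
    rw [h1, ← mul_assoc, ← mul_assoc, ← pow_add, ← pow_add,
      Fin.neg_one_pow_succAbove_add_predAbove]
    ring
  · rintro ⟨i, j⟩ _ _ h
    simp only [Prod.mk.injEq] at h
    exact Fin.succAbove_ne i j h.1
  · intro p _
    exact Finset.mem_univ _
  · rintro ⟨i, j⟩ _
    simp only [Prod.mk.injEq]
    exact ⟨Fin.succAbove_succAbove_predAbove i j, Fin.predAbove_predAbove_succAbove i j⟩

lemma SV_const {b : ℕ} (hb : 1 ≤ b) (z : Fin (b+1) → ℝ) :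
    SV (fun _ : Fin (b+1) => z) = 0 := by
  unfold SV
  have h : (Matrix.of (fun _ : Fin (b+1) => z)).det = 0 := by
    refine Matrix.det_zero_of_row_eq (i := 0) (j := Fin.last b) ?_ ?_
    · intro h
      have := congrArg Fin.val h
      simp at this
      omega
    · rfl
  rw [h, zero_mul]

theorem SV_cocycle {b : ℕ} (x : Fin (b+2) → Fin (b+1) → ℝ) (hx : ∀ i, Fut (x i)) :
    ∑ i : Fin (b+2), (-1 : ℝ) ^ (i : ℕ) * SV (fun j => x (i.succAbove j)) = 0 := by
  set y : ℝ → Fin (b+2) → Fin (b+1) → ℝ := fun s k => (1-s) • x k + s • x 0 with hy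
  set w : Fin (b+2) → Fin (b+1) → ℝ := fun k => x 0 - x k with hw
  set F : ℝ → ℝ := fun s => ∑ i : Fin (b+2), (-1 : ℝ) ^ (i : ℕ) *
    SV (fun j => y s (i.succAbove j)) with hF
  have hfut : ∀ s ∈ Icc (0:ℝ) 1, ∀ k, Fut (y s k) := by
    intro s hs k
    exact fut_convex (hx k) (hx 0) (by linarith [hs.2]) hs.1 (by ring)
  have hder : ∀ s ∈ Icc (0:ℝ) 1, HasDerivAt F 0 s := by
    intro s hs
    have h1 : ∀ i : Fin (b+2), HasDerivAt (fun s => (-1 : ℝ) ^ (i : ℕ) *
        SV (fun j => y s (i.succAbove j)))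
        ((-1 : ℝ) ^ (i : ℕ) * (-∑ j : Fin (b+1), (-1 : ℝ) ^ (j : ℕ) *
        TT (fun k => y s (i.succAbove (j.succAbove k)))
          (fun k => w (i.succAbove (j.succAbove k))))) s := by
      intro i
      refine HasDerivAt.const_mul _ ?_
      refine hasDerivAt_SV (fun s j => y s (i.succAbove j)) (fun j => w (i.succAbove j)) s ?_ ?_
      · intro j k
        have h2 : HasDerivAt (fun s : ℝ => (1 - s) * x (i.succAbove j) k + s * x 0 k)
            ((0 - 1) * x (i.succAbove j) k + 1 * x 0 k) s :=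
          ((((hasDerivAt_const s (1:ℝ)).fun_sub (hasDerivAt_id' s)).mul_const _).fun_add
            ((hasDerivAt_id' s).mul_const _))
        have h3 : w (i.succAbove j) k = (0 - 1) * x (i.succAbove j) k + 1 * x 0 k := by
          simp [hw]; ring
        rw [h3]
        exact h2
      · intro j k
        exact lor_neg_of_fut (hfut s hs _) (hfut s hs _)
    have h2 := HasDerivAt.fun_sum (u := Finset.univ) (fun i _ => h1 i)
    refine h2.congr_deriv ?_
    have h3 := double_face_sum (α := (Fin (b+1) → ℝ) × (Fin (b+1) → ℝ))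
      (fun k => (y s k, w k))
      (fun g => TT (fun k => (g k).1) (fun k => (g k).2))
    simp only [mul_neg, Finset.sum_neg_distrib]
    rw [neg_eq_zero]
    exact h3
  have hconst : ∀ s ∈ Icc (0:ℝ) 1, F s = F 0 := by
    refine constant_of_has_deriv_right_zero ?_ ?_
    · intro s hs
      exact (hder s hs).continuousAt.continuousWithinAt
    · intro s hs
      exact (hder s ⟨hs.1, hs.2.le⟩).hasDerivWithinAt
  have h0 : F 0 = ∑ i : Fin (b+2), (-1 : ℝ) ^ (i : ℕ) * SV (fun j => x (i.succAbove j)) := by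
    simp [hF, hy]
  have h1 : F 1 = 0 := by
    have e1 : F 1 = ∑ i : Fin (b+2), (-1 : ℝ) ^ (i : ℕ) * SV (fun _ : Fin (b+1) => x 0) := by
      simp [hF, hy]
    rw [e1]
    rcases Nat.eq_zero_or_pos b with rfl | hb
    · rw [Fin.sum_univ_two]; simp
    · rw [SV_const hb]; simp
  rw [← h0, ← hconst 1 ⟨zero_le_one, le_refl _⟩, h1]

/-- linear dependence of `n+1` vectors in dimension `n` (Cramer) -/
lemma face_dep {R : Type*} [CommRing R] {n : ℕ} (x : Fin (n+1) → Fin n → R) :
    ∑ j : Fin (n+1), ((-1 : R)^(j:ℕ) * (Matrix.of (fun k => x (j.succAbove k))).det) • x j = 0 := by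
  funext c
  have hM : (Matrix.of (fun j k => (Fin.cons (x j c) (x j) : Fin (n+1) → R) k) :
      Matrix (Fin (n+1)) (Fin (n+1)) R).det = 0 := by
    refine Matrix.det_zero_of_column_eq (i := 0) (j := c.succ) (Fin.succ_ne_zero c).symm ?_
    intro k
    simp
  rw [Matrix.det_succ_column_zero] at hM
  rw [Finset.sum_apply, Pi.zero_apply, ← hM]
  refine Finset.sum_congr rfl (fun j _ => ?_)
  simp only [Pi.smul_apply, smul_eq_mul, Matrix.of_apply, Fin.cons_zero]
  have : (Matrix.of (fun j k => (Fin.cons (x j c) (x j) : Fin (n+1) → R) k)).submatrix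
      j.succAbove Fin.succ = Matrix.of (fun k => x (j.succAbove k)) := by
    ext i k; simp
  rw [this]; ring

lemma lor_expand {R : Type*} [CommRing R] {d : ℕ} (y : Fin d → R) :
    ∑ c, (eta c * lor (Pi.single c 1) y) • (Pi.single c (1:R) : Fin d → R) = y := by
  funext k
  rw [Finset.sum_apply]
  simp only [Pi.smul_apply, smul_eq_mul]
  rw [Finset.sum_eq_single k]
  · have h1 : lor (Pi.single k 1) y = eta k * y k := by
      unfold lor
      rw [Finset.sum_eq_single k]
      · simp
      · intro i _ hi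
        simp [Pi.single_eq_of_ne hi]
      · simp
    rw [h1]
    have h2 : (eta k : R) * eta k = 1 := by
      unfold eta; split_ifs <;> ring
    rw [Pi.single_eq_same, ← mul_assoc, h2]; ring
  · intro i _ hi
    simp [Pi.single_eq_of_ne hi.symm]
  · simp

lemma det_cons_sum {R : Type*} [CommRing R] {n : ℕ} {κ : Type*} (s : Finset κ) (c : κ → R)
    (g : κ → Fin (n+1) → R) (u : Fin n → Fin (n+1) → R) :
    (Matrix.of (Fin.cons (∑ k ∈ s, c k • g k) u : Fin (n+1) → Fin (n+1) → R)).det =
      ∑ k ∈ s, c k * (Matrix.of (Fin.cons (g k) u : Fin (n+1) → Fin (n+1) → R)).det := by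
  have h : ∀ z : Fin (n+1) → R, (Matrix.of (Fin.cons z u : Fin (n+1) → Fin (n+1) → R)).det =
      ∑ j : Fin (n+1), z j * ((-1)^(j:ℕ) *
        ((Matrix.of (Fin.cons 0 u : Fin (n+1) → Fin (n+1) → R)).submatrix
          Fin.succ j.succAbove).det) := by
    intro z
    rw [Matrix.det_succ_row_zero]
    refine Finset.sum_congr rfl (fun j _ => ?_)
    have : (Matrix.of (Fin.cons z u : Fin (n+1) → Fin (n+1) → R)).submatrix
          Fin.succ j.succAbove = (Matrix.of (Fin.cons 0 u : Fin (n+1) → Fin (n+1) → R)).submatrix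
          Fin.succ j.succAbove := by
      ext i k; simp
    rw [this]
    simp only [Matrix.of_apply, Fin.cons_zero]
    ring
  rw [h]
  simp only [h, Finset.mul_sum]
  rw [Finset.sum_comm]
  refine Finset.sum_congr rfl (fun j _ => ?_)
  rw [Finset.sum_apply, Finset.sum_mul]
  refine Finset.sum_congr rfl (fun k _ => ?_)
  simp only [Pi.smul_apply, smul_eq_mul]
  ring

lemma skew_key {a : ℕ} (u : Fin (a+1) → Fin (a+2) → ℝ)
    (X : Matrix (Fin (a+2)) (Fin (a+2)) ℝ)
    (hX : ∀ x y, lor (X.mulVec x) y = - lor x (X.mulVec y)) (y : Fin (a+2) → ℝ) :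
    (Matrix.of (Fin.cons (X.mulVec y) u : Fin (a+2) → Fin (a+2) → ℝ)).det =
      - ∑ i : Fin (a+1), (-1 : ℝ)^(i:ℕ) * Delta X (fun j => u (i.succAbove j)) * lor (u i) y := by
  -- dependence relation for each basis vector
  have hdep : ∀ c : Fin (a+2),
      (Matrix.of (Fin.cons (X.mulVec (Pi.single c 1)) u : Fin (a+2) → Fin (a+2) → ℝ)).det *
          lor (Pi.single c 1) y
        - (Matrix.of (Fin.cons (Pi.single c 1) u : Fin (a+2) → Fin (a+2) → ℝ)).det *
          lor (X.mulVec (Pi.single c 1)) y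
        + ∑ i : Fin (a+1), (-1 : ℝ)^(i:ℕ) * (Matrix.of (Fin.cons (Pi.single c 1)
            (Fin.cons (X.mulVec (Pi.single c 1)) (fun j => u (i.succAbove j))) :
              Fin (a + 2) → Fin (a + 2) → ℝ)).det * lor (u i) y = 0 := by
    intro c
    have h := face_dep (R := ℝ) (n := a+2)
      (Fin.cons (Pi.single c 1) (Fin.cons (X.mulVec (Pi.single c 1)) u))
    have h2 := congrArg (fun z => lor z y) h
    simp only [lor_sum_left, lor_smul_left] at h2
    have hz : lor (0 : Fin (a+2) → ℝ) y = 0 := by simp [lor]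
    rw [hz, Fin.sum_univ_succ, Fin.sum_univ_succ] at h2
    have e0 : (fun k => (Fin.cons (Pi.single c 1) (Fin.cons (X.mulVec (Pi.single c 1)) u) :
        Fin (a+3) → Fin (a+2) → ℝ) ((0 : Fin (a+3)).succAbove k)) =
        Fin.cons (X.mulVec (Pi.single c 1)) u := by
      funext k
      simp
    have e1 : (fun k => (Fin.cons (Pi.single c 1) (Fin.cons (X.mulVec (Pi.single c 1)) u) :
        Fin (a+3) → Fin (a+2) → ℝ) (((0 : Fin (a+2)).succ).succAbove k)) =
        Fin.cons (Pi.single c 1) u := by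
      funext k
      refine Fin.cases ?_ (fun k => ?_) k
      · simp
      · simp
    have e2 : ∀ i : Fin (a+1), (fun k => (Fin.cons (Pi.single c 1)
        (Fin.cons (X.mulVec (Pi.single c 1)) u) :
        Fin (a+3) → Fin (a+2) → ℝ) ((i.succ.succ).succAbove k)) =
        Fin.cons (Pi.single c 1)
            (Fin.cons (X.mulVec (Pi.single c 1)) (fun j => u (i.succAbove j))) := by
      intro i
      funext k
      refine Fin.cases ?_ (fun k => ?_) k
      · simp
      · refine Fin.cases ?_ (fun k => ?_) k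
        · simp
        · simp
    rw [e0, e1] at h2
    simp only [e2] at h2
    simp only [Fin.cons_zero, Fin.cons_succ, Fin.val_zero, Fin.val_succ, pow_zero, pow_succ,
      one_mul, mul_neg, mul_one, neg_neg, neg_mul] at h2
    linarith
  have hsum : ∑ c : Fin (a+2), (eta c : ℝ) * (
      (Matrix.of (Fin.cons (X.mulVec (Pi.single c 1)) u : Fin (a+2) → Fin (a+2) → ℝ)).det *
          lor (Pi.single c 1) y
        - (Matrix.of (Fin.cons (Pi.single c 1) u : Fin (a+2) → Fin (a+2) → ℝ)).det *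
          lor (X.mulVec (Pi.single c 1)) y
        + ∑ i : Fin (a+1), (-1 : ℝ)^(i:ℕ) * (Matrix.of (Fin.cons (Pi.single c 1)
            (Fin.cons (X.mulVec (Pi.single c 1)) (fun j => u (i.succAbove j))) :
              Fin (a + 2) → Fin (a + 2) → ℝ)).det * lor (u i) y) = 0 := by
    refine Finset.sum_eq_zero (fun c _ => ?_)
    rw [hdep c, mul_zero]
  simp only [mul_add, mul_sub, Finset.sum_add_distrib, Finset.sum_sub_distrib] at hsum
  have f1 : ∑ c : Fin (a+2), (eta c : ℝ) *
      ((Matrix.of (Fin.cons (X.mulVec (Pi.single c 1)) u : Fin (a+2) → Fin (a+2) → ℝ)).det *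
          lor (Pi.single c 1) y) =
      (Matrix.of (Fin.cons (X.mulVec y) u : Fin (a+2) → Fin (a+2) → ℝ)).det := by
    have h1 : X.mulVec y = ∑ c, ((eta c : ℝ) * lor (Pi.single c 1) y) •
        (X.mulVec (Pi.single c 1)) := by
      conv_lhs => rw [← lor_expand y]
      rw [← Matrix.mulVecLin_apply, map_sum]
      simp only [map_smul, Matrix.mulVecLin_apply]
    rw [h1, det_cons_sum]
    refine Finset.sum_congr rfl (fun c _ => by ring)
  have f2 : ∑ c : Fin (a+2), (eta c : ℝ) *
      ((Matrix.of (Fin.cons (Pi.single c 1) u : Fin (a+2) → Fin (a+2) → ℝ)).det *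
          lor (X.mulVec (Pi.single c 1)) y) =
      - (Matrix.of (Fin.cons (X.mulVec y) u : Fin (a+2) → Fin (a+2) → ℝ)).det := by
    conv_rhs => rw [← lor_expand (X.mulVec y)]
    rw [det_cons_sum, ← Finset.sum_neg_distrib]
    refine Finset.sum_congr rfl (fun c _ => ?_)
    rw [hX]; ring
  have f3 : ∑ c : Fin (a+2), (eta c : ℝ) * ∑ i : Fin (a+1), (-1 : ℝ)^(i:ℕ) *
      (Matrix.of (Fin.cons (Pi.single c 1)
            (Fin.cons (X.mulVec (Pi.single c 1)) (fun j => u (i.succAbove j))) :
              Fin (a + 2) → Fin (a + 2) → ℝ)).det * lor (u i) y =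
      2 * ∑ i : Fin (a+1), (-1 : ℝ)^(i:ℕ) * Delta X (fun j => u (i.succAbove j)) * lor (u i) y := by
    simp only [Finset.mul_sum]
    rw [Finset.sum_comm]
    refine Finset.sum_congr rfl (fun i _ => ?_)
    unfold Delta
    simp only [Finset.mul_sum, Finset.sum_mul]
    refine Finset.sum_congr rfl (fun c _ => ?_)
    ring
  rw [f1, f2, f3] at hsum
  linarith

theorem TT_skew {a : ℕ} (u : Fin (a+1) → Fin (a+2) → ℝ) (hn : ∀ i j, gram u i j < 0)
    (X : Matrix (Fin (a+2)) (Fin (a+2)) ℝ)
    (hX : ∀ x y, lor (X.mulVec x) y = - lor x (X.mulVec y)) :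
    TT u (fun i => X.mulVec (u i)) = (1 / 2) * ∑ i : Fin (a+1), (-1 : ℝ) ^ (i : ℕ) *
      (Delta X (fun j => u (i.succAbove j)) * I0 (gram (fun j => u (i.succAbove j)))) := by
  unfold TT
  simp only [skew_key u X hX]
  have h1 : ∀ i : Fin (a+1), ∑ l, gram u i l * J1 (gram u) l =
      -(1/2) * I0 (gram (fun j => u (i.succAbove j))) := by
    intro i
    have h2 := ibp0 (gram u) (gram_symm u) hn i
    have h3 : (gram u).submatrix i.succAbove i.succAbove = gram (fun j => u (i.succAbove j)) := rfl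
    rw [h3] at h2
    linarith
  simp only [neg_mul, Finset.sum_mul, Finset.sum_neg_distrib]
  rw [Finset.sum_comm, Finset.mul_sum, ← Finset.sum_neg_distrib]
  refine Finset.sum_congr rfl (fun i _ => ?_)
  have h4 : ∑ l, (-1 : ℝ) ^ (i : ℕ) * Delta X (fun j => u (i.succAbove j)) * lor (u i) (u l) *
      J1 (gram u) l = (-1 : ℝ) ^ (i : ℕ) * Delta X (fun j => u (i.succAbove j)) *
        ∑ l, gram u i l * J1 (gram u) l := by
    rw [Finset.mul_sum]
    refine Finset.sum_congr rfl (fun l _ => ?_)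
    unfold gram; ring
  rw [h4, h1]
  ring

end Pool.Agent.W31.Bel
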