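import Mathlib
import Pool.Agent.W576.Defs
import Pool.Agent.W576.Defs2
import Pool.Agent.W31.BelCoc

/-!
# Invariances of the signed volume
-/

namespace Pool.Agent.W31.Bel

open MeasureTheory Pool.Agent.W576 Filter Topology Set

lemma I0_scale {ι : Type*} [Fintype ι] [DecidableEq ι] (G : Matrix ι ι ℝ) (a : ι → ℝ)
    (ha : ∀ i, 0 < a i) :
    I0 (fun i j => a i * a j * G i j) = (∏ i, a i)⁻¹ * I0 G := by
  set f : (ι → ℝ) →ₗ[ℝ] (ι → ℝ) := (Matrix.diagonal a).toLin' with hf
  have hdet : LinearMap.det f = ∏ i, a i := by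
    rw [hf, LinearMap.det_toLin', Matrix.det_diagonal]
  have hpos : 0 < ∏ i, a i := Finset.prod_pos (fun i _ => ha i)
  have hmap := Real.map_linearMap_volume_pi_eq_smul_volume_pi (f := f) (by rw [hdet]; exact hpos.ne')
  rw [hdet, abs_of_pos (inv_pos.2 hpos)] at hmap
  have hfa : ∀ s : ι → ℝ, f s = fun i => a i * s i := by
    intro s
    rw [hf, Matrix.toLin'_apply]
    funext i
    rw [Matrix.mulVec_diagonal]
  have hfc : Continuous f := by
    have : (f : (ι → ℝ) → (ι → ℝ)) = fun s i => a i * s i := funext hfa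
    rw [this]; fun_prop
  have h1 : ∫ s in orth ι, Real.exp (qf G s) ∂(Measure.map f volume) =
      ∫ s in f ⁻¹' (orth ι), Real.exp (qf G (f s)) :=
    setIntegral_map measurableSet_orth
      (Real.continuous_exp.comp (continuous_qf G)).aestronglyMeasurable
      hfc.measurable.aemeasurable
  have hpre : f ⁻¹' (orth ι) = orth ι := by
    ext s
    simp only [mem_preimage, orth, mem_ofPred_eq, hfa]
    refine forall_congr' (fun i => ?_)
    constructor
    · intro h
      exact (pos_iff_pos_of_mul_pos h).1 (ha i)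
    · intro h
      exact mul_pos (ha i) h
  rw [hmap, hpre, Measure.restrict_smul, integral_smul_measure,
    ENNReal.toReal_ofReal (inv_pos.2 hpos).le] at h1
  unfold I0
  rw [smul_eq_mul] at h1
  rw [h1]
  refine integral_congr_ae (Eventually.of_forall fun s => ?_)
  simp only [hfa, qf]
  congr 1
  refine Finset.sum_congr rfl (fun i _ => Finset.sum_congr rfl (fun j _ => ?_))
  ring

theorem SV_smul {d : ℕ} (v : Fin d → Fin d → ℝ) (a : Fin d → ℝ) (ha : ∀ i, 0 < a i) :
    SV (fun i => a i • v i) = SV v := by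
  unfold SV
  have h1 : (Matrix.of (fun i => a i • v i)).det = (∏ i, a i) * (Matrix.of v).det := by
    have h0 : Matrix.of (fun i => a i • v i) = Matrix.diagonal a * Matrix.of v := by
      ext i j
      simp [Matrix.diagonal_mul]
    rw [h0, Matrix.det_mul, Matrix.det_diagonal]
  have h2 : gram (fun i => a i • v i) = fun i j => a i * a j * gram v i j := by
    funext i j
    unfold gram
    rw [lor_smul_left, lor_smul_right]; ring
  rw [h1, h2, I0_scale _ a ha]
  have hpos : 0 < ∏ i, a i := Finset.prod_pos (fun i _ => ha i)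
  field_simp

lemma det_mulVec_rows {R : Type*} [CommRing R] {n : ℕ} (g : Matrix (Fin n) (Fin n) R)
    (hg : g.det = 1) (v : Fin n → Fin n → R) :
    (Matrix.of (fun i => g.mulVec (v i))).det = (Matrix.of v).det := by
  have h1 : Matrix.of (fun i => g.mulVec (v i)) = Matrix.of v * g.transpose := by
    ext i j
    simp [Matrix.mul_apply, Matrix.mulVec, dotProduct, mul_comm]
  rw [h1, Matrix.det_mul, Matrix.det_transpose, hg, mul_one]

lemma gram_SO {R : Type*} [CommRing R] {ι : Type*} {d : ℕ} (g : Matrix (Fin d) (Fin d) R)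
    (hg : IsSO g) (v : ι → Fin d → R) : gram (fun i => g.mulVec (v i)) = gram v := by
  funext i j
  exact hg.1 _ _

theorem SV_SO {d : ℕ} (g : Matrix (Fin d) (Fin d) ℝ) (hg : IsSO g) (v : Fin d → Fin d → ℝ) :
    SV (fun i => g.mulVec (v i)) = SV v := by
  unfold SV
  rw [det_mulVec_rows g hg.2, gram_SO g hg]

theorem TT_SO {a : ℕ} (g : Matrix (Fin (a+1)) (Fin (a+1)) ℝ) (hg : IsSO g)
    (u w : Fin a → Fin (a+1) → ℝ) :
    TT (fun i => g.mulVec (u i)) (fun i => g.mulVec (w i)) = TT u w := by
  unfold TT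
  rw [gram_SO g hg]
  refine Finset.sum_congr rfl (fun i _ => ?_)
  rw [← det_mulVec_rows g hg.2 (Fin.cons (w i) u)]
  congr 3
  ext j k
  refine Fin.cases ?_ (fun j => ?_) j
  · simp
  · simp

theorem Delta_dep {a : ℕ} (X : Matrix (Fin (a+2)) (Fin (a+2)) ℝ) (f : Fin a → Fin (a+2) → ℝ)
    (hf : ¬ LinearIndependent ℝ f) : Delta X f = 0 := by
  unfold Delta
  have h : ∀ c, (Matrix.of (Fin.cons (Pi.single c 1)
    (Fin.cons (X.mulVec (Pi.single c 1)) f) : Fin (a + 2) → Fin (a + 2) → ℝ)).det = 0 := by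
    intro c
    by_contra hne
    apply hf
    have h1 := Matrix.linearIndependent_rows_of_det_ne_zero hne
    have h2 := h1.comp (fun i : Fin a => i.succ.succ) (fun i j hij => by simpa using hij)
    exact h2
  simp only [h, mul_zero, Finset.sum_const_zero]

end Pool.Agent.W31.Bel
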