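import Mathlib
import Pool.Agent.W576.Defs
import Pool.Agent.W576.Defs2
import Pool.Agent.W576.Defs3
import Pool.Agent.W31.BelInv
import Pool.Agent.W867.Witt
import Pool.Agent.W365.DeltaFrame

/-!
# The signed volume is constant along arcs of configurations
-/

namespace Pool.Agent.W31.Bel

open MeasureTheory Pool.Agent.W576 Filter Topology Set

lemma fut_e0 {d : ℕ} : Fut (Pi.single 0 1 : Fin (d+1) → ℝ) := by
  refine ⟨by simp, ?_⟩
  rw [lor_succ]
  simp

lemma rng_cons_perm {n m : ℕ} (k : Fin (n+1)) (q : Fin m) (τ : Fin n → Fin m) :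
    rng (k.insertNth q τ : Fin (n+1) → Fin m) = rng (Fin.cons q τ : Fin (n+1) → Fin m) := by
  rw [← Fin.cons_comp_cycleRange]
  unfold rng
  ext j
  simp only [Finset.mem_image, Finset.mem_univ, true_and, Function.comp_apply]
  constructor
  · rintro ⟨i, hi⟩; exact ⟨_, hi⟩
  · rintro ⟨i, hi⟩; exact ⟨k.cycleRange.symm i, by simpa using hi⟩

lemma c_insertNth {n m : ℕ} (c : (Fin (n+1) → Fin m) → ℤ)
    (hcalt : ∀ (σ : Fin (n+1) → Fin m) (π : Equiv.Perm (Fin (n+1))),
      c (σ ∘ π) = ((Equiv.Perm.sign π : ℤˣ) : ℤ) * c σ)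
    (k : Fin (n+1)) (q : Fin m) (τ : Fin n → Fin m) :
    c (k.insertNth q τ : Fin (n+1) → Fin m) = (-1)^(k:ℕ) * c (Fin.cons q τ) := by
  rw [← Fin.cons_comp_cycleRange, hcalt, Fin.sign_cycleRange]
  simp

/-- regrouping of the faces of the simplices of an alternating chain -/
lemma regroup {n m : ℕ} (c : (Fin (n+1) → Fin m) → ℤ)
    (hcalt : ∀ (σ : Fin (n+1) → Fin m) (π : Equiv.Perm (Fin (n+1))),
      c (σ ∘ π) = ((Equiv.Perm.sign π : ℤˣ) : ℤ) * c σ)
    (Φ : Finset (Fin m) → (Fin n → Fin m) → ℝ) :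
    ∑ σ : Fin (n+1) → Fin m, (c σ : ℝ) * ∑ k : Fin (n+1), (-1 : ℝ)^(k:ℕ) *
      Φ (rng σ) (fun i => σ (k.succAbove i)) =
    ((n:ℝ)+1) * ∑ τ : Fin n → Fin m, ∑ q : Fin m, (c (Fin.cons q τ) : ℝ) *
      Φ (rng (Fin.cons q τ : Fin (n+1) → Fin m)) τ := by
  simp only [Finset.mul_sum]
  rw [Finset.sum_comm]
  have h1 : ∀ k : Fin (n+1), ∑ σ : Fin (n+1) → Fin m, (c σ : ℝ) * ((-1 : ℝ)^(k:ℕ) *
      Φ (rng σ) (fun i => σ (k.succAbove i))) =
      ∑ τ : Fin n → Fin m, ∑ q : Fin m, (c (Fin.cons q τ) : ℝ) *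
      Φ (rng (Fin.cons q τ : Fin (n+1) → Fin m)) τ := by
    intro k
    rw [← (Fin.insertNthEquiv (fun _ => Fin m) k).sum_comp, Fintype.sum_prod_type,
      Finset.sum_comm]
    refine Finset.sum_congr rfl (fun τ _ => Finset.sum_congr rfl (fun q _ => ?_))
    have e1 : (Fin.insertNthEquiv (fun _ => Fin m) k) (q, τ) =
      (k.insertNth q τ : Fin (n+1) → Fin m) := rfl
    rw [e1, rng_cons_perm, c_insertNth c hcalt]
    have e2 : (fun i => (k.insertNth q τ : Fin (n+1) → Fin m) (k.succAbove i)) = τ := by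
      funext i; simp
    rw [e2]
    push_cast
    have e3 : ((-1:ℝ)^(k:ℕ)) * (-1:ℝ)^(k:ℕ) = 1 := by
      rw [← mul_pow]; simp
    linear_combination (c (Fin.cons q τ) : ℝ) *
      Φ (rng (Fin.cons q τ : Fin (n+1) → Fin m)) τ * e3
  simp only [h1]
  rw [Finset.sum_const, Finset.card_univ, Fintype.card_fin, nsmul_eq_mul]
  push_cast
  simp only [Finset.mul_sum]

lemma hasDerivAt_mulVec {n : ℕ} (g : ℝ → Matrix (Fin n) (Fin n) ℝ) (g' : Matrix (Fin n) (Fin n) ℝ)
    (t : ℝ) (hg : ∀ i j, HasDerivAt (fun t => g t i j) (g' i j) t) (y : Fin n → ℝ) (i : Fin n) :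
    HasDerivAt (fun t => (g t).mulVec y i) (g'.mulVec y i) t := by
  simp only [Matrix.mulVec, dotProduct]
  exact HasDerivAt.fun_sum (fun j _ => (hg i j).mul_const _)

lemma hasDerivAt_lor {n : ℕ} (x y : ℝ → Fin n → ℝ) (x' y' : Fin n → ℝ) (t : ℝ)
    (hx : ∀ i, HasDerivAt (fun t => x t i) (x' i) t)
    (hy : ∀ i, HasDerivAt (fun t => y t i) (y' i) t) :
    HasDerivAt (fun t => lor (x t) (y t)) (lor x' (y t) + lor (x t) y') t := by
  unfold lor
  rw [← Finset.sum_add_distrib]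
  refine HasDerivAt.fun_sum (fun k _ => ?_)
  exact (((hx k).fun_mul (hy k)).const_mul (eta k : ℝ)).congr_deriv (by ring)

/-- functions that agree on `[0,1]` have the same derivative at inner points -/
lemma deriv_eq_of_eq {f₁ f₂ : ℝ → ℝ} {a b t : ℝ} (ht : t ∈ Ioo (0:ℝ) 1)
    (h : ∀ s ∈ Icc (0:ℝ) 1, f₁ s = f₂ s) (h₁ : HasDerivAt f₁ a t) (h₂ : HasDerivAt f₂ b t) :
    a = b := by
  have hev : f₁ =ᶠ[𝓝 t] f₂ := by
    filter_upwards [Ioo_mem_nhds ht.1 ht.2] with s hs
    exact h s ⟨hs.1.le, hs.2.le⟩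
  exact (h₁.congr_of_eventuallyEq hev.symm).unique h₂

theorem vol_arc_const
    (arc_sum_zero : ∀ {r m : ℕ} (_ : 1 ≤ r)
      (v : Fin m → Fin (r+3) → ℝ) (_ : ∀ j, Fut (v j)) (c : (Fin (r+2) → Fin m) → ℤ)
      (_ : ∀ (σ : Fin (r+2) → Fin m) (π : Equiv.Perm (Fin (r+2))),
        c (σ ∘ π) = ((Equiv.Perm.sign π : ℤˣ) : ℤ) * c σ)
      (_ : ∀ τ : Fin (r+1) → Fin m, ∑ q, c (Fin.cons q τ) = 0)
      (T : Finset (Fin (r+1) → Fin m))
      (h : (Fin (r+1) → Fin m) → Matrix (Fin (r+3)) (Fin (r+3)) ℝ)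
      (x : (Fin (r+1) → Fin m) → Fin (r+1) → Fin (r+1) → ℝ)
      (ref : (Fin (r+1) → Fin m) → Finset (Fin m)) (_ : FaceData v c T h x ref)
      (g g' : ℝ → Finset (Fin m) → Matrix (Fin (r+3)) (Fin (r+3)) ℝ)
      (_ : ∀ t ∈ Set.Icc (0:ℝ) 1, IsConf (RingHom.id ℝ) v c (g t))
      (_ : ∀ t ∈ Set.Icc (0:ℝ) 1, ∀ s i j, HasDerivAt (fun t => g t s i j) (g' t s i j) t)
      (t : ℝ) (_ : t ∈ Set.Ioo (0:ℝ) 1),
      ∑ τ ∈ T, I0 (gram fun i => v (τ i)) * (Matrix.of (x τ)).det *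
        (∑ q, (c (Fin.cons q τ) : ℝ) *
          lor ((g' t (rng (Fin.cons q τ : Fin (r+2) → Fin m))).mulVec
              ((h τ).mulVec (Pi.single (ia r) 1)))
            ((g t (rng (Fin.cons q τ : Fin (r+2) → Fin m))).mulVec
              ((h τ).mulVec (Pi.single (ib r) 1)))) = 0)
    {r m : ℕ} (hr : 1 ≤ r)
    (v : Fin m → Fin (r+3) → ℝ) (hv : ∀ j, Fut (v j)) (c : (Fin (r+2) → Fin m) → ℤ)
    (hcalt : ∀ (σ : Fin (r+2) → Fin m) (π : Equiv.Perm (Fin (r+2))),
      c (σ ∘ π) = ((Equiv.Perm.sign π : ℤˣ) : ℤ) * c σ)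
    (hccyc : ∀ τ : Fin (r+1) → Fin m, ∑ q, c (Fin.cons q τ) = 0)
    (g g' : ℝ → Finset (Fin m) → Matrix (Fin (r+3)) (Fin (r+3)) ℝ)
    (hg : ∀ t ∈ Set.Icc (0:ℝ) 1, IsConf (RingHom.id ℝ) v c (g t))
    (hpos : ∀ t ∈ Set.Icc (0:ℝ) 1, ∀ s, 0 < g t s 0 0)
    (hg' : ∀ t ∈ Set.Icc (0:ℝ) 1, ∀ s i j, HasDerivAt (fun t => g t s i j) (g' t s i j) t) :
    ∑ σ : Fin (r+2) → Fin m, (c σ : ℝ) *
      SV (Fin.cons (Pi.single 0 1) (fun i => (g 0 (rng σ)).mulVec (v (σ i))) :
        Fin (r+3) → Fin (r+3) → ℝ)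
    = ∑ σ : Fin (r+2) → Fin m, (c σ : ℝ) *
      SV (Fin.cons (Pi.single 0 1) (fun i => (g 1 (rng σ)).mulVec (v (σ i))) :
        Fin (r+3) → Fin (r+3) → ℝ) := by
  classical
  -- vertex positions and velocities
  set V : ℝ → (Fin (r+2) → Fin m) → Fin (r+2) → Fin (r+3) → ℝ :=
    fun t σ i => (g t (rng σ)).mulVec (v (σ i)) with hV
  set V' : ℝ → (Fin (r+2) → Fin m) → Fin (r+2) → Fin (r+3) → ℝ :=
    fun t σ i => (g' t (rng σ)).mulVec (v (σ i)) with hV'
  have hsupp : ∀ σ : Fin (r+2) → Fin m, c σ ≠ 0 → rng σ ∈ supp c := fun σ hσ => ⟨σ, hσ, rfl⟩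
  have hfut : ∀ t ∈ Set.Icc (0:ℝ) 1, ∀ σ, c σ ≠ 0 → ∀ i, Fut (V t σ i) := by
    intro t ht σ hσ i
    exact Pool.Agent.W867.fut_mulVec _ ((hg t ht).so _ (hsupp σ hσ)) (hpos t ht _) _ (hv _)
  set F : ℝ → ℝ := fun t => ∑ σ : Fin (r+2) → Fin m, (c σ : ℝ) *
    SV (Fin.cons (Pi.single 0 1) (V t σ) : Fin (r+3) → Fin (r+3) → ℝ) with hF
  -- the derivative
  set D : ℝ → (Fin (r+2) → Fin m) → ℝ := fun t σ =>
    -∑ j : Fin (r+3), (-1 : ℝ) ^ (j : ℕ) *
        TT (fun i => (Fin.cons (Pi.single 0 1) (V t σ) : Fin (r+3) → Fin (r+3) → ℝ) (j.succAbove i))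
          (fun i => (Fin.cons 0 (V' t σ) : Fin (r+3) → Fin (r+3) → ℝ) (j.succAbove i)) with hD
  have hder : ∀ t ∈ Set.Icc (0:ℝ) 1, HasDerivAt F (∑ σ : Fin (r+2) → Fin m, (c σ : ℝ) * D t σ) t := by
    intro t ht
    refine HasDerivAt.fun_sum (fun σ _ => ?_)
    by_cases hσ : c σ = 0
    · simp only [hσ, Int.cast_zero, zero_mul]
      exact hasDerivAt_const t 0
    · refine HasDerivAt.const_mul _ ?_
      refine hasDerivAt_SV (fun s => (Fin.cons (Pi.single 0 1) (V s σ) : Fin (r+3) → Fin (r+3) → ℝ))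
        (Fin.cons 0 (V' t σ)) t ?_ ?_
      · intro i j
        refine Fin.cases ?_ (fun i => ?_) i
        · simp only [Fin.cons_zero]
          exact hasDerivAt_const t _
        · simp only [Fin.cons_succ]
          exact hasDerivAt_mulVec (fun t => g t (rng σ)) (g' t (rng σ)) t (hg' t ht (rng σ)) _ j
      · have hall : ∀ i, Fut ((Fin.cons (Pi.single 0 1) (V t σ) :
            Fin (r+3) → Fin (r+3) → ℝ) i) := by
          intro i
          refine Fin.cases ?_ (fun i => ?_) i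
          · exact fut_e0
          · exact hfut t ht σ hσ i
        intro i j
        exact lor_neg_of_fut (hall i) (hall j)
  -- vanishing at inner points
  have hzero : ∀ t ∈ Set.Ioo (0:ℝ) 1, ∑ σ : Fin (r+2) → Fin m, (c σ : ℝ) * D t σ = 0 := by
    intro t ht
    have ht' : t ∈ Set.Icc (0:ℝ) 1 := ⟨ht.1.le, ht.2.le⟩
    -- splitting of D
    have hsplit : ∀ σ, D t σ = -(TT (V t σ) (V' t σ)) + ∑ k : Fin (r+2), (-1:ℝ)^(k:ℕ) *
        TT (Fin.cons (Pi.single 0 1) (fun i => V t σ (k.succAbove i)) :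
            Fin (r+2) → Fin (r+3) → ℝ)
          (Fin.cons 0 (fun i => V' t σ (k.succAbove i)) : Fin (r+2) → Fin (r+3) → ℝ) := by
      intro σ
      simp only [hD]
      rw [Fin.sum_univ_succ, neg_add, ← Finset.sum_neg_distrib]
      congr 1
      · simp
      · refine Finset.sum_congr rfl (fun k _ => ?_)
        have e1 : (fun i => (Fin.cons (Pi.single 0 1) (V t σ) : Fin (r+3) → Fin (r+3) → ℝ)
            (k.succ.succAbove i)) = (Fin.cons (Pi.single 0 1)
            (fun i => V t σ (k.succAbove i)) : Fin (r+2) → Fin (r+3) → ℝ) := by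
          funext i
          refine Fin.cases ?_ (fun i => ?_) i
          · simp
          · simp
        have e2 : (fun i => (Fin.cons 0 (V' t σ) : Fin (r+3) → Fin (r+3) → ℝ)
            (k.succ.succAbove i)) = (Fin.cons 0
            (fun i => V' t σ (k.succAbove i)) : Fin (r+2) → Fin (r+3) → ℝ) := by
          funext i
          refine Fin.cases ?_ (fun i => ?_) i
          · simp
          · simp
        rw [e1, e2, Fin.val_succ, pow_succ]
        ring
    -- positions depend only on the vertex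
    have hincV : ∃ VV VV' : Fin m → Fin (r+3) → ℝ, ∀ σ, c σ ≠ 0 → ∀ i,
        V t σ i = VV (σ i) ∧ V' t σ i = VV' (σ i) := by
      refine ⟨fun j => if h : ∃ s, s ∈ supp c ∧ j ∈ s then (g t h.choose).mulVec (v j) else 0,
        fun j => if h : ∃ s, s ∈ supp c ∧ j ∈ s then (g' t h.choose).mulVec (v j) else 0, ?_⟩
      intro σ hσ i
      have hmem : σ i ∈ rng σ := by
        unfold rng; exact Finset.mem_image_of_mem _ (Finset.mem_univ i)
      have hex : ∃ s, s ∈ supp c ∧ σ i ∈ s := ⟨rng σ, hsupp σ hσ, hmem⟩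
      simp only [dif_pos hex]
      have hinc : ∀ s ∈ Set.Icc (0:ℝ) 1, (g s (rng σ)).mulVec (v (σ i)) =
          (g s hex.choose).mulVec (v (σ i)) := by
        intro s hs
        exact (hg s hs).inc (rng σ) (hsupp σ hσ) hex.choose hex.choose_spec.1 (σ i) hmem
          hex.choose_spec.2
      refine ⟨hinc t ht', ?_⟩
      funext k
      exact deriv_eq_of_eq ht (fun s hs => congrFun (hinc s hs) k)
        (hasDerivAt_mulVec (fun t => g t (rng σ)) (g' t (rng σ)) t (hg' t ht' (rng σ)) (v (σ i)) k)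
        (hasDerivAt_mulVec (fun t => g t hex.choose) (g' t hex.choose) t
          (hg' t ht' hex.choose) (v (σ i)) k)
    obtain ⟨VV, VV', hVV⟩ := hincV
    -- part A
    have hA : ∑ σ : Fin (r+2) → Fin m, (c σ : ℝ) * ∑ k : Fin (r+2), (-1:ℝ)^(k:ℕ) *
        TT (Fin.cons (Pi.single 0 1) (fun i => V t σ (k.succAbove i)) :
            Fin (r+2) → Fin (r+3) → ℝ)
          (Fin.cons 0 (fun i => V' t σ (k.succAbove i)) : Fin (r+2) → Fin (r+3) → ℝ) = 0 := by
      have h1 := regroup c hcalt (fun _ τ =>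
        TT (Fin.cons (Pi.single 0 1) (fun i => VV (τ i)) : Fin (r+2) → Fin (r+3) → ℝ)
          (Fin.cons 0 (fun i => VV' (τ i)) : Fin (r+2) → Fin (r+3) → ℝ))
      have h2 : ∀ τ : Fin (r+1) → Fin m, ∑ q : Fin m, (c (Fin.cons q τ) : ℝ) *
        TT (Fin.cons (Pi.single 0 1) (fun i => VV (τ i)) : Fin (r+2) → Fin (r+3) → ℝ)
          (Fin.cons 0 (fun i => VV' (τ i)) : Fin (r+2) → Fin (r+3) → ℝ) = 0 := by
        intro τ
        rw [← Finset.sum_mul]
        have := hccyc τ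
        have h3 : ∑ q : Fin m, (c (Fin.cons q τ) : ℝ) = 0 := by exact_mod_cast this
        rw [h3, zero_mul]
      simp only [h2, Finset.sum_const_zero, mul_zero] at h1
      rw [← h1]
      refine Finset.sum_congr rfl (fun σ _ => ?_)
      by_cases hσ : c σ = 0
      · simp [hσ]
      · congr 1
        refine Finset.sum_congr rfl (fun k _ => ?_)
        congr 2
        · congr 1
          funext i
          exact (hVV σ hσ _).1
        · congr 1
          funext i
          exact (hVV σ hσ _).2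
    -- part B
    set X : Finset (Fin m) → Matrix (Fin (r+3)) (Fin (r+3)) ℝ := fun s => (g t s)⁻¹ * g' t s with hX
    have hgX : ∀ s ∈ supp c, ∀ y, (g t s).mulVec ((X s).mulVec y) = (g' t s).mulVec y := by
      intro s hs y
      have hdet : IsUnit (g t s).det := by
        rw [((hg t ht').so s hs).2]; exact isUnit_one
      simp only [hX]
      rw [Matrix.mulVec_mulVec, ← Matrix.mul_assoc, Matrix.mul_nonsing_inv _ hdet, Matrix.one_mul]
    have hskew0 : ∀ s ∈ supp c, ∀ y z, lor ((g' t s).mulVec y) ((g t s).mulVec z) =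
        - lor ((g t s).mulVec y) ((g' t s).mulVec z) := by
      intro s hs y z
      have h1 := hasDerivAt_lor (fun t => (g t s).mulVec y) (fun t => (g t s).mulVec z)
        ((g' t s).mulVec y) ((g' t s).mulVec z) t
        (fun i => hasDerivAt_mulVec (fun t => g t s) (g' t s) t (hg' t ht' s) y i)
        (fun i => hasDerivAt_mulVec (fun t => g t s) (g' t s) t (hg' t ht' s) z i)
      have h2 := deriv_eq_of_eq ht (fun u hu => ((hg u hu).so s hs).1 y z) h1
        (hasDerivAt_const t (lor y z))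
      linarith
    have hXskew : ∀ s ∈ supp c, ∀ y z, lor ((X s).mulVec y) z = - lor y ((X s).mulVec z) := by
      intro s hs y z
      have hso := ((hg t ht').so s hs).1
      rw [← hso ((X s).mulVec y) z, hgX s hs, hskew0 s hs, ← hgX s hs z, hso]
    have hB1 : ∀ σ, c σ ≠ 0 → TT (V t σ) (V' t σ) = (1/2) * ∑ k : Fin (r+2), (-1:ℝ)^(k:ℕ) *
        (Delta (X (rng σ)) (fun i => v (σ (k.succAbove i))) *
          I0 (gram (fun i => v (σ (k.succAbove i))))) := by
      intro σ hσ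
      have hs := hsupp σ hσ
      have h1 : TT (V t σ) (V' t σ) = TT (fun i => v (σ i)) (fun i => (X (rng σ)).mulVec (v (σ i))) := by
        rw [← TT_SO (g t (rng σ)) ((hg t ht').so _ hs) (fun i => v (σ i))]
        congr 1
        funext i
        exact (hgX _ hs _).symm
      rw [h1]
      exact TT_skew (fun i => v (σ i)) (fun i j => lor_neg_of_fut (hv _) (hv _)) _ (hXskew _ hs)
    have hB2 : ∑ σ : Fin (r+2) → Fin m, (c σ : ℝ) * TT (V t σ) (V' t σ) =
        (1/2) * (((r+1 : ℕ) : ℝ) + 1) * ∑ τ : Fin (r+1) → Fin m, ∑ q : Fin m,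
          (c (Fin.cons q τ) : ℝ) * (Delta (X (rng (Fin.cons q τ : Fin (r+2) → Fin m)))
            (fun i => v (τ i)) * I0 (gram (fun i => v (τ i)))) := by
      rw [mul_assoc, ← regroup c hcalt (fun s τ => Delta (X s) (fun i => v (τ i)) *
        I0 (gram (fun i => v (τ i)))), Finset.mul_sum]
      refine Finset.sum_congr rfl (fun σ _ => ?_)
      by_cases hσ : c σ = 0
      · simp [hσ]
      · rw [hB1 σ hσ]; ring
    -- face data
    set T : Finset (Fin (r+1) → Fin m) := Finset.univ.filter (fun τ =>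
      LinearIndependent ℝ (fun i => v (τ i)) ∧ ∃ s ∈ supp c, ∀ i, τ i ∈ s) with hT
    have hfr : ∀ τ : Fin (r+1) → Fin m, LinearIndependent ℝ (fun i => v (τ i)) →
        ∃ h : Matrix (Fin (r+3)) (Fin (r+3)) ℝ, ∃ x : Fin (r+1) → Fin (r+1) → ℝ,
          IsSO h ∧ (∀ i, v (τ i) = h.mulVec (pad (x i))) ∧ 0 < (Matrix.of x).det := by
      intro τ hτ
      obtain ⟨h, hh, _, x, hx1, hx2⟩ := Pool.Agent.W867.witt_pad_basis (b := r+1) (n := r+2)
        (by omega) (by omega) (fun i => v (τ i)) (fun i => hv _) hτ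
      exact ⟨h, x, hh, hx1, hx2⟩
    choose! h x hh hx hxdet using hfr
    set ref : (Fin (r+1) → Fin m) → Finset (Fin m) := fun τ =>
      if hh : ∃ s, s ∈ supp c ∧ ∀ i, τ i ∈ s then hh.choose else ∅ with href
    have hFD : FaceData v c T h x ref := by
      refine ⟨?_, ?_, ?_, ?_, ?_, ?_⟩
      · intro τ; simp [hT]
      · intro τ hτ
        rw [hT, Finset.mem_filter] at hτ
        exact hh τ hτ.2.1
      · intro τ hτ
        rw [hT, Finset.mem_filter] at hτ
        exact hx τ hτ.2.1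
      · intro τ hτ
        rw [hT, Finset.mem_filter] at hτ
        exact hxdet τ hτ.2.1
      · intro τ hτ
        rw [hT, Finset.mem_filter] at hτ
        have he : ∃ s, s ∈ supp c ∧ ∀ i, τ i ∈ s := hτ.2.2
        simp only [href, dif_pos he]
        exact he.choose_spec.1
      · intro τ hτ
        rw [hT, Finset.mem_filter] at hτ
        have he : ∃ s, s ∈ supp c ∧ ∀ i, τ i ∈ s := hτ.2.2
        simp only [href, dif_pos he]
        exact he.choose_spec.2
    have hB3 : ∑ τ : Fin (r+1) → Fin m, ∑ q : Fin m,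
          (c (Fin.cons q τ) : ℝ) * (Delta (X (rng (Fin.cons q τ : Fin (r+2) → Fin m)))
            (fun i => v (τ i)) * I0 (gram (fun i => v (τ i)))) = 0 := by
      rw [← arc_sum_zero hr v hv c hcalt hccyc T h x ref hFD g g' hg hg' t ht]
      rw [hT, Finset.sum_filter]
      refine Finset.sum_congr rfl (fun τ _ => ?_)
      split_ifs with hτ
      · rw [Finset.mul_sum]
        refine Finset.sum_congr rfl (fun q _ => ?_)
        by_cases hq : c (Fin.cons q τ) = 0
        · simp [hq]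
        · have hs : rng (Fin.cons q τ : Fin (r+2) → Fin m) ∈ supp c := hsupp _ hq
          have h1 : (fun i => v (τ i)) = fun i => (h τ).mulVec (pad (x τ i)) := by
            funext i; exact hx τ hτ.1 i
          have h2 := Pool.Agent.W365.DeltaFrame.Delta_frame (a := r+1) (by omega)
            (X (rng (Fin.cons q τ : Fin (r+2) → Fin m))) (h τ) (hXskew _ hs) (hh τ hτ.1) (x τ)
          rw [← h1] at h2
          rw [h2]
          have h3 : lor ((X (rng (Fin.cons q τ : Fin (r+2) → Fin m))).mulVec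
              ((h τ).mulVec (Pi.single (⟨r+1, by omega⟩ : Fin (r+3)) 1)))
              ((h τ).mulVec (Pi.single (⟨r+1+1, by omega⟩ : Fin (r+3)) 1)) =
            lor ((g' t (rng (Fin.cons q τ : Fin (r+2) → Fin m))).mulVec
              ((h τ).mulVec (Pi.single (ia r) 1)))
            ((g t (rng (Fin.cons q τ : Fin (r+2) → Fin m))).mulVec
              ((h τ).mulVec (Pi.single (ib r) 1))) := by
            rw [← hgX _ hs, ((hg t ht').so _ hs).1]
            rfl
          rw [h3]; ring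
      · refine Finset.sum_eq_zero (fun q _ => ?_)
        by_cases hq : c (Fin.cons q τ) = 0
        · simp [hq]
        · have hs : rng (Fin.cons q τ : Fin (r+2) → Fin m) ∈ supp c := hsupp _ hq
          have hli : ¬ LinearIndependent ℝ (fun i => v (τ i)) := by
            intro hli
            apply hτ
            refine ⟨hli, _, hs, fun i => ?_⟩
            unfold rng
            rw [Finset.mem_image]
            exact ⟨i.succ, Finset.mem_univ _, by simp⟩
          rw [Delta_dep _ _ hli]; ring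
    have hB : ∑ σ : Fin (r+2) → Fin m, (c σ : ℝ) * TT (V t σ) (V' t σ) = 0 := by
      rw [hB2, hB3, mul_zero]
    simp only [hsplit, mul_add, mul_neg, Finset.sum_add_distrib, Finset.sum_neg_distrib]
    rw [hB, hA]; simp
  -- conclusion
  have hcont : ContinuousOn F (Icc (0:ℝ) 1) := fun t ht =>
    (hder t ht).continuousAt.continuousWithinAt
  have hF01 : F 0 = F 1 := by
    obtain ⟨s, hs, hs2⟩ := exists_hasDerivAt_eq_slope F
      (fun t => ∑ σ : Fin (r+2) → Fin m, (c σ : ℝ) * D t σ) zero_lt_one hcont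
      (fun t ht => hder t ⟨ht.1.le, ht.2.le⟩)
    rw [hzero s hs] at hs2
    have : F 1 - F 0 = 0 := by simpa using hs2.symm
    linarith
  exact hF01

end Pool.Agent.W31.Bel
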