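import Mathlib
import Pool.Agent.W576.Defs
import Pool.Agent.W576.Defs2
import Pool.Agent.W576.Defs3
import Pool.Agent.W31.BelArc
import Pool.Agent.W867.Witt
import Pool.Agent.W973.CountableImage

/-!
# The general bellows theorem from the statement for arcs
-/

namespace Pool.Agent.W31.Bel

open MeasureTheory Pool.Agent.W576 Filter Topology Set

lemma continuous_SV {n : ℕ} (u : ℝ → Fin n → Fin n → ℝ) (hu : ∀ i j, Continuous (fun t => u t i j))
    (hneg : ∀ t i j, lor (u t i) (u t j) < 0) : Continuous (fun t => SV (u t)) := by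
  unfold SV
  refine Continuous.mul ?_ ?_
  · apply Continuous.matrix_det
    exact continuous_matrix (fun i j => hu i j)
  · rw [continuous_iff_continuousAt]
    intro t
    refine continuousAt_I0 (fun t => gram (u t)) t (fun i j => ?_) (fun i j => hneg t i j)
    apply Continuous.continuousAt
    unfold gram lor
    exact continuous_finsetSum _ (fun k _ => continuous_const.mul ((hu i k).mul (hu j k)))

lemma const_of_countable {V : ℝ → ℝ} (hV : Continuous V) {S : Set ℝ} (hS : S.Countable)
    (h : ∀ t, V t ∈ S) (s t : ℝ) : V s = V t := by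
  by_contra hne
  wlog hlt : V s < V t generalizing s t
  · exact this t s (Ne.symm hne) (lt_of_le_of_ne (not_lt.1 hlt) (Ne.symm hne))
  have hd := hS.dense_compl ℝ
  obtain ⟨y, hy1, hy2⟩ := hd.exists_between hlt
  apply hy1
  obtain ⟨u, hu⟩ := mem_range_of_exists_le_of_exists_ge hV ⟨s, hy2.1.le⟩ ⟨t, hy2.2.le⟩
  rw [← hu]
  exact h u

/-- variables: entries of the matrices -/
abbrev EI (r m : ℕ) := Finset (Fin m) × Fin (r+3) × Fin (r+3)

/-- decoding -/
def dec {R : Type*} {r m : ℕ} (z : EI r m → R) : Finset (Fin m) → Matrix (Fin (r+3)) (Fin (r+3)) R :=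
  fun s => Matrix.of fun i j => z (s, i, j)

lemma map_lor {R S : Type*} [CommRing R] [CommRing S] (φ : R →+* S) {d : ℕ} (x y : Fin d → R) :
    φ (lor x y) = lor (fun i => φ (x i)) (fun i => φ (y i)) := by
  unfold lor
  rw [map_sum]
  refine Finset.sum_congr rfl (fun i _ => ?_)
  rw [map_mul, map_mul]
  congr 1
  unfold eta
  split_ifs <;> simp

lemma map_mulVec' {R S : Type*} [CommRing R] [CommRing S] (φ : R →+* S) {d : ℕ}
    (M : Matrix (Fin d) (Fin d) R) (x : Fin d → R) (i : Fin d) :
    φ (M.mulVec x i) = (M.map φ).mulVec (fun i => φ (x i)) i := by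
  simp only [Matrix.mulVec, dotProduct, map_sum, map_mul, Matrix.map_apply]

theorem bellows_general
    (vol_arc_const : ∀ {r m : ℕ} (_ : 1 ≤ r)
      (v : Fin m → Fin (r+3) → ℝ) (_ : ∀ j, Fut (v j)) (c : (Fin (r+2) → Fin m) → ℤ)
      (_ : ∀ (σ : Fin (r+2) → Fin m) (π : Equiv.Perm (Fin (r+2))),
        c (σ ∘ π) = ((Equiv.Perm.sign π : ℤˣ) : ℤ) * c σ)
      (_ : ∀ τ : Fin (r+1) → Fin m, ∑ q, c (Fin.cons q τ) = 0)
      (g g' : ℝ → Finset (Fin m) → Matrix (Fin (r+3)) (Fin (r+3)) ℝ)
      (_ : ∀ t ∈ Set.Icc (0:ℝ) 1, IsConf (RingHom.id ℝ) v c (g t))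
      (_ : ∀ t ∈ Set.Icc (0:ℝ) 1, ∀ s, 0 < g t s 0 0)
      (_ : ∀ t ∈ Set.Icc (0:ℝ) 1, ∀ s i j, HasDerivAt (fun t => g t s i j) (g' t s i j) t),
      ∑ σ : Fin (r+2) → Fin m, (c σ : ℝ) *
        SV (Fin.cons (Pi.single 0 1) (fun i => (g 0 (rng σ)).mulVec (v (σ i))) :
          Fin (r+3) → Fin (r+3) → ℝ)
      = ∑ σ : Fin (r+2) → Fin m, (c σ : ℝ) *
        SV (Fin.cons (Pi.single 0 1) (fun i => (g 1 (rng σ)).mulVec (v (σ i))) :
          Fin (r+3) → Fin (r+3) → ℝ))
    {r m : ℕ} (hr : 1 ≤ r) (c : (Fin (r+2) → Fin m) → ℤ)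
    (hcalt : ∀ (σ : Fin (r+2) → Fin m) (π : Equiv.Perm (Fin (r+2))),
      c (σ ∘ π) = ((Equiv.Perm.sign π : ℤˣ) : ℤ) * c σ)
    (hccyc : ∀ τ : Fin (r+1) → Fin m, ∑ q, c (Fin.cons q τ) = 0)
    (y : ℝ → Fin m → Fin (r+3) → ℝ) (hy : Continuous y) (hF : ∀ t j, Fut (y t j))
    (hG : ∀ σ, c σ ≠ 0 → ∀ i j s t, lor (y s (σ i)) (y s (σ j)) = lor (y t (σ i)) (y t (σ j)))
    (s t : ℝ) :
    ∑ σ : Fin (r+2) → Fin m, (c σ : ℝ) *
      SV (Fin.cons (Pi.single 0 1) (fun i => y s (σ i)) : Fin (r+3) → Fin (r+3) → ℝ)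
    = ∑ σ : Fin (r+2) → Fin m, (c σ : ℝ) *
      SV (Fin.cons (Pi.single 0 1) (fun i => y t (σ i)) : Fin (r+3) → Fin (r+3) → ℝ) := by
  classical
  set v : Fin m → Fin (r+3) → ℝ := y 0 with hv
  have hvF : ∀ j, Fut (v j) := fun j => hF 0 j
  -- the volume
  set Vol : ℝ → ℝ := fun t => ∑ σ : Fin (r+2) → Fin m, (c σ : ℝ) *
      SV (Fin.cons (Pi.single 0 1) (fun i => y t (σ i)) : Fin (r+3) → Fin (r+3) → ℝ) with hVol
  have hycont : ∀ j k, Continuous (fun t => y t j k) := by
    intro j k
    exact (continuous_apply k).comp ((continuous_apply j).comp hy)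
  have hVolc : Continuous Vol := by
    refine continuous_finsetSum _ (fun σ _ => continuous_const.mul ?_)
    have hall : ∀ t i, Fut ((Fin.cons (Pi.single 0 1) (fun i => y t (σ i)) :
        Fin (r+3) → Fin (r+3) → ℝ) i) := by
      intro t i
      refine Fin.cases ?_ (fun i => ?_) i
      · exact fut_e0
      · exact hF t _
    refine continuous_SV _ (fun i j => ?_) (fun t i j => lor_neg_of_fut (hall t i) (hall t j))
    refine Fin.cases ?_ (fun i => ?_) i
    · simp only [Fin.cons_zero]; exact continuous_const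
    · simp only [Fin.cons_succ]; exact hycont _ _
  -- the configuration variety
  set P : Set (MvPolynomial (EI r m) ℝ) :=
    {p | ∀ z, IsConf (RingHom.id ℝ) v c (dec z) → MvPolynomial.eval z p = 0} with hP
  have hPconf : ∀ z : EI r m → ℝ, (∀ p ∈ P, MvPolynomial.eval z p = 0) →
      IsConf (RingHom.id ℝ) v c (dec z) := by
    intro z hz
    set X : Finset (Fin m) → Matrix (Fin (r+3)) (Fin (r+3)) (MvPolynomial (EI r m) ℝ) :=
      dec (fun e => MvPolynomial.X e) with hX
    have hXmap : ∀ (z : EI r m → ℝ) s, (X s).map (MvPolynomial.eval z) = dec z s := by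
      intro z s
      ext i j
      simp [hX, dec]
    have hev : ∀ (z : EI r m → ℝ) s (x : Fin (r+3) → ℝ) i, MvPolynomial.eval z
        ((X s).mulVec (fun i => MvPolynomial.C (x i)) i) = (dec z s).mulVec x i := by
      intro z s x i
      rw [map_mulVec', hXmap]
      simp
    have hQ1 : ∀ s ∈ supp c, ∀ a b : Fin (r+3) → ℝ, ∀ z : EI r m → ℝ, MvPolynomial.eval z
        (lor ((X s).mulVec (fun i => MvPolynomial.C (a i)))
          ((X s).mulVec (fun i => MvPolynomial.C (b i))) - MvPolynomial.C (lor a b)) =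
        lor ((dec z s).mulVec a) ((dec z s).mulVec b) - lor a b := by
      intro s _ a b z
      rw [map_sub, map_lor, MvPolynomial.eval_C]
      simp only [hev]
    refine ⟨?_, ?_⟩
    · intro s hs
      refine ⟨fun a b => ?_, ?_⟩
      · have h1 := hz (lor ((X s).mulVec (fun i => MvPolynomial.C (a i)))
          ((X s).mulVec (fun i => MvPolynomial.C (b i))) - MvPolynomial.C (lor a b)) (by
            intro z' hz'
            rw [hQ1 s hs, (hz'.so s hs).1 a b, sub_self])
        rw [hQ1 s hs] at h1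
        linarith
      · have hQ2 : ∀ z : EI r m → ℝ, MvPolynomial.eval z ((X s).det - 1) =
            (dec z s).det - 1 := by
          intro z
          rw [map_sub, map_one, RingHom.map_det]
          congr 2
          exact hXmap z s
        have h1 := hz ((X s).det - 1) (by
            intro z' hz'
            rw [hQ2, (hz'.so s hs).2, sub_self])
        rw [hQ2] at h1
        linarith
    · intro s hs s' hs' j hj hj'
      funext k
      have hQ3 : ∀ z : EI r m → ℝ, MvPolynomial.eval z
          ((X s).mulVec (fun i => MvPolynomial.C (v j i)) k -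
            (X s').mulVec (fun i => MvPolynomial.C (v j i)) k) =
          (dec z s).mulVec (v j) k - (dec z s').mulVec (v j) k := by
        intro z
        rw [map_sub, hev, hev]
      have h1 := hz ((X s).mulVec (fun i => MvPolynomial.C (v j i)) k -
            (X s').mulVec (fun i => MvPolynomial.C (v j i)) k) (by
          intro z' hz'
          rw [hQ3]
          have := congrFun (hz'.inc s hs s' hs' j hj hj') k
          simp only [RingHom.id_apply] at this
          rw [this, sub_self])
      rw [hQ3] at h1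
      simp only [RingHom.id_apply]
      linarith
  set U : Set (EI r m → ℝ) := {z | ∀ s : Finset (Fin m), 0 < z (s, 0, 0)} with hU
  have hUo : IsOpen U := by
    have : U = ⋂ s : Finset (Fin m), {z : EI r m → ℝ | 0 < z (s, 0, 0)} := by
      ext z; simp [hU]
    rw [this]
    exact isOpen_iInter_of_finite (fun s => isOpen_lt continuous_const (continuous_apply _))
  set f : (EI r m → ℝ) → ℝ := fun z => ∑ σ : Fin (r+2) → Fin m, (c σ : ℝ) *
        SV (Fin.cons (Pi.single 0 1) (fun i => (dec z (rng σ)).mulVec (v (σ i))) :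
          Fin (r+3) → Fin (r+3) → ℝ) with hf
  have hcount := Pool.Agent.W973.countable_image P hUo f (by
    intro γ γ' h1 _ h3
    refine vol_arc_const hr v hvF c hcalt hccyc (fun t => dec (γ t)) (fun t => dec (γ' t))
      (fun t ht => hPconf _ (h3 t ht).2) (fun t ht s => (h3 t ht).1 s) ?_
    intro t ht s i j
    exact hasDerivAt_pi.1 (h1 t ht) (s, i, j))
  -- every time has a configuration
  have hconf : ∀ t : ℝ, Vol t ∈ f '' {x | x ∈ U ∧ ∀ p ∈ P, MvPolynomial.eval x p = 0} := by
    intro t
    have hw : ∀ s : Finset (Fin m), ∃ g : Matrix (Fin (r+3)) (Fin (r+3)) ℝ, 0 < g 0 0 ∧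
        (s ∈ supp c → IsSO g ∧ ∀ j ∈ s, g.mulVec (v j) = y t j) := by
      intro s
      by_cases hs : s ∈ supp c
      · obtain ⟨σ, hσ, hσs⟩ := hs
        have hcard : s.card ≤ r + 2 := by
          rw [← hσs]
          unfold rng
          calc (Finset.univ.image σ).card ≤ (Finset.univ : Finset (Fin (r+2))).card :=
                Finset.card_image_le
            _ = r + 2 := by simp
        have hne : s.Nonempty := by
          rw [← hσs]
          unfold rng
          exact ⟨σ 0, Finset.mem_image_of_mem _ (Finset.mem_univ _)⟩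
        have : Nonempty s := hne.to_subtype
        obtain ⟨g, hg1, hg2, hg3⟩ := Pool.Agent.W867.witt (n := r+2) (ι := s)
          (by rw [Fintype.card_coe]; omega) (fun j => v j) (fun j => y t j)
          (fun j => hvF _) (fun j => hF _ _) (by
            intro i j
            have hi : (i : Fin m) ∈ rng σ := by rw [hσs]; exact i.2
            have hj : (j : Fin m) ∈ rng σ := by rw [hσs]; exact j.2
            unfold rng at hi hj
            rw [Finset.mem_image] at hi hj
            obtain ⟨a, _, ha⟩ := hi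
            obtain ⟨b, _, hb⟩ := hj
            rw [← ha, ← hb]
            exact hG σ hσ a b 0 t)
        exact ⟨g, hg2, fun _ => ⟨hg1, fun j hj => hg3 ⟨j, hj⟩⟩⟩
      · exact ⟨1, by simp, fun h => absurd h hs⟩
    choose g hg1 hg2 using hw
    set z : EI r m → ℝ := fun e => g e.1 e.2.1 e.2.2 with hz
    have hdec : dec z = g := by
      funext s; ext i j; rfl
    have hzconf : IsConf (RingHom.id ℝ) v c (dec z) := by
      rw [hdec]
      refine ⟨fun s hs => (hg2 s hs).1, fun s hs s' hs' j hj hj' => ?_⟩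
      simp only [RingHom.id_apply]
      have e1 : (g s).mulVec (fun i => v j i) = y t j := (hg2 s hs).2 j hj
      have e2 : (g s').mulVec (fun i => v j i) = y t j := (hg2 s' hs').2 j hj'
      rw [e1, e2]
    refine ⟨z, ⟨fun s => hg1 s, fun p hp => hp z hzconf⟩, ?_⟩
    simp only [hf, hVol, hdec]
    refine Finset.sum_congr rfl (fun σ _ => ?_)
    by_cases hσ : c σ = 0
    · simp [hσ]
    · congr 3
      funext i
      refine (hg2 (rng σ) ⟨σ, hσ, rfl⟩).2 (σ i) ?_
      unfold rng
      exact Finset.mem_image_of_mem _ (Finset.mem_univ _)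
  exact const_of_countable hVolc hcount hconf s t

end Pool.Agent.W31.Bel
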