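import Mathlib
import Pool.Agent.W576.Defs
import Pool.Agent.W31.BelGen
import Pool.Agent.W409.Klein

/-!
# The frozen statement from the general bellows theorem
-/

namespace Pool.Agent.W31.Bel

open MeasureTheory Pool.Agent.W576 Filter Topology Set

lemma I0_submatrix {ι ι' : Type} [Fintype ι] [Fintype ι'] (e : ι' ≃ ι) (G : Matrix ι ι ℝ) :
    I0 (G.submatrix e e) = I0 G := by
  have mp := volume_measurePreserving_piCongrLeft (fun _ : ι => ℝ) e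
  set F := MeasurableEquiv.piCongrLeft (fun _ : ι => ℝ) e with hF
  have hFa : ∀ (s : ι' → ℝ) (i : ι'), F s (e i) = s i := by
    intro s i
    have := Equiv.piCongrLeft_apply_apply (fun _ : ι => ℝ) e s i
    exact this
  have hpre : F ⁻¹' (orth ι) = orth ι' := by
    ext s
    simp only [mem_preimage, orth, mem_ofPred_eq]
    constructor
    · intro h i
      rw [← hFa s i]; exact h (e i)
    · intro h i
      obtain ⟨i, rfl⟩ := e.surjective i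
      rw [hFa]; exact h i
  unfold I0
  have h1 := mp.setIntegral_preimage_emb F.measurableEmbedding (fun s => Real.exp (qf G s)) (orth ι)
  rw [hpre] at h1
  rw [← h1]
  refine integral_congr_ae (Eventually.of_forall fun s => ?_)
  simp only [qf, Matrix.submatrix_apply]
  congr 1
  rw [← e.sum_comp]
  refine Finset.sum_congr rfl (fun i _ => ?_)
  rw [← e.sum_comp]
  refine Finset.sum_congr rfl (fun j _ => ?_)
  rw [hFa, hFa]

/-- extension of a permutation by a fixed point `0` -/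
noncomputable def extP {n : ℕ} (π : Equiv.Perm (Fin n)) : Equiv.Perm (Fin (n+1)) :=
  Equiv.Perm.decomposeFin.symm (0, π)

lemma extP_zero {n : ℕ} (π : Equiv.Perm (Fin n)) : extP π 0 = 0 := by simp [extP]

lemma extP_succ {n : ℕ} (π : Equiv.Perm (Fin n)) (i : Fin n) : extP π i.succ = (π i).succ := by
  simp [extP]

lemma sign_extP {n : ℕ} (π : Equiv.Perm (Fin n)) : Equiv.Perm.sign (extP π) = Equiv.Perm.sign π := by
  simp [extP]

lemma cons_comp_perm {n : ℕ} {α : Type*} (q : α) (τ : Fin n → α) (π : Equiv.Perm (Fin n)) :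
    (Fin.cons q (τ ∘ π) : Fin (n+1) → α) = (Fin.cons q τ : Fin (n+1) → α) ∘ extP π := by
  funext i
  refine Fin.cases ?_ (fun i => ?_) i
  · simp [extP_zero]
  · simp [extP_succ]

lemma SV_perm {n : ℕ} (v : Fin n → Fin n → ℝ) (π : Equiv.Perm (Fin n)) :
    SV (v ∘ π) = ((Equiv.Perm.sign π : ℤˣ) : ℤ) * SV v := by
  unfold SV
  have h1 : (Matrix.of (v ∘ π)).det = ((Equiv.Perm.sign π : ℤˣ) : ℤ) * (Matrix.of v).det := by
    rw [← Matrix.det_permute]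
    rfl
  have h2 : gram (v ∘ π) = (gram v).submatrix π π := rfl
  rw [h1, h2, I0_submatrix, mul_assoc]

lemma exists_face_perm {n : ℕ} (ρ : Equiv.Perm (Fin (n+1))) (i : Fin (n+1)) :
    ∃ e : Equiv.Perm (Fin n), (∀ j, ρ (i.succAbove j) = (ρ i).succAbove (e j)) ∧
      ((Equiv.Perm.sign ρ : ℤˣ) : ℤ) = (-1)^(i:ℕ) * (-1)^(ρ i : ℕ) *
        ((Equiv.Perm.sign e : ℤˣ) : ℤ) := by
  set θ : Equiv.Perm (Fin (n+1)) := (ρ i).cycleRange * ρ * i.cycleRange⁻¹ with hθ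
  have hθ0 : θ 0 = 0 := by
    have h1 : (i.cycleRange⁻¹ : Equiv.Perm (Fin (n+1))) 0 = i := Fin.cycleRange_symm_zero i
    rw [hθ, Equiv.Perm.mul_apply, Equiv.Perm.mul_apply, h1, Fin.cycleRange_self]
  obtain ⟨e, he⟩ : ∃ e, θ = extP e := by
    refine ⟨(Equiv.Perm.decomposeFin θ).2, ?_⟩
    have h1 : (Equiv.Perm.decomposeFin θ).1 = 0 := by
      have h2 := Equiv.Perm.decomposeFin_symm_apply_zero (Equiv.Perm.decomposeFin θ).1
        (Equiv.Perm.decomposeFin θ).2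
      rw [Prod.mk.eta, Equiv.symm_apply_apply, hθ0] at h2
      exact h2.symm
    unfold extP
    rw [← h1, Prod.mk.eta, Equiv.symm_apply_apply]
  refine ⟨e, ?_, ?_⟩
  · intro j
    have h1 : θ j.succ = (e j).succ := by rw [he, extP_succ]
    have h2 : (i.cycleRange⁻¹ : Equiv.Perm (Fin (n+1))) j.succ = i.succAbove j :=
      Fin.cycleRange_symm_succ i j
    rw [hθ, Equiv.Perm.mul_apply, Equiv.Perm.mul_apply, h2] at h1
    have h3 : ρ (i.succAbove j) = (ρ i).cycleRange.symm (e j).succ := by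
      rw [← h1]; simp
    rw [h3, Fin.cycleRange_symm_succ]
  · have h1 := sign_extP e
    rw [← he, hθ, Equiv.Perm.sign_mul, Equiv.Perm.sign_mul, Equiv.Perm.sign_inv,
      Fin.sign_cycleRange, Fin.sign_cycleRange] at h1
    rw [← h1]
    push_cast
    have e1 : ((-1:ℤ)^(i:ℕ)) * (-1:ℤ)^(i:ℕ) = 1 := by rw [← mul_pow]; simp
    have e2 : ((-1:ℤ)^(ρ i:ℕ)) * (-1:ℤ)^(ρ i:ℕ) = 1 := by rw [← mul_pow]; simp
    linear_combination (-(((Equiv.Perm.sign ρ : ℤˣ) : ℤ)) * ((-1:ℤ)^(ρ i:ℕ)) * (-1:ℤ)^(ρ i:ℕ)) * e1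
      - (((Equiv.Perm.sign ρ : ℤˣ) : ℤ)) * e2

/-- coboundary of an alternating function is alternating -/
lemma delta_alt {n m : ℕ} (b : (Fin n → Fin m) → ℤ)
    (hb : ∀ (τ : Fin n → Fin m) (π : Equiv.Perm (Fin n)),
      b (τ ∘ π) = ((Equiv.Perm.sign π : ℤˣ) : ℤ) * b τ)
    (σ : Fin (n+1) → Fin m) (ρ : Equiv.Perm (Fin (n+1))) :
    ∑ i : Fin (n+1), (-1 : ℤ)^(i:ℕ) * b ((σ ∘ ρ) ∘ i.succAbove) =
      ((Equiv.Perm.sign ρ : ℤˣ) : ℤ) * ∑ i : Fin (n+1), (-1 : ℤ)^(i:ℕ) * b (σ ∘ i.succAbove) := by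
  rw [Finset.mul_sum, ← Equiv.sum_comp ρ (fun i : Fin (n+1) => ((Equiv.Perm.sign ρ : ℤˣ) : ℤ) *
    ((-1 : ℤ)^(i:ℕ) * b (σ ∘ i.succAbove)))]
  refine Finset.sum_congr rfl (fun i _ => ?_)
  obtain ⟨e, he1, he2⟩ := exists_face_perm ρ i
  have h1 : (σ ∘ ρ) ∘ i.succAbove = (σ ∘ (ρ i).succAbove) ∘ e := by
    funext j
    simp [he1]
  rw [h1, hb, he2]
  have e2 : ((-1:ℤ)^(ρ i:ℕ)) * (-1:ℤ)^(ρ i:ℕ) = 1 := by rw [← mul_pow]; simp
  linear_combination (-((-1:ℤ)^(i:ℕ)) * ((Equiv.Perm.sign e : ℤˣ) : ℤ) *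
    b (σ ∘ (ρ i).succAbove)) * e2

/-- antisymmetrisation -/
def altc {n m : ℕ} (c : (Fin n → Fin m) → ℤ) (σ : Fin n → Fin m) : ℤ :=
  ∑ π : Equiv.Perm (Fin n), ((Equiv.Perm.sign π : ℤˣ) : ℤ) * c (σ ∘ π)

lemma altc_alt {n m : ℕ} (c : (Fin n → Fin m) → ℤ) (σ : Fin n → Fin m)
    (ρ : Equiv.Perm (Fin n)) :
    altc c (σ ∘ ρ) = ((Equiv.Perm.sign ρ : ℤˣ) : ℤ) * altc c σ := by
  unfold altc
  rw [Finset.mul_sum, ← Equiv.sum_comp (Equiv.mulLeft ρ) (fun π => ((Equiv.Perm.sign ρ : ℤˣ) : ℤ) *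
    (((Equiv.Perm.sign π : ℤˣ) : ℤ) * c (σ ∘ π)))]
  refine Finset.sum_congr rfl (fun π _ => ?_)
  simp only [Equiv.coe_mulLeft, Equiv.Perm.sign_mul, Equiv.Perm.coe_mul]
  push_cast
  have h1 : (((Equiv.Perm.sign ρ : ℤˣ) : ℤ)) * (((Equiv.Perm.sign ρ : ℤˣ) : ℤ)) = 1 := by
    rw [← Units.val_mul, Int.units_mul_self]; rfl
  rw [Function.comp_assoc]
  linear_combination (-(((Equiv.Perm.sign π : ℤˣ) : ℤ)) * c (σ ∘ ρ ∘ π)) * h1

lemma altc_pair {n m : ℕ} {R : Type*} [CommRing R] (c : (Fin n → Fin m) → ℤ)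
    (S : (Fin n → Fin m) → R)
    (hS : ∀ (σ : Fin n → Fin m) (π : Equiv.Perm (Fin n)),
      S (σ ∘ π) = (((Equiv.Perm.sign π : ℤˣ) : ℤ) : R) * S σ) :
    ∑ σ : Fin n → Fin m, (altc c σ : R) * S σ = (n.factorial : R) * ∑ σ, (c σ : R) * S σ := by
  unfold altc
  push_cast
  simp only [Finset.sum_mul]
  rw [Finset.sum_comm]
  have h1 : ∀ π : Equiv.Perm (Fin n), ∑ σ : Fin n → Fin m,
      (((Equiv.Perm.sign π : ℤˣ) : ℤ) : R) * (c (σ ∘ π) : R) * S σ = ∑ σ, (c σ : R) * S σ := by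
    intro π
    rw [← (Equiv.arrowCongr π (Equiv.refl (Fin m))).sum_comp (fun σ =>
      (((Equiv.Perm.sign π : ℤˣ) : ℤ) : R) * (c (σ ∘ π) : R) * S σ)]
    refine Finset.sum_congr rfl (fun σ _ => ?_)
    have e1 : (Equiv.arrowCongr π (Equiv.refl (Fin m))) σ = σ ∘ π.symm := by
      funext i; simp [Equiv.arrowCongr]
    rw [e1]
    have e2 : (σ ∘ π.symm) ∘ π = σ := by
      funext i; simp
    rw [e2]
    have e3 := hS σ π⁻¹
    have e4 : S (σ ∘ π.symm) = (((Equiv.Perm.sign π : ℤˣ) : ℤ) : R) * S σ := by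
      rw [Equiv.Perm.sign_inv] at e3
      exact e3
    rw [e4]
    have h1 : ((((Equiv.Perm.sign π : ℤˣ) : ℤ)) : R) * ((((Equiv.Perm.sign π : ℤˣ) : ℤ)) : R) = 1 := by
      rw [← Int.cast_mul, ← Units.val_mul, Int.units_mul_self]; simp
    linear_combination ((c σ : R) * S σ) * h1
  simp only [h1]
  rw [Finset.sum_const, Finset.card_univ, Fintype.card_perm, Fintype.card_fin, nsmul_eq_mul]

lemma altc_ne_zero {n m : ℕ} (c : (Fin n → Fin m) → ℤ) (σ : Fin n → Fin m)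
    (h : altc c σ ≠ 0) : ∃ π : Equiv.Perm (Fin n), c (σ ∘ π) ≠ 0 := by
  by_contra hcon
  push Not at hcon
  apply h
  unfold altc
  exact Finset.sum_eq_zero (fun π _ => by rw [hcon π, mul_zero])

/-- cycle condition for the antisymmetrised chain -/
lemma altc_cyc {n m : ℕ} (c : (Fin (n+1) → Fin m) → ℤ)
    (hc : ∀ f : (Fin n → Fin m) → ℤ,
      (∀ (τ : Fin n → Fin m) (π : Equiv.Perm (Fin n)),
          f (τ ∘ ⇑π) = ((Equiv.Perm.sign π : ℤˣ) : ℤ) * f τ) →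
      ∑ σ : Fin (n+1) → Fin m,
          c σ * ∑ i : Fin (n+1), (-1 : ℤ) ^ (i : ℕ) * f (σ ∘ Fin.succAbove i) = 0)
    (τ : Fin n → Fin m) : ∑ q, altc c (Fin.cons q τ) = 0 := by
  set b : (Fin n → Fin m) → ℤ := fun τ => ∑ q, altc c (Fin.cons q τ) with hb
  have hbalt : ∀ (τ : Fin n → Fin m) (π : Equiv.Perm (Fin n)),
      b (τ ∘ π) = ((Equiv.Perm.sign π : ℤˣ) : ℤ) * b τ := by
    intro τ π
    simp only [hb]
    rw [Finset.mul_sum]
    refine Finset.sum_congr rfl (fun q _ => ?_)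
    rw [cons_comp_perm, altc_alt, sign_extP]
  have h1 := hc b hbalt
  have h2 := altc_pair (R := ℝ) c
    (fun σ => ((∑ i : Fin (n+1), (-1 : ℤ) ^ (i : ℕ) * b (σ ∘ Fin.succAbove i) : ℤ) : ℝ))
    (fun σ π => by
      rw [delta_alt b hbalt σ π]; push_cast; ring)
  have h3 : ∑ σ : Fin (n+1) → Fin m, (c σ : ℝ) *
      ((∑ i : Fin (n+1), (-1 : ℤ) ^ (i : ℕ) * b (σ ∘ Fin.succAbove i) : ℤ) : ℝ) = 0 := by
    exact_mod_cast h1
  rw [h3, mul_zero] at h2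
  have h4 := regroup (altc c) (altc_alt c) (fun _ τ => (b τ : ℝ))
  have h5 : ∑ σ : Fin (n+1) → Fin m, (altc c σ : ℝ) * ∑ k : Fin (n+1), (-1 : ℝ)^(k:ℕ) *
      (b (fun i => σ (k.succAbove i)) : ℝ) = 0 := by
    rw [← h2]
    refine Finset.sum_congr rfl (fun σ _ => ?_)
    push_cast
    rfl
  rw [h5] at h4
  have h6 : ∑ τ : Fin n → Fin m, ∑ q : Fin m, (altc c (Fin.cons q τ) : ℝ) * (b τ : ℝ) =
      ∑ τ : Fin n → Fin m, (b τ : ℝ)^2 := by
    refine Finset.sum_congr rfl (fun τ _ => ?_)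
    rw [← Finset.sum_mul]
    have : ∑ q : Fin m, (altc c (Fin.cons q τ) : ℝ) = (b τ : ℝ) := by
      simp only [hb]; push_cast; rfl
    rw [this]; ring
  rw [h6] at h4
  have h7 : ∑ τ : Fin n → Fin m, (b τ : ℝ)^2 = 0 := by
    have hn : ((n:ℝ) + 1) ≠ 0 := by positivity
    rcases mul_eq_zero.1 h4.symm with h | h
    · exact absurd h hn
    · exact h
  have h8 := (Finset.sum_eq_zero_iff_of_nonneg (fun τ _ => sq_nonneg _)).1 h7 τ (Finset.mem_univ τ)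
  have h9 : (b τ : ℝ) = 0 := by nlinarith
  exact_mod_cast h9

end Pool.Agent.W31.Bel
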