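import Mathlib
import Pool.Agent.W576.Defs
import Pool.Agent.W31.BelFro

/-!
# The frozen statement from the general bellows theorem (second part)
-/

namespace Pool.Agent.W31.Bel

open MeasureTheory Pool.Agent.W576 Filter Topology Set

/-- the future unit vector of a point of the Klein ball -/
noncomputable def lift {n : ℕ} (x : Fin n → ℝ) : Fin (n+1) → ℝ :=
  (Real.sqrt (1 - ∑ k, (x k)^2))⁻¹ • (Fin.cons 1 x : Fin (n+1) → ℝ)

lemma lor_cons {n : ℕ} (x y : Fin n → ℝ) :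
    lor (Fin.cons 1 x : Fin (n+1) → ℝ) (Fin.cons 1 y) = -(1 - ∑ j, x j * y j) := by
  rw [lor_succ]; simp; ring

lemma fut_lift {n : ℕ} (x : Fin n → ℝ) (hx : ∑ k, (x k)^2 < 1) : Fut (lift x) := by
  have h0 : 0 < 1 - ∑ k, (x k)^2 := by linarith
  have h1 : 0 < (Real.sqrt (1 - ∑ k, (x k)^2))⁻¹ := inv_pos.2 (Real.sqrt_pos.2 h0)
  refine ⟨by simpa [lift] using h1, ?_⟩
  unfold lift
  rw [lor_smul_left, lor_smul_right, lor_cons]
  have h2 : ∑ j, x j * x j = ∑ k, (x k)^2 := Finset.sum_congr rfl (fun i _ => by ring)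
  rw [h2]
  have h3 := mul_pos h1 (mul_pos h1 h0)
  linarith

lemma dot_lt_one {n : ℕ} (x y : Fin n → ℝ) (hx : ∑ k, (x k)^2 < 1) (hy : ∑ k, (y k)^2 < 1) :
    0 < 1 - ∑ j, x j * y j := by
  have h1 : ∑ j, x j * y j ≤ ∑ j, ((x j)^2 + (y j)^2)/2 :=
    Finset.sum_le_sum (fun j _ => by nlinarith [sq_nonneg (x j - y j)])
  have h2 : ∑ j, ((x j)^2 + (y j)^2)/2 = (∑ j, (x j)^2 + ∑ j, (y j)^2)/2 := by
    rw [← Finset.sum_add_distrib, Finset.sum_div]
  linarith

lemma lor_lift_eq {n : ℕ} (x y x' y' : Fin n → ℝ) (hx : ∑ k, (x k)^2 < 1)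
    (hy : ∑ k, (y k)^2 < 1) (hx' : ∑ k, (x' k)^2 < 1) (hy' : ∑ k, (y' k)^2 < 1)
    (h : (1 - ∑ j, x j * y j) ^ 2 / ((1 - ∑ j, (x j) ^ 2) * (1 - ∑ j, (y j) ^ 2)) =
      (1 - ∑ j, x' j * y' j) ^ 2 / ((1 - ∑ j, (x' j) ^ 2) * (1 - ∑ j, (y' j) ^ 2))) :
    lor (lift x) (lift y) = lor (lift x') (lift y') := by
  have key : ∀ x y : Fin n → ℝ, ∑ k, (x k)^2 < 1 → ∑ k, (y k)^2 < 1 →
      lor (lift x) (lift y) ≤ 0 ∧ (lor (lift x) (lift y))^2 =
        (1 - ∑ j, x j * y j) ^ 2 / ((1 - ∑ j, (x j) ^ 2) * (1 - ∑ j, (y j) ^ 2)) := by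
    intro x y hx hy
    have hx0 : 0 < 1 - ∑ k, (x k)^2 := by linarith
    have hy0 : 0 < 1 - ∑ k, (y k)^2 := by linarith
    have h1 := dot_lt_one x y hx hy
    have h2 : 0 < (Real.sqrt (1 - ∑ k, (x k)^2))⁻¹ := inv_pos.2 (Real.sqrt_pos.2 hx0)
    have h3 : 0 < (Real.sqrt (1 - ∑ k, (y k)^2))⁻¹ := inv_pos.2 (Real.sqrt_pos.2 hy0)
    have e : lor (lift x) (lift y) = -((Real.sqrt (1 - ∑ k, (x k)^2))⁻¹ *
        (Real.sqrt (1 - ∑ k, (y k)^2))⁻¹ * (1 - ∑ j, x j * y j)) := by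
      unfold lift
      rw [lor_smul_left, lor_smul_right, lor_cons]; ring
    refine ⟨?_, ?_⟩
    · rw [e]
      have := mul_pos (mul_pos h2 h3) h1
      linarith
    · rw [e, neg_sq, mul_pow, mul_pow, inv_pow, inv_pow, Real.sq_sqrt hx0.le, Real.sq_sqrt hy0.le]
      field_simp
  obtain ⟨h1, h2⟩ := key x y hx hy
  obtain ⟨h3, h4⟩ := key x' y' hx' hy'
  rw [h, ← h4] at h2
  have h5 : (-(lor (lift x) (lift y)))^2 = (-(lor (lift x') (lift y')))^2 := by
    rw [neg_sq, neg_sq, h2]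
  have h6 := (sq_eq_sq₀ (by linarith) (by linarith)).1 h5
  linarith

theorem frozen_of_general
    (bellows_general : ∀ {r m : ℕ} (_ : 1 ≤ r) (c : (Fin (r+2) → Fin m) → ℤ)
      (_ : ∀ (σ : Fin (r+2) → Fin m) (π : Equiv.Perm (Fin (r+2))),
        c (σ ∘ π) = ((Equiv.Perm.sign π : ℤˣ) : ℤ) * c σ)
      (_ : ∀ τ : Fin (r+1) → Fin m, ∑ q, c (Fin.cons q τ) = 0)
      (y : ℝ → Fin m → Fin (r+3) → ℝ) (_ : Continuous y) (_ : ∀ t j, Fut (y t j))
      (_ : ∀ σ, c σ ≠ 0 → ∀ i j s t, lor (y s (σ i)) (y s (σ j)) = lor (y t (σ i)) (y t (σ j)))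
      (s t : ℝ),
      ∑ σ : Fin (r+2) → Fin m, (c σ : ℝ) *
        SV (Fin.cons (Pi.single 0 1) (fun i => y s (σ i)) : Fin (r+3) → Fin (r+3) → ℝ)
      = ∑ σ : Fin (r+2) → Fin m, (c σ : ℝ) *
        SV (Fin.cons (Pi.single 0 1) (fun i => y t (σ i)) : Fin (r+3) → Fin (r+3) → ℝ)) :
  ∀ (k m : ℕ), Odd k → 3 ≤ k →
  ∀ (c : (Fin (k+1) → Fin m) → ℤ),
  (∀ f : (Fin k → Fin m) → ℤ,
      (∀ (τ : Fin k → Fin m) (π : Equiv.Perm (Fin k)),
          f (τ ∘ ⇑π) = ((Equiv.Perm.sign π : ℤˣ) : ℤ) * f τ) →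
      ∑ σ : Fin (k+1) → Fin m,
          c σ * ∑ i : Fin (k+1), (-1 : ℤ) ^ (i : ℕ) * f (σ ∘ Fin.succAbove i) = 0) →
  ∀ p : ℝ → Fin m → (Fin (k+1) → ℝ), Continuous p →
  (∀ (t : ℝ) (v : Fin m), ∑ j, (p t v j) ^ 2 < 1) →
  (∀ σ : Fin (k+1) → Fin m, c σ ≠ 0 → ∀ (a b : Fin (k+1)) (s t : ℝ),
      (1 - ∑ j, p s (σ a) j * p s (σ b) j) ^ 2 /
          ((1 - ∑ j, (p s (σ a) j) ^ 2) * (1 - ∑ j, (p s (σ b) j) ^ 2)) =
      (1 - ∑ j, p t (σ a) j * p t (σ b) j) ^ 2 /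
          ((1 - ∑ j, (p t (σ a) j) ^ 2) * (1 - ∑ j, (p t (σ b) j) ^ 2))) →
  ∀ s t : ℝ,
    ∑ σ : Fin (k+1) → Fin m, (c σ : ℝ) *
        Real.sign (Matrix.det (Matrix.of (fun i j => p s (σ i) j))) *
        ((MeasureTheory.Measure.withDensity MeasureTheory.volume
            (fun x : Fin (k+1) → ℝ =>
              ENNReal.ofReal ((1 - ∑ j, (x j) ^ 2) ^ (-((k : ℝ) + 2) / 2))))
          (convexHull ℝ (insert 0 (Set.range (fun i => p s (σ i)))))).toReal
    =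
    ∑ σ : Fin (k+1) → Fin m, (c σ : ℝ) *
        Real.sign (Matrix.det (Matrix.of (fun i j => p t (σ i) j))) *
        ((MeasureTheory.Measure.withDensity MeasureTheory.volume
            (fun x : Fin (k+1) → ℝ =>
              ENNReal.ofReal ((1 - ∑ j, (x j) ^ 2) ^ (-((k : ℝ) + 2) / 2))))
          (convexHull ℝ (insert 0 (Set.range (fun i => p t (σ i)))))).toReal := by
  intro k m _ hk3 c hcyc p hp hball hedge
  obtain ⟨r, rfl⟩ : ∃ r, k = r + 1 := ⟨k - 1, by omega⟩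
  have hr : 1 ≤ r := by omega
  obtain ⟨C, hC⟩ := Pool.Agent.W409.Klein.klein_volume (r+1)
  set y : ℝ → Fin m → Fin (r+3) → ℝ := fun t j => lift (p t j) with hy
  -- the summands
  have hterm : ∀ (t : ℝ) (σ : Fin (r+1+1) → Fin m),
      Real.sign (Matrix.det (Matrix.of (fun i j => p t (σ i) j))) *
        ((MeasureTheory.Measure.withDensity MeasureTheory.volume
            (fun x : Fin (r+1+1) → ℝ =>
              ENNReal.ofReal ((1 - ∑ j, (x j) ^ 2) ^ (-(((r+1:ℕ) : ℝ) + 2) / 2))))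
          (convexHull ℝ (insert 0 (Set.range (fun i => p t (σ i)))))).toReal =
      C * SV (Fin.cons (Pi.single 0 1) (fun i => y t (σ i)) : Fin (r+3) → Fin (r+3) → ℝ) := by
    intro t σ
    rw [hC (fun i => p t (σ i)) (fun i => hball t (σ i))]
    congr 1
    have h1 := SV_smul (d := r+3) (Fin.cons (Fin.cons 1 0) (fun i => Fin.cons 1 (p t (σ i))) :
      Fin (r+3) → Fin (r+3) → ℝ)
      (Fin.cons 1 (fun i => (Real.sqrt (1 - ∑ k, (p t (σ i) k)^2))⁻¹) : Fin (r+3) → ℝ) (by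
        intro i
        refine Fin.cases ?_ (fun i => ?_) i
        · simp
        · simp only [Fin.cons_succ]
          have := hball t (σ i)
          exact inv_pos.2 (Real.sqrt_pos.2 (by linarith)))
    rw [← h1]
    congr 1
    funext i
    refine Fin.cases ?_ (fun i => ?_) i
    · simp only [Fin.cons_zero, one_smul]
      funext j
      refine Fin.cases ?_ (fun j => ?_) j
      · simp
      · simp
    · simp only [Fin.cons_succ]
      rfl
  -- apply the general theorem to the antisymmetrised chain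
  have hycont : Continuous y := by
    refine continuous_pi (fun j => ?_)
    have hpj : Continuous (fun t => p t j) := (continuous_apply j).comp hp
    simp only [hy, lift]
    refine Continuous.smul (M := ℝ) ?_ ?_
    · refine Continuous.inv₀ ?_ ?_
      · refine Real.continuous_sqrt.comp (continuous_const.sub ?_)
        exact continuous_finsetSum _ (fun k _ => ((continuous_apply k).comp hpj).pow 2)
      · intro t
        have := hball t j
        exact (Real.sqrt_pos.2 (by linarith)).ne'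
    · refine continuous_pi (fun k => ?_)
      refine Fin.cases ?_ (fun k => ?_) k
      · simp only [Fin.cons_zero]; exact continuous_const
      · simp only [Fin.cons_succ]; exact (continuous_apply k).comp hpj
  have hgen := bellows_general hr (altc c) (altc_alt c) (altc_cyc c hcyc) y hycont
    (fun t j => fut_lift _ (hball t j)) (by
      intro σ hσ i j s t
      obtain ⟨π, hπ⟩ := altc_ne_zero c σ hσ
      have h1 := hedge (σ ∘ π) hπ (π.symm i) (π.symm j) s t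
      simp only [Function.comp_apply, Equiv.apply_symm_apply] at h1
      exact lor_lift_eq _ _ _ _ (hball s _) (hball s _) (hball t _) (hball t _) h1)
  have halt : ∀ (t : ℝ) (σ : Fin (r+1+1) → Fin m) (π : Equiv.Perm (Fin (r+1+1))),
      SV (Fin.cons (Pi.single 0 1) (fun i => y t ((σ ∘ π) i)) : Fin (r+3) → Fin (r+3) → ℝ) =
      (((Equiv.Perm.sign π : ℤˣ) : ℤ) : ℝ) *
      SV (Fin.cons (Pi.single 0 1) (fun i => y t (σ i)) : Fin (r+3) → Fin (r+3) → ℝ) := by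
    intro t σ π
    have h1 : (Fin.cons (Pi.single 0 1) (fun i => y t ((σ ∘ π) i)) : Fin (r+3) → Fin (r+3) → ℝ) =
        (Fin.cons (Pi.single 0 1) (fun i => y t (σ i)) : Fin (r+3) → Fin (r+3) → ℝ) ∘ extP π :=
      cons_comp_perm (Pi.single 0 1) (fun i => y t (σ i)) π
    rw [h1, SV_perm, sign_extP]
  have hvol : ∀ t : ℝ, ∑ σ : Fin (r+2) → Fin m, (altc c σ : ℝ) *
        SV (Fin.cons (Pi.single 0 1) (fun i => y t (σ i)) : Fin (r+3) → Fin (r+3) → ℝ) =
      ((r+2).factorial : ℝ) * ∑ σ : Fin (r+2) → Fin m, (c σ : ℝ) *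
        SV (Fin.cons (Pi.single 0 1) (fun i => y t (σ i)) : Fin (r+3) → Fin (r+3) → ℝ) := by
    intro t
    exact altc_pair c _ (fun σ π => halt t σ π)
  intro s t
  have hst := hgen s t
  rw [hvol, hvol] at hst
  have hfac : ((r+2).factorial : ℝ) ≠ 0 := by positivity
  have hst2 := mul_left_cancel₀ hfac hst
  have hfin : ∀ t : ℝ, ∑ σ : Fin (r+1+1) → Fin m, (c σ : ℝ) *
        Real.sign (Matrix.det (Matrix.of (fun i j => p t (σ i) j))) *
        ((MeasureTheory.Measure.withDensity MeasureTheory.volume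
            (fun x : Fin (r+1+1) → ℝ =>
              ENNReal.ofReal ((1 - ∑ j, (x j) ^ 2) ^ (-(((r+1:ℕ) : ℝ) + 2) / 2))))
          (convexHull ℝ (insert 0 (Set.range (fun i => p t (σ i)))))).toReal =
      C * ∑ σ : Fin (r+2) → Fin m, (c σ : ℝ) *
        SV (Fin.cons (Pi.single 0 1) (fun i => y t (σ i)) : Fin (r+3) → Fin (r+3) → ℝ) := by
    intro t
    rw [Finset.mul_sum]
    refine Finset.sum_congr rfl (fun σ _ => ?_)
    rw [mul_assoc, hterm t σ]; ring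
  rw [hfin s, hfin t, hst2]

end Pool.Agent.W31.Bel
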