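import Mathlib

set_option autoImplicit false

namespace Pool.Agent.W31.YOdd

open scoped BigOperators

/-- index type: (i, a, j, l) -/
abbrev T := (ℕ × ℕ) × (ℕ × ℕ)

/-- exponent `K(i,a,j,l) = 2(j+1)(l+1) + 2ia + i + a + 1`. -/
def K (x : T) : ℕ :=
  2 * (x.2.1 + 1) * (x.2.2 + 1) + 2 * x.1.1 * x.1.2 + x.1.1 + x.1.2 + 1

/-- `h q (i,a,j,l) = (-1)^i q^K`. -/
noncomputable def h (q : ℂ) (x : T) : ℂ := (-1) ^ x.1.1 * q ^ (K x)

/-- the half-sum `(h q x + h (-q) x)`. -/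
noncomputable def g (q : ℂ) (x : T) : ℂ := h q x + h (-q) x

/-- swapping the roles -/
def sw : T ≃ T where
  toFun x := ((x.1.2, x.1.1), (x.2.2, x.2.1))
  invFun x := ((x.1.2, x.1.1), (x.2.2, x.2.1))
  left_inv _ := rfl
  right_inv _ := rfl

lemma K_sw (x : T) : K (sw x) = K x := by
  simp only [K, sw, Equiv.coe_fn_mk]; ring

lemma g_sw (q : ℂ) (x : T) : g q (sw x) = - g q x := by
  have hK := K_sw x
  simp only [g, h, hK]
  have hs : (sw x).1.1 = x.1.2 := rfl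
  rw [hs]
  rcases Nat.even_or_odd (x.1.1 + x.1.2) with he | ho
  · -- even: K odd, both sides zero
    have hodd : Odd (K x) := by
      have : K x = 2 * ((x.2.1 + 1) * (x.2.2 + 1) + x.1.1 * x.1.2) + (x.1.1 + x.1.2) + 1 := by
        simp only [K]; ring
      rw [this]
      exact ((even_two_mul _).add he).add_one
    rw [hodd.neg_pow]
    ring
  · have heven : Even (K x) := by
      have : K x = 2 * ((x.2.1 + 1) * (x.2.2 + 1) + x.1.1 * x.1.2) + (x.1.1 + x.1.2 + 1) := by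
        simp only [K]; ring
      rw [this]
      exact (even_two_mul _).add ho.add_one
    rw [heven.neg_pow]
    have : (-1 : ℂ) ^ x.1.2 = - (-1) ^ x.1.1 := by
      rcases Nat.even_or_odd x.1.1 with h1 | h1
      · have h2 : Odd x.1.2 := by
          rcases Nat.even_or_odd x.1.2 with h3 | h3
          · exact absurd (h1.add h3) (Nat.not_even_iff_odd.mpr ho)
          · exact h3
        rw [h1.neg_one_pow, h2.neg_one_pow]
      · have h2 : Even x.1.2 := by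
          rcases Nat.even_or_odd x.1.2 with h3 | h3
          · exact h3
          · exact absurd (h1.add_odd h3) (Nat.not_even_iff_odd.mpr ho)
        rw [h1.neg_one_pow, h2.neg_one_pow]; ring
    rw [this]; ring

/-- `φ₁ (i,a,j,b) = (i,a,j,i+b)` -/
def φ₁ (x : T) : T := ((x.1.1, x.1.2), (x.2.1, x.1.1 + x.2.2))

/-- `φ₂ (i,a,j,b) = (i,a+j+1,j,b)` -/
def φ₂ (x : T) : T := ((x.1.1, x.1.2 + x.2.1 + 1), (x.2.1, x.2.2))

lemma φ₁_inj : Function.Injective φ₁ := by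
  rintro ⟨⟨a, b⟩, ⟨c, d⟩⟩ ⟨⟨a', b'⟩, ⟨c', d'⟩⟩ hh
  simp only [φ₁, Prod.mk.injEq] at hh ⊢
  omega

lemma φ₂_inj : Function.Injective φ₂ := by
  rintro ⟨⟨a, b⟩, ⟨c, d⟩⟩ ⟨⟨a', b'⟩, ⟨c', d'⟩⟩ hh
  simp only [φ₂, Prod.mk.injEq] at hh ⊢
  omega

lemma range_φ₁ : Set.range φ₁ = {x : T | x.1.1 ≤ x.2.2} := by
  ext ⟨⟨a, b⟩, ⟨c, d⟩⟩
  rw [Set.mem_range]
  constructor
  · rintro ⟨⟨⟨a', b'⟩, ⟨c', d'⟩⟩, hh⟩
    simp only [φ₁, Prod.mk.injEq] at hh
    change a ≤ d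
    omega
  · intro hle
    have hle' : a ≤ d := hle
    refine ⟨((a, b), (c, d - a)), ?_⟩
    have h2 : a + (d - a) = d := by omega
    simp only [φ₁, h2]

lemma range_φ₂ : Set.range φ₂ = {x : T | x.2.1 < x.1.2} := by
  ext ⟨⟨a, b⟩, ⟨c, d⟩⟩
  rw [Set.mem_range]
  constructor
  · rintro ⟨⟨⟨a', b'⟩, ⟨c', d'⟩⟩, hh⟩
    simp only [φ₂, Prod.mk.injEq] at hh
    change c < b
    omega
  · intro hle
    have hle' : c < b := hle
    refine ⟨((a, b - c - 1), (c, d)), ?_⟩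
    have h2 : b - c - 1 + c + 1 = b := by omega
    simp only [φ₂, h2]

lemma summable_pow4 {r : ℝ} (h0 : 0 ≤ r) (h1 : r < 1) :
    Summable (fun x : T => (r ^ x.1.1 * r ^ x.1.2) * (r ^ x.2.1 * r ^ x.2.2)) := by
  have hg := summable_geometric_of_lt_one h0 h1
  have h2 : Summable (fun x : ℕ × ℕ => r ^ x.1 * r ^ x.2) :=
    hg.mul_of_nonneg hg (fun n => pow_nonneg h0 n) (fun n => pow_nonneg h0 n)
  exact h2.mul_of_nonneg h2 (fun x => mul_nonneg (pow_nonneg h0 _) (pow_nonneg h0 _))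
    (fun x => mul_nonneg (pow_nonneg h0 _) (pow_nonneg h0 _))

lemma summable_h {q : ℂ} (hq : ‖q‖ < 1) : Summable (h q) := by
  apply Summable.of_norm_bounded (summable_pow4 (norm_nonneg q) hq)
  intro x
  rw [h, norm_mul, norm_pow, norm_neg, norm_one, one_pow, one_mul, norm_pow, ← pow_add, ← pow_add,
    ← pow_add]
  apply pow_le_pow_of_le_one (norm_nonneg q) hq.le
  simp only [K]
  nlinarith [Nat.zero_le (x.2.1 * x.2.2), Nat.zero_le (x.1.1 * x.1.2)]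

lemma summable_g {q : ℂ} (hq : ‖q‖ < 1) : Summable (g q) := by
  have h2 : ‖-q‖ < 1 := by rwa [norm_neg]
  exact (summable_h hq).add (summable_h h2)

/-- The heart of the proof. -/
lemma key {q : ℂ} (hq : ‖q‖ < 1) :
    ∑' x : T, g q (φ₁ x) = ∑' x : T, g q (φ₂ x) := by
  have hs := summable_g hq
  have e1 : ∑' x : T, g q (φ₁ x) = ∑' x : T, Set.indicator {x : T | x.1.1 ≤ x.2.2} (g q) x := by
    rw [← range_φ₁, ← tsum_subtype, ← (Equiv.ofInjective φ₁ φ₁_inj).tsum_eq]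
    rfl
  have e2 : ∑' x : T, g q (φ₂ x) = ∑' x : T, Set.indicator {x : T | x.2.1 < x.1.2} (g q) x := by
    rw [← range_φ₂, ← tsum_subtype, ← (Equiv.ofInjective φ₂ φ₂_inj).tsum_eq]
    rfl
  have e3 : ∑' x : T, Set.indicator {x : T | x.2.1 < x.1.2} (g q) x
      = - ∑' x : T, Set.indicator {x : T | x.2.2 < x.1.1} (g q) x := by
    rw [← tsum_neg, ← sw.tsum_eq]
    apply tsum_congr
    intro x
    by_cases hx : x.2.2 < x.1.1
    · rw [Set.indicator_of_mem (show x ∈ {x : T | x.2.2 < x.1.1} from hx),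
        Set.indicator_of_mem (show sw x ∈ {x : T | x.2.1 < x.1.2} from hx), g_sw]
    · rw [Set.indicator_of_notMem (show x ∉ {x : T | x.2.2 < x.1.1} from hx),
        Set.indicator_of_notMem (show sw x ∉ {x : T | x.2.1 < x.1.2} from hx), neg_zero]
  have e4 : ∑' x : T, g q x = 0 := by
    have : ∑' x : T, g q x = - ∑' x : T, g q x := by
      conv_lhs => rw [← sw.tsum_eq]
      rw [← tsum_neg]
      exact tsum_congr (fun x => g_sw q x)
    have h2 : (2 : ℂ) * ∑' x : T, g q x = 0 := by linear_combination this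
    simpa using h2
  have e5 : ∑' x : T, Set.indicator {x : T | x.1.1 ≤ x.2.2} (g q) x
      + ∑' x : T, Set.indicator {x : T | x.2.2 < x.1.1} (g q) x = ∑' x : T, g q x := by
    rw [← (hs.indicator _).tsum_add (hs.indicator _)]
    apply tsum_congr
    intro x
    by_cases hx : x.2.2 < x.1.1
    · rw [Set.indicator_of_mem (show x ∈ {x : T | x.2.2 < x.1.1} from hx),
        Set.indicator_of_notMem (show x ∉ {x : T | x.1.1 ≤ x.2.2} from not_le.mpr hx), zero_add]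
    · rw [Set.indicator_of_notMem (show x ∉ {x : T | x.2.2 < x.1.1} from hx),
        Set.indicator_of_mem (show x ∈ {x : T | x.1.1 ≤ x.2.2} from not_lt.mp hx), add_zero]
  rw [e1, e2, e3]
  linear_combination e5 + e4

/-- expansion of a single term -/
lemma term_expand {q : ℂ} (hq : ‖q‖ < 1) (i j : ℕ) :
    (-q) ^ (2 * (i + 1) * (j + 1) + (i + 1)) / ((1 + q ^ (j + 1)) * (1 - q ^ (2 * i + 1)))
      = ∑' y : ℕ × ℕ, (- h q (φ₁ ((i, y.1), (j, y.2))) + h q (φ₂ ((i, y.1), (j, y.2)))) := by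
  have hq1 : ‖q ^ (2 * i + 1)‖ < 1 := by
    rw [norm_pow]; exact pow_lt_one₀ (norm_nonneg q) hq (by omega)
  have hq2 : ‖q ^ (2 * (j + 1))‖ < 1 := by
    rw [norm_pow]; exact pow_lt_one₀ (norm_nonneg q) hq (by omega)
  have hq3 : ‖q ^ (j + 1)‖ < 1 := by
    rw [norm_pow]; exact pow_lt_one₀ (norm_nonneg q) hq (by omega)
  have n1 : (1 - q ^ (2 * i + 1)) ≠ 0 := by
    intro h0
    have : q ^ (2 * i + 1) = 1 := by linear_combination -h0
    rw [this, norm_one] at hq1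
    exact lt_irrefl _ hq1
  have n2 : (1 + q ^ (j + 1)) ≠ 0 := by
    intro h0
    have : q ^ (j + 1) = -1 := by linear_combination h0
    rw [this, norm_neg, norm_one] at hq3
    exact lt_irrefl _ hq3
  have n3 : (1 - q ^ (j + 1)) ≠ 0 := by
    intro h0
    have : q ^ (j + 1) = 1 := by linear_combination -h0
    rw [this, norm_one] at hq3
    exact lt_irrefl _ hq3
  have hA := hasSum_geometric_of_norm_lt_one hq1
  have hB := hasSum_geometric_of_norm_lt_one hq2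
  have hsA : Summable (fun n : ℕ => ‖(q ^ (2 * i + 1)) ^ n‖) := by
    simpa [norm_pow] using summable_geometric_of_lt_one (norm_nonneg _) hq1
  have hsB : Summable (fun n : ℕ => ‖(q ^ (2 * (j + 1))) ^ n‖) := by
    simpa [norm_pow] using summable_geometric_of_lt_one (norm_nonneg _) hq2
  have hprod : ∑' y : ℕ × ℕ, (q ^ (2 * i + 1)) ^ y.1 * (q ^ (2 * (j + 1))) ^ y.2
      = (1 - q ^ (2 * i + 1))⁻¹ * (1 - q ^ (2 * (j + 1)))⁻¹ := by
    rw [← hA.tsum_eq, ← hB.tsum_eq]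
    exact (tsum_mul_tsum_of_summable_norm hsA hsB).symm
  have hterm : ∀ y : ℕ × ℕ, (- h q (φ₁ ((i, y.1), (j, y.2))) + h q (φ₂ ((i, y.1), (j, y.2))))
      = ((-1) ^ (i + 1) * q ^ (2 * (i + 1) * (j + 1) + (i + 1)) * (1 - q ^ (j + 1)))
        * ((q ^ (2 * i + 1)) ^ y.1 * (q ^ (2 * (j + 1))) ^ y.2) := by
    intro y
    simp only [h, φ₁, φ₂, K]
    have k1 : 2 * (j + 1) * (i + y.2 + 1) + 2 * i * y.1 + i + y.1 + 1
      = (2 * (i + 1) * (j + 1) + (i + 1)) + (2 * i + 1) * y.1 + (2 * (j + 1)) * y.2 := by ring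
    have k2 : 2 * (j + 1) * (y.2 + 1) + 2 * i * (y.1 + j + 1) + i + (y.1 + j + 1) + 1
      = (2 * (i + 1) * (j + 1) + (i + 1)) + (j + 1) + (2 * i + 1) * y.1 + (2 * (j + 1)) * y.2 := by
      ring
    rw [k1, k2, ← pow_mul, ← pow_mul]
    simp only [pow_add, pow_one]
    ring
  rw [tsum_congr hterm, tsum_mul_left, hprod]
  have n4 : (1 - q ^ (2 * (j + 1))) = (1 - q ^ (j + 1)) * (1 + q ^ (j + 1)) := by
    rw [mul_comm 2 (j + 1), pow_mul]; ring
  have hneg : (-q) ^ (2 * (i + 1) * (j + 1) + (i + 1))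
      = (-1) ^ (i + 1) * q ^ (2 * (i + 1) * (j + 1) + (i + 1)) := by
    rw [neg_pow, pow_add (-1 : ℂ), mul_assoc 2, pow_mul (-1 : ℂ) 2]
    norm_num
  rw [n4, hneg]
  field_simp

lemma Y_expand {q : ℂ} (hq : ‖q‖ < 1) :
    (∑' p : ℕ × ℕ, (-q) ^ (2 * (p.1 + 1) * (p.2 + 1) + (p.1 + 1)) /
          ((1 + q ^ (p.2 + 1)) * (1 - q ^ (2 * p.1 + 1))))
      = ∑' x : T, (- h q (φ₁ x) + h q (φ₂ x)) := by
  have hs : Summable (fun x : T => (- h q (φ₁ x) + h q (φ₂ x))) :=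
    ((summable_h hq).comp_injective φ₁_inj).neg.add ((summable_h hq).comp_injective φ₂_inj)
  -- reorder ((i,j),(a,b)) -> ((i,a),(j,b))
  let e : (ℕ × ℕ) × (ℕ × ℕ) ≃ T := Equiv.prodProdProdComm ℕ ℕ ℕ ℕ
  rw [← e.tsum_eq]
  have hs' : Summable (fun x : (ℕ × ℕ) × (ℕ × ℕ) => (- h q (φ₁ (e x)) + h q (φ₂ (e x)))) :=
    (e.summable_iff).mpr hs
  rw [hs'.tsum_prod]
  apply tsum_congr
  rintro ⟨i, j⟩
  exact term_expand hq i j

theorem Y_odd (q : ℂ) (hq : ‖q‖ < 1) :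
      (∑' p : ℕ × ℕ, (-(-q)) ^ (2 * (p.1 + 1) * (p.2 + 1) + (p.1 + 1)) /
          ((1 + (-q) ^ (p.2 + 1)) * (1 - (-q) ^ (2 * p.1 + 1))))
        = -(∑' p : ℕ × ℕ, (-q) ^ (2 * (p.1 + 1) * (p.2 + 1) + (p.1 + 1)) /
          ((1 + q ^ (p.2 + 1)) * (1 - q ^ (2 * p.1 + 1)))) := by
  have hq' : ‖-q‖ < 1 := by rwa [norm_neg]
  rw [Y_expand hq, Y_expand hq']
  have hs : Summable (fun x : T => (- h q (φ₁ x) + h q (φ₂ x))) :=
    ((summable_h hq).comp_injective φ₁_inj).neg.add ((summable_h hq).comp_injective φ₂_inj)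
  have hs' : Summable (fun x : T => (- h (-q) (φ₁ x) + h (-q) (φ₂ x))) :=
    ((summable_h hq').comp_injective φ₁_inj).neg.add ((summable_h hq').comp_injective φ₂_inj)
  rw [eq_neg_iff_add_eq_zero, ← hs'.tsum_add hs]
  have hg1 : Summable (fun x : T => g q (φ₁ x)) := (summable_g hq).comp_injective φ₁_inj
  have hg2 : Summable (fun x : T => g q (φ₂ x)) := (summable_g hq).comp_injective φ₂_inj
  have : ∀ x : T, (- h (-q) (φ₁ x) + h (-q) (φ₂ x)) + (- h q (φ₁ x) + h q (φ₂ x))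
      = - g q (φ₁ x) + g q (φ₂ x) := by
    intro x; simp only [g]; ring
  rw [tsum_congr this, hg1.neg.tsum_add hg2, tsum_neg, key hq]
  ring

end Pool.Agent.W31.YOdd
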