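import Pool.Agent.W384.Defs

/-!
Moments `∫ cosh^n u exp(-x cosh u) exp(ν u) du` of the Bessel kernel.
-/

set_option autoImplicit false

open MeasureTheory Filter Topology Set

namespace Pool.Agent.W31.KB

/-- the kernel `exp(-x cosh u) exp(ν u)` -/
noncomputable def E (ν : ℂ) (x u : ℝ) : ℂ :=
  Complex.exp (-(x * Real.cosh u : ℝ)) * Complex.exp (ν * u)

/-- weighted kernel -/
noncomputable def En (ν : ℂ) (n : ℕ) (x u : ℝ) : ℂ := ((Real.cosh u ^ n : ℝ) : ℂ) * E ν x u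

/-- moments -/
noncomputable def K (ν : ℂ) (n : ℕ) (x : ℝ) : ℂ := ∫ u : ℝ, En ν n x u

lemma norm_E (ν : ℂ) (x u : ℝ) :
    ‖E ν x u‖ = Real.exp (-(x * Real.cosh u)) * Real.exp (ν.re * u) := by
  rw [E, norm_mul, Complex.norm_exp, Complex.norm_exp]
  congr 2
  simp

lemma norm_En (ν : ℂ) (n : ℕ) (x u : ℝ) :
    ‖En ν n x u‖ = Real.cosh u ^ n * (Real.exp (-(x * Real.cosh u)) * Real.exp (ν.re * u)) := by
  rw [En, norm_mul, norm_E, Complex.norm_real, Real.norm_eq_abs, abs_of_nonneg]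
  exact pow_nonneg (Real.cosh_pos u).le n

lemma exp_abs_le (u : ℝ) : Real.exp |u| ≤ 2 * Real.cosh u := by
  rw [← Real.cosh_abs, Real.cosh_eq]
  have := Real.exp_pos (-|u|)
  linarith

lemma inv_cosh_le (u : ℝ) : (Real.cosh u)⁻¹ ≤ 4 * (1 + u ^ 2)⁻¹ := by
  have h1 := exp_abs_le u
  have h2 := Real.quadratic_le_exp_of_nonneg (abs_nonneg u)
  rw [sq_abs] at h2
  have h3 : (1 + u ^ 2) / 4 ≤ Real.cosh u := by nlinarith [abs_nonneg u, sq_nonneg u]
  have h4 : (0:ℝ) < (1 + u ^ 2) / 4 := by positivity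
  calc (Real.cosh u)⁻¹ ≤ ((1 + u ^ 2) / 4)⁻¹ := inv_anti₀ h4 h3
    _ = 4 * (1 + u ^ 2)⁻¹ := by rw [inv_div]; ring

/-- the constant of the basic bound -/
noncomputable def D (ν : ℂ) (n : ℕ) : ℝ :=
  ((n + ⌈|ν.re|⌉₊ + 1).factorial : ℝ) * 2 ^ ⌈|ν.re|⌉₊ * 4

lemma D_nonneg (ν : ℂ) (n : ℕ) : 0 ≤ D ν n := by unfold D; positivity

lemma basic_bound (ν : ℂ) (n : ℕ) {x : ℝ} (hx : 0 < x) (u : ℝ) :
    ‖En ν n x u‖ ≤ D ν n * (x ^ (n + ⌈|ν.re|⌉₊ + 1))⁻¹ * (1 + u ^ 2)⁻¹ := by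
  rw [norm_En]
  set k := ⌈|ν.re|⌉₊ with hk
  set m := n + k + 1 with hm
  have hc : 0 < Real.cosh u := Real.cosh_pos u
  have hxc : 0 < x * Real.cosh u := by positivity
  have h1 : Real.exp (ν.re * u) ≤ (2 * Real.cosh u) ^ k := by
    calc Real.exp (ν.re * u) ≤ Real.exp (k * |u|) := by
          apply Real.exp_le_exp.mpr
          calc ν.re * u ≤ |ν.re * u| := le_abs_self _
            _ = |ν.re| * |u| := abs_mul _ _
            _ ≤ k * |u| := by
                apply mul_le_mul_of_nonneg_right (Nat.le_ceil _) (abs_nonneg u)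
      _ = (Real.exp |u|) ^ k := by rw [← Real.exp_nat_mul]
      _ ≤ (2 * Real.cosh u) ^ k := pow_le_pow_left₀ (Real.exp_pos _).le (exp_abs_le u) k
  have h2 : Real.exp (-(x * Real.cosh u)) ≤ (m.factorial : ℝ) * ((x * Real.cosh u) ^ m)⁻¹ := by
    have h := Real.pow_div_factorial_le_exp _ hxc.le m
    rw [Real.exp_neg, ← div_eq_mul_inv]
    have hp : 0 < (x * Real.cosh u) ^ m / (m.factorial : ℝ) := by positivity
    calc (Real.exp (x * Real.cosh u))⁻¹ ≤ ((x * Real.cosh u) ^ m / (m.factorial : ℝ))⁻¹ :=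
          inv_anti₀ hp h
      _ = (m.factorial : ℝ) / (x * Real.cosh u) ^ m := by rw [inv_div]
  calc Real.cosh u ^ n * (Real.exp (-(x * Real.cosh u)) * Real.exp (ν.re * u))
      ≤ Real.cosh u ^ n * (((m.factorial : ℝ) * ((x * Real.cosh u) ^ m)⁻¹) * (2 * Real.cosh u) ^ k) := by
        gcongr
    _ = ((m.factorial : ℝ) * 2 ^ k * (x ^ m)⁻¹) * (Real.cosh u)⁻¹ := by
        rw [mul_pow, mul_pow, hm]
        field_simp
        ring
    _ ≤ ((m.factorial : ℝ) * 2 ^ k * (x ^ m)⁻¹) * (4 * (1 + u ^ 2)⁻¹) := by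
        gcongr
        exact inv_cosh_le u
    _ = D ν n * (x ^ m)⁻¹ * (1 + u ^ 2)⁻¹ := by
        rw [D, ← hk, ← hm]; ring

lemma continuous_En (ν : ℂ) (n : ℕ) (x : ℝ) : Continuous (En ν n x) := by
  unfold En E
  fun_prop

lemma integrable_En (ν : ℂ) (n : ℕ) {x : ℝ} (hx : 0 < x) : Integrable (En ν n x) := by
  apply Integrable.mono' (integrable_inv_one_add_sq.const_mul (D ν n * (x ^ (n + ⌈|ν.re|⌉₊ + 1))⁻¹))
    (continuous_En ν n x).aestronglyMeasurable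
  exact Eventually.of_forall (fun u => basic_bound ν n hx u)

/-- bound at 0 -/
lemma norm_K_le (ν : ℂ) (n : ℕ) {x : ℝ} (hx : 0 < x) :
    ‖K ν n x‖ ≤ D ν n * (x ^ (n + ⌈|ν.re|⌉₊ + 1))⁻¹ * Real.pi := by
  have h1 : ‖K ν n x‖ ≤ ∫ u : ℝ, D ν n * (x ^ (n + ⌈|ν.re|⌉₊ + 1))⁻¹ * (1 + u ^ 2)⁻¹ := by
    apply norm_integral_le_of_norm_le
    · exact integrable_inv_one_add_sq.const_mul _
    · exact Eventually.of_forall (fun u => basic_bound ν n hx u)
  rw [integral_const_mul, integral_univ_inv_one_add_sq] at h1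
  exact h1

lemma hasDerivAt_En (ν : ℂ) (n : ℕ) (x u : ℝ) :
    HasDerivAt (fun x => En ν n x u) (-(En ν (n + 1) x u)) x := by
  have h1 : HasDerivAt (fun x : ℝ => -((x * Real.cosh u : ℝ) : ℂ)) (-(Real.cosh u : ℂ)) x := by
    have h0 : HasDerivAt (fun x : ℝ => x * Real.cosh u) (Real.cosh u) x := by
      simpa using (hasDerivAt_id x).mul_const (Real.cosh u)
    exact h0.ofReal_comp.neg
  have h2 := (h1.cexp.mul_const (Complex.exp (ν * u))).const_mul ((Real.cosh u ^ n : ℝ) : ℂ)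
  have h3 : (fun x => En ν n x u) = fun x : ℝ => ((Real.cosh u ^ n : ℝ) : ℂ) *
      (Complex.exp (-((x * Real.cosh u : ℝ) : ℂ)) * Complex.exp (ν * u)) := rfl
  rw [h3]
  refine h2.congr_deriv ?_
  rw [En, E]
  push_cast
  ring

lemma hasDerivAt_K (ν : ℂ) (n : ℕ) {x : ℝ} (hx : 0 < x) :
    HasDerivAt (K ν n) (-(K ν (n + 1) x)) x := by
  have hs : Ioi (x / 2) ∈ 𝓝 x := Ioi_mem_nhds (by linarith)
  have key := hasDerivAt_integral_of_dominated_loc_of_deriv_le (μ := volume)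
    (F := fun x u => En ν n x u) (F' := fun x u => -(En ν (n + 1) x u)) (x₀ := x)
    (s := Ioi (x / 2))
    (bound := fun u => D ν (n + 1) * ((x / 2) ^ (n + 1 + ⌈|ν.re|⌉₊ + 1))⁻¹ * (1 + u ^ 2)⁻¹) hs
    (Eventually.of_forall fun y => (continuous_En ν n y).aestronglyMeasurable)
    (integrable_En ν n hx)
    (continuous_En ν (n + 1) x).neg.aestronglyMeasurable
    (Eventually.of_forall fun u y hy => by
      have hy' : x / 2 < y := hy
      have hx2 : 0 < x / 2 := by linarith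
      rw [norm_neg]
      refine (basic_bound ν (n + 1) (hx2.trans hy') u).trans ?_
      have := D_nonneg ν (n + 1)
      gcongr)
    (integrable_inv_one_add_sq.const_mul _)
    (Eventually.of_forall fun u y _ => hasDerivAt_En ν n y u)
  have h2 := key.2
  rw [integral_neg] at h2
  exact h2

end Pool.Agent.W31.KB
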