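import Pool.Agent.W31.KB1

/-!
The modified Bessel equation, the differential equation of `whit`, bounds at infinity and at zero.
-/

set_option autoImplicit false

open MeasureTheory Filter Topology Set

namespace Pool.Agent.W31.KB

lemma abs_sinh_le (u : ℝ) : |Real.sinh u| ≤ Real.cosh u := by
  rw [abs_le]
  constructor
  · have := Real.exp_pos u
    rw [Real.sinh_eq, Real.cosh_eq]
    linarith
  · have := Real.exp_pos (-u)
    rw [Real.sinh_eq, Real.cosh_eq]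
    linarith

/-- primitive for the integration by parts -/
noncomputable def G (ν : ℂ) (x u : ℝ) : ℂ := (-(x : ℂ) * (Real.sinh u : ℂ) - ν) * E ν x u

lemma hasDerivAt_E_u (ν : ℂ) (x u : ℝ) :
    HasDerivAt (fun u => E ν x u) ((-(x : ℂ) * (Real.sinh u : ℂ) + ν) * E ν x u) u := by
  have h1 : HasDerivAt (fun u : ℝ => -((x * Real.cosh u : ℝ) : ℂ)) (-((x * Real.sinh u : ℝ) : ℂ)) u := by
    exact ((Real.hasDerivAt_cosh u).const_mul x).ofReal_comp.neg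
  have h2 : HasDerivAt (fun u : ℝ => ν * (u : ℂ)) ν u := by
    simpa using (HasDerivAt.ofReal_comp (hasDerivAt_id u)).const_mul ν
  have h3 := h1.cexp.mul h2.cexp
  refine h3.congr_deriv ?_
  rw [E]
  push_cast
  ring

lemma hasDerivAt_G (ν : ℂ) (x u : ℝ) :
    HasDerivAt (G ν x) ((x : ℂ) ^ 2 * En ν 2 x u - x * En ν 1 x u
      - ((x : ℂ) ^ 2 + ν ^ 2) * En ν 0 x u) u := by
  have h1 : HasDerivAt (fun u : ℝ => -(x : ℂ) * (Real.sinh u : ℂ) - ν)
      (-(x : ℂ) * (Real.cosh u : ℂ)) u := by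
    exact (((Real.hasDerivAt_sinh u).ofReal_comp).const_mul (-(x : ℂ))).sub_const ν
  have h2 := h1.mul (hasDerivAt_E_u ν x u)
  refine h2.congr_deriv ?_
  have h3 : (Real.cosh u : ℂ) ^ 2 = (Real.sinh u : ℂ) ^ 2 + 1 := by
    have := Real.cosh_sq u
    exact_mod_cast this
  simp only [En, pow_one, pow_zero, Complex.ofReal_one, Complex.ofReal_pow]
  linear_combination (-(x : ℂ) ^ 2 * E ν x u) * h3

lemma continuous_G (ν : ℂ) (x : ℝ) : Continuous (G ν x) := by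
  unfold G E
  fun_prop

lemma integrable_G (ν : ℂ) {x : ℝ} (hx : 0 < x) : Integrable (G ν x) := by
  have h1 := ((integrable_En ν 1 hx).norm.const_mul x).add
    ((integrable_En ν 0 hx).norm.const_mul ‖ν‖)
  apply h1.mono' (continuous_G ν x).aestronglyMeasurable
  refine Eventually.of_forall (fun u => ?_)
  have hn : ‖G ν x u‖ = ‖-(x : ℂ) * (Real.sinh u : ℂ) - ν‖ * ‖E ν x u‖ := norm_mul _ _
  have h2 : ‖-(x : ℂ) * (Real.sinh u : ℂ) - ν‖ ≤ x * Real.cosh u + ‖ν‖ := by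
    calc ‖-(x : ℂ) * (Real.sinh u : ℂ) - ν‖ ≤ ‖-(x : ℂ) * (Real.sinh u : ℂ)‖ + ‖ν‖ := norm_sub_le _ _
      _ = x * |Real.sinh u| + ‖ν‖ := by
          rw [norm_mul, norm_neg, Complex.norm_real, Complex.norm_real, Real.norm_eq_abs,
            Real.norm_eq_abs, abs_of_pos hx]
      _ ≤ x * Real.cosh u + ‖ν‖ := by
          have := abs_sinh_le u
          gcongr
  have h3 : ‖En ν 1 x u‖ = Real.cosh u * ‖E ν x u‖ := by
    rw [En, norm_mul, Complex.norm_real, Real.norm_eq_abs, pow_one, abs_of_pos (Real.cosh_pos u)]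
  have h4 : ‖En ν 0 x u‖ = ‖E ν x u‖ := by
    rw [En, pow_zero]; simp
  simp only [Pi.add_apply]
  rw [hn, h3, h4]
  calc ‖-(x : ℂ) * (Real.sinh u : ℂ) - ν‖ * ‖E ν x u‖ ≤ (x * Real.cosh u + ‖ν‖) * ‖E ν x u‖ := by
        gcongr
    _ = x * (Real.cosh u * ‖E ν x u‖) + ‖ν‖ * ‖E ν x u‖ := by ring

/-- the modified Bessel equation -/
lemma bessel (ν : ℂ) {x : ℝ} (hx : 0 < x) :
    (x : ℂ) ^ 2 * K ν 2 x - x * K ν 1 x - ((x : ℂ) ^ 2 + ν ^ 2) * K ν 0 x = 0 := by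
  have i2 := (integrable_En ν 2 hx).const_mul ((x : ℂ) ^ 2)
  have i1 := (integrable_En ν 1 hx).const_mul (x : ℂ)
  have i0 := (integrable_En ν 0 hx).const_mul ((x : ℂ) ^ 2 + ν ^ 2)
  have h := integral_eq_zero_of_hasDerivAt_of_integrable (hasDerivAt_G ν x)
    ((i2.sub i1).sub i0) (integrable_G ν hx)
  have e1 : ∫ u : ℝ, ((x : ℂ) ^ 2 * En ν 2 x u - x * En ν 1 x u
      - ((x : ℂ) ^ 2 + ν ^ 2) * En ν 0 x u) =
      (∫ u : ℝ, ((x : ℂ) ^ 2 * En ν 2 x u - x * En ν 1 x u)) -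
        ∫ u : ℝ, ((x : ℂ) ^ 2 + ν ^ 2) * En ν 0 x u := integral_sub (i2.sub i1) i0
  have e2 : ∫ u : ℝ, ((x : ℂ) ^ 2 * En ν 2 x u - x * En ν 1 x u) =
      (∫ u : ℝ, (x : ℂ) ^ 2 * En ν 2 x u) - ∫ u : ℝ, x * En ν 1 x u := integral_sub i2 i1
  rw [e1, e2, integral_const_mul, integral_const_mul, integral_const_mul] at h
  exact h

lemma whit_eq (ν : ℂ) (y : ℝ) :
    Pool.Agent.W384.whit ν y = (Real.sqrt y : ℂ) * ((1 / 2 : ℂ) * K ν 0 (2 * Real.pi * y)) := by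
  rw [Pool.Agent.W384.whit, K]
  congr 3
  ext u
  rw [En, E, pow_zero]
  push_cast
  ring

/-- the derivative of `whit` -/
noncomputable def whit' (ν : ℂ) (y : ℝ) : ℂ :=
  (4 * (Real.sqrt y : ℂ))⁻¹ * K ν 0 (2 * Real.pi * y)
    - Real.pi * (Real.sqrt y : ℂ) * K ν 1 (2 * Real.pi * y)

lemma hasDerivAt_Kc (ν : ℂ) (n : ℕ) {y : ℝ} (hy : 0 < y) :
    HasDerivAt (fun y : ℝ => K ν n (2 * Real.pi * y)) (-(2 * Real.pi) * K ν (n + 1) (2 * Real.pi * y)) y := by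
  have hx : 0 < 2 * Real.pi * y := by positivity
  have h1 := hasDerivAt_K ν n hx
  have h2 : HasDerivAt (fun y : ℝ => 2 * Real.pi * y) (2 * Real.pi) y := by
    simpa using (hasDerivAt_id y).const_mul (2 * Real.pi)
  have h3 := HasDerivAt.scomp y h1 h2
  refine h3.congr_deriv ?_
  rw [Complex.real_smul]
  push_cast
  ring

lemma hasDerivAt_sqrtC {y : ℝ} (hy : 0 < y) :
    HasDerivAt (fun y : ℝ => (Real.sqrt y : ℂ)) ((2 * (Real.sqrt y : ℂ))⁻¹) y := by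
  have h := (Real.hasDerivAt_sqrt hy.ne').ofReal_comp
  refine h.congr_deriv ?_
  push_cast
  rw [one_div]

lemma sqrtC_sq {y : ℝ} (hy : 0 < y) : (Real.sqrt y : ℂ) ^ 2 = y := by
  have := Real.sq_sqrt hy.le
  exact_mod_cast this

lemma sqrtC_ne {y : ℝ} (hy : 0 < y) : (Real.sqrt y : ℂ) ≠ 0 := by
  have := (Real.sqrt_pos.mpr hy).ne'
  exact_mod_cast this

lemma hasDerivAt_whit (ν : ℂ) {y : ℝ} (hy : 0 < y) :
    HasDerivAt (Pool.Agent.W384.whit ν) (whit' ν y) y := by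
  have hfun : Pool.Agent.W384.whit ν =
      fun y => (Real.sqrt y : ℂ) * ((1 / 2 : ℂ) * K ν 0 (2 * Real.pi * y)) := by
    ext y; exact whit_eq ν y
  rw [hfun]
  have h := (hasDerivAt_sqrtC hy).mul ((hasDerivAt_Kc ν 0 hy).const_mul (1 / 2 : ℂ))
  refine h.congr_deriv ?_
  rw [whit', mul_inv, mul_inv]
  ring

lemma hasDerivAt_whit' (ν : ℂ) {y : ℝ} (hy : 0 < y) :
    HasDerivAt (whit' ν)
      ((4 * (Real.pi : ℂ) ^ 2 - (1 / 4 - ν ^ 2) / (y : ℂ) ^ 2) * Pool.Agent.W384.whit ν y) y := by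
  have hs := hasDerivAt_sqrtC hy
  have hne := sqrtC_ne hy
  have h4 : HasDerivAt (fun y : ℝ => (4 * (Real.sqrt y : ℂ))⁻¹)
      (-(4 * (2 * (Real.sqrt y : ℂ))⁻¹) / (4 * (Real.sqrt y : ℂ)) ^ 2) y :=
    (hs.const_mul (4 : ℂ)).inv (mul_ne_zero (by norm_num) hne)
  have h := (h4.mul (hasDerivAt_Kc ν 0 hy)).sub
    ((hs.const_mul (Real.pi : ℂ)).mul (hasDerivAt_Kc ν 1 hy))
  refine h.congr_deriv ?_
  rw [whit_eq]
  have hb := bessel ν (x := 2 * Real.pi * y) (by positivity)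
  have hsq := sqrtC_sq hy
  have hyne : (y : ℂ) ≠ 0 := by exact_mod_cast hy.ne'
  push_cast at hb
  generalize K ν 0 (2 * Real.pi * y) = k0 at *
  generalize K ν 1 (2 * Real.pi * y) = k1 at *
  generalize K ν 2 (2 * Real.pi * y) = k2 at *
  generalize (Real.sqrt y : ℂ) = w at *
  have hpi : (Real.pi : ℂ) ≠ 0 := by exact_mod_cast Real.pi_ne_zero
  generalize (Real.pi : ℂ) = π at *
  rw [← hsq] at hb hyne ⊢
  field_simp
  linear_combination (4 : ℂ) * hb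

end Pool.Agent.W31.KB
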