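import Pool.Agent.W31.KB2

/-!
Bounds of `whit` at infinity and at zero; the theorems `whit_ode` and `whit_bound_zero`.
-/

set_option autoImplicit false

open MeasureTheory Filter Topology Set
open Pool.Agent.W384 (whit)

namespace Pool.Agent.W31.KB

lemma one_le_cosh (u : ℝ) : 1 ≤ Real.cosh u := Real.one_le_cosh u

lemma norm_En_le_exp (ν : ℂ) (n : ℕ) {y : ℝ} (hy : 1 ≤ y) (u : ℝ) :
    ‖En ν n (2 * Real.pi * y) u‖ ≤ Real.exp (-(3 / 2 * Real.pi * y)) * ‖En ν n (Real.pi / 2) u‖ := by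
  rw [norm_En, norm_En]
  have hc := one_le_cosh u
  have hpi := Real.pi_pos
  have h1 : Real.exp (-(2 * Real.pi * y * Real.cosh u)) ≤
      Real.exp (-(3 / 2 * Real.pi * y)) * Real.exp (-(Real.pi / 2 * Real.cosh u)) := by
    rw [← Real.exp_add]
    apply Real.exp_le_exp.mpr
    have h2 : y * 1 ≤ y * Real.cosh u := by gcongr
    have h3 : 1 * Real.cosh u ≤ y * Real.cosh u := by gcongr
    nlinarith
  have h0 : 0 ≤ Real.cosh u ^ n := pow_nonneg (by linarith) n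
  calc Real.cosh u ^ n * (Real.exp (-(2 * Real.pi * y * Real.cosh u)) * Real.exp (ν.re * u))
      ≤ Real.cosh u ^ n * ((Real.exp (-(3 / 2 * Real.pi * y)) * Real.exp (-(Real.pi / 2 * Real.cosh u)))
        * Real.exp (ν.re * u)) := by gcongr
    _ = _ := by ring

lemma norm_K_le_exp (ν : ℂ) (n : ℕ) :
    ∃ B : ℝ, 0 ≤ B ∧ ∀ y : ℝ, 1 ≤ y → ‖K ν n (2 * Real.pi * y)‖ ≤ B * Real.exp (-(3 / 2 * Real.pi * y)) := by
  refine ⟨∫ u : ℝ, ‖En ν n (Real.pi / 2) u‖, integral_nonneg (fun u => norm_nonneg _), ?_⟩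
  intro y hy
  have hint := (integrable_En ν n (x := Real.pi / 2) (by have := Real.pi_pos; positivity)).norm
  have h1 : ‖K ν n (2 * Real.pi * y)‖ ≤
      ∫ u : ℝ, Real.exp (-(3 / 2 * Real.pi * y)) * ‖En ν n (Real.pi / 2) u‖ := by
    apply norm_integral_le_of_norm_le (hint.const_mul _)
    exact Eventually.of_forall (fun u => norm_En_le_exp ν n hy u)
  rw [integral_const_mul] at h1
  linarith

lemma sqrt_exp_le {y : ℝ} (hy : 1 ≤ y) :
    Real.sqrt y * Real.exp (-(3 / 2 * Real.pi * y)) ≤ Real.exp (-Real.pi * y) := by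
  have h1 : Real.sqrt y ≤ y := by
    rw [Real.sqrt_le_left (by linarith)]
    nlinarith
  have h2 : y ≤ Real.exp (Real.pi / 2 * y) := by
    have h3 : y + 1 ≤ Real.exp y := Real.add_one_le_exp y
    have h4 : Real.exp y ≤ Real.exp (Real.pi / 2 * y) := by
      apply Real.exp_le_exp.mpr
      nlinarith [Real.pi_gt_three]
    linarith
  calc Real.sqrt y * Real.exp (-(3 / 2 * Real.pi * y))
      ≤ Real.exp (Real.pi / 2 * y) * Real.exp (-(3 / 2 * Real.pi * y)) := by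
        have := Real.exp_pos (-(3 / 2 * Real.pi * y))
        gcongr
        exact h1.trans h2
    _ = Real.exp (-Real.pi * y) := by rw [← Real.exp_add]; ring_nf

lemma exp_le' {y : ℝ} (hy : 1 ≤ y) :
    Real.exp (-(3 / 2 * Real.pi * y)) ≤ Real.exp (-Real.pi * y) := by
  apply Real.exp_le_exp.mpr
  nlinarith [Real.pi_pos]

theorem whit_ode (ν : ℂ) : ∃ W' : ℝ → ℂ,
    (∀ y : ℝ, 0 < y → HasDerivAt (whit ν) (W' y) y) ∧
    (∀ y : ℝ, 0 < y →
      HasDerivAt W' ((4 * (Real.pi : ℂ) ^ 2 - (1 / 4 - ν ^ 2) / (y : ℂ) ^ 2) * whit ν y) y) ∧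
    ∃ C : ℝ, ∀ y : ℝ, 1 ≤ y →
      ‖whit ν y‖ ≤ C * Real.exp (-Real.pi * y) ∧ ‖W' y‖ ≤ C * Real.exp (-Real.pi * y) := by
  refine ⟨whit' ν, fun y hy => hasDerivAt_whit ν hy, fun y hy => hasDerivAt_whit' ν hy, ?_⟩
  obtain ⟨B0, hB0, h0⟩ := norm_K_le_exp ν 0
  obtain ⟨B1, hB1, h1⟩ := norm_K_le_exp ν 1
  refine ⟨B0 + Real.pi * B1, fun y hy => ?_⟩
  have hsn : ‖(Real.sqrt y : ℂ)‖ = Real.sqrt y := by
    rw [Complex.norm_real, Real.norm_eq_abs, abs_of_nonneg (Real.sqrt_nonneg y)]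
  have hpi := Real.pi_pos
  have hs1 : 1 ≤ Real.sqrt y := by rw [Real.one_le_sqrt]; exact hy
  have he := Real.exp_pos (-Real.pi * y)
  constructor
  · rw [whit_eq, norm_mul, norm_mul, hsn]
    have hh : ‖(1 / 2 : ℂ)‖ = 1 / 2 := by norm_num
    rw [hh]
    calc Real.sqrt y * (1 / 2 * ‖K ν 0 (2 * Real.pi * y)‖)
        ≤ Real.sqrt y * (1 / 2 * (B0 * Real.exp (-(3 / 2 * Real.pi * y)))) := by
          have := h0 y hy
          gcongr
      _ = B0 / 2 * (Real.sqrt y * Real.exp (-(3 / 2 * Real.pi * y))) := by ring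
      _ ≤ B0 / 2 * Real.exp (-Real.pi * y) := by
          have := sqrt_exp_le hy
          gcongr
      _ ≤ (B0 + Real.pi * B1) * Real.exp (-Real.pi * y) := by
          gcongr
          have : 0 ≤ Real.pi * B1 := by positivity
          linarith
  · rw [whit']
    have ha : ‖(4 * (Real.sqrt y : ℂ))⁻¹ * K ν 0 (2 * Real.pi * y)‖ ≤ B0 * Real.exp (-Real.pi * y) := by
      rw [norm_mul, norm_inv, norm_mul, hsn]
      have h4 : ‖(4 : ℂ)‖ = 4 := by norm_num
      rw [h4]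
      have h5 : (4 * Real.sqrt y)⁻¹ ≤ 1 := by
        apply inv_le_one_of_one_le₀
        linarith
      calc (4 * Real.sqrt y)⁻¹ * ‖K ν 0 (2 * Real.pi * y)‖
          ≤ 1 * (B0 * Real.exp (-(3 / 2 * Real.pi * y))) := by
            have := h0 y hy
            gcongr
        _ ≤ B0 * Real.exp (-Real.pi * y) := by
            rw [one_mul]
            have := exp_le' hy
            gcongr
    have hb : ‖(Real.pi : ℂ) * (Real.sqrt y : ℂ) * K ν 1 (2 * Real.pi * y)‖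
        ≤ Real.pi * B1 * Real.exp (-Real.pi * y) := by
      rw [norm_mul, norm_mul, hsn, Complex.norm_real, Real.norm_eq_abs, abs_of_pos hpi]
      calc Real.pi * Real.sqrt y * ‖K ν 1 (2 * Real.pi * y)‖
          ≤ Real.pi * Real.sqrt y * (B1 * Real.exp (-(3 / 2 * Real.pi * y))) := by
            have := h1 y hy
            gcongr
        _ = Real.pi * B1 * (Real.sqrt y * Real.exp (-(3 / 2 * Real.pi * y))) := by ring
        _ ≤ Real.pi * B1 * Real.exp (-Real.pi * y) := by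
            have := sqrt_exp_le hy
            gcongr
    calc ‖(4 * (Real.sqrt y : ℂ))⁻¹ * K ν 0 (2 * Real.pi * y)
          - Real.pi * (Real.sqrt y : ℂ) * K ν 1 (2 * Real.pi * y)‖
        ≤ _ + _ := norm_sub_le _ _
      _ ≤ B0 * Real.exp (-Real.pi * y) + Real.pi * B1 * Real.exp (-Real.pi * y) := add_le_add ha hb
      _ = _ := by ring

theorem whit_bound_zero (ν : ℂ) :
    ∃ A C : ℝ, ∀ y : ℝ, 0 < y → y ≤ 1 → ‖whit ν y‖ ≤ C * y ^ (-A) := by
  refine ⟨((0 + ⌈|ν.re|⌉₊ + 1 : ℕ) : ℝ), D ν 0 * Real.pi, fun y hy hy1 => ?_⟩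
  set m := 0 + ⌈|ν.re|⌉₊ + 1 with hm
  have hsn : ‖(Real.sqrt y : ℂ)‖ = Real.sqrt y := by
    rw [Complex.norm_real, Real.norm_eq_abs, abs_of_nonneg (Real.sqrt_nonneg y)]
  have hpi := Real.pi_pos
  have h3 := Real.pi_gt_three
  have h1 := norm_K_le ν 0 (x := 2 * Real.pi * y) (by positivity)
  rw [← hm] at h1
  rw [Real.rpow_neg hy.le, Real.rpow_natCast]
  have h2 : ((2 * Real.pi * y) ^ m)⁻¹ ≤ (y ^ m)⁻¹ := by
    apply inv_anti₀ (by positivity)
    apply pow_le_pow_left₀ hy.le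
    nlinarith
  have hs1 : Real.sqrt y ≤ 1 := by
    rw [Real.sqrt_le_one]; exact hy1
  have hD := D_nonneg ν 0
  rw [whit_eq, norm_mul, norm_mul, hsn]
  have hh : ‖(1 / 2 : ℂ)‖ = 1 / 2 := by norm_num
  rw [hh]
  calc Real.sqrt y * (1 / 2 * ‖K ν 0 (2 * Real.pi * y)‖)
      ≤ 1 * (1 * (D ν 0 * (y ^ m)⁻¹ * Real.pi)) := by
        gcongr
        · norm_num
        · refine h1.trans ?_
          gcongr
    _ = D ν 0 * Real.pi * (y ^ m)⁻¹ := by ring

end Pool.Agent.W31.KB
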