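import Pool.Agent.W31.KB3

/-!
Mellin transform of `whit`.
-/

set_option autoImplicit false

open MeasureTheory Filter Topology Set
open Pool.Agent.W384 (whit)

namespace Pool.Agent.W31.KB

/-- `L u = log (2 cosh u)` -/
noncomputable def L (u : ℝ) : ℝ := Real.log (2 * Real.cosh u)

lemma exp_L (u : ℝ) : Real.exp (L u) = 2 * Real.cosh u := by
  rw [L, Real.exp_log]
  have := Real.cosh_pos u
  positivity

lemma continuous_L : Continuous L := by
  unfold L
  apply Continuous.log (by fun_prop)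
  intro u
  have := Real.cosh_pos u
  positivity

lemma sigmoid_eq (u : ℝ) : Real.sigmoid (2 * u) = Real.exp (u - L u) := by
  rw [Real.exp_sub, exp_L, Real.sigmoid_def, Real.cosh_eq]
  have h1 := Real.exp_pos u
  have h2 := Real.exp_pos (-u)
  have h3 : Real.exp (-(2 * u)) = Real.exp (-u) * Real.exp (-u) := by rw [← Real.exp_add]; ring_nf
  have h4 : Real.exp u * Real.exp (-u) = 1 := by rw [← Real.exp_add]; simp
  rw [h3, eq_div_iff (by positivity), inv_mul_eq_iff_eq_mul₀ (by positivity)]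
  linear_combination (-Real.exp (-u)) * h4

lemma one_sub_sigmoid_eq (u : ℝ) : 1 - Real.sigmoid (2 * u) = Real.exp (-u - L u) := by
  rw [← Real.sigmoid_neg, show -(2 * u) = 2 * (-u) by ring, sigmoid_eq]
  congr 2
  rw [L, L, Real.cosh_neg]

lemma cpow_exp (t : ℝ) (c : ℂ) : ((Real.exp t : ℝ) : ℂ) ^ c = Complex.exp (t * c) := by
  rw [Complex.cpow_def_of_ne_zero (by exact_mod_cast (Real.exp_pos t).ne'), ← Complex.ofReal_log
    (Real.exp_pos t).le, Real.log_exp]

lemma image_sigmoid : (fun u : ℝ => Real.sigmoid (2 * u)) '' univ = Ioo 0 1 := by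
  rw [image_univ, ← Real.range_sigmoid]
  ext x
  constructor
  · rintro ⟨u, rfl⟩; exact ⟨2 * u, rfl⟩
  · rintro ⟨u, rfl⟩; exact ⟨u / 2, by simp only; congr 1; ring⟩

lemma hasDerivAt_sig (u : ℝ) : HasDerivAt (fun u : ℝ => Real.sigmoid (2 * u))
    (2 * Real.exp (-(2 * L u))) u := by
  have h1 := (Real.hasDerivAt_sigmoid (2 * u)).comp u ((hasDerivAt_id u).const_mul 2)
  refine h1.congr_deriv ?_
  rw [one_sub_sigmoid_eq, sigmoid_eq, ← Real.exp_add]
  ring_nf

lemma inj_sig : InjOn (fun u : ℝ => Real.sigmoid (2 * u)) univ := by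
  intro a _ b _ h
  have := Real.sigmoid_injective h
  linarith

/-- the Beta kernel -/
noncomputable def Bk (a b : ℂ) (u : ℝ) : ℂ := 2 * Complex.exp ((a - b) * u - (a + b) * L u)

lemma kernel_eq (a b : ℂ) (u : ℝ) :
    |2 * Real.exp (-(2 * L u))| • (((Real.sigmoid (2 * u) : ℝ) : ℂ) ^ (a - 1) *
      (1 - ((Real.sigmoid (2 * u) : ℝ) : ℂ)) ^ (b - 1)) = Bk a b u := by
  have h1 : (1 - ((Real.sigmoid (2 * u) : ℝ) : ℂ)) = ((Real.exp (-u - L u) : ℝ) : ℂ) := by
    rw [← one_sub_sigmoid_eq]; push_cast; ring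
  have hpos : 0 < 2 * Real.exp (-(2 * L u)) := by positivity
  rw [h1, sigmoid_eq, cpow_exp, cpow_exp, abs_of_pos hpos, Complex.real_smul, Bk,
    Complex.ofReal_mul, Complex.ofReal_exp, mul_assoc, ← Complex.exp_add, ← Complex.exp_add]
  push_cast
  congr 2
  ring

lemma beta_eq (a b : ℂ) : Complex.betaIntegral a b = ∫ u : ℝ, Bk a b u := by
  have h := integral_image_eq_integral_abs_deriv_smul (s := univ) MeasurableSet.univ
    (fun u _ => (hasDerivAt_sig u).hasDerivWithinAt) inj_sig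
    (fun x : ℝ => (x : ℂ) ^ (a - 1) * (1 - (x : ℂ)) ^ (b - 1))
  rw [image_sigmoid] at h
  rw [Complex.betaIntegral, intervalIntegral.integral_of_le zero_le_one, integral_Ioc_eq_integral_Ioo,
    h, setIntegral_univ]
  exact integral_congr_ae (Eventually.of_forall (fun u => kernel_eq a b u))

lemma integrable_Bk {a b : ℂ} (ha : 0 < a.re) (hb : 0 < b.re) : Integrable (Bk a b) := by
  have h := integrableOn_image_iff_integrableOn_abs_deriv_smul (s := univ) MeasurableSet.univ
    (fun u _ => (hasDerivAt_sig u).hasDerivWithinAt) inj_sig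
    (fun x : ℝ => (x : ℂ) ^ (a - 1) * (1 - (x : ℂ)) ^ (b - 1))
  rw [image_sigmoid] at h
  have h2 := Complex.betaIntegral_convergent ha hb
  rw [intervalIntegrable_iff_integrableOn_Ioo_of_le zero_le_one] at h2
  have h3 := h.mp h2
  rw [integrableOn_univ] at h3
  exact h3.congr (Eventually.of_forall (fun u => kernel_eq a b u))

/-- the double integrand -/
noncomputable def F (ν s : ℂ) (y u : ℝ) : ℂ := (y : ℂ) ^ (s - 1) * E ν (2 * Real.pi * y) u

lemma F_eq (ν s : ℂ) (y u : ℝ) : F ν s y u =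
    Complex.exp (ν * u) * ((y : ℂ) ^ (s - 1) * Complex.exp (-((2 * Real.pi * Real.cosh u : ℝ) * y))) := by
  rw [F, E]
  push_cast
  ring_nf

lemma norm_F (ν s : ℂ) {y : ℝ} (hy : 0 < y) (u : ℝ) : ‖F ν s y u‖ =
    Real.exp (ν.re * u) * (y ^ (s.re - 1) * Real.exp (-((2 * Real.pi * Real.cosh u) * y))) := by
  rw [F, norm_mul, norm_E, Complex.norm_cpow_eq_rpow_re_of_pos hy]
  simp only [Complex.sub_re, Complex.one_re]
  ring_nf

lemma pi_cosh (u : ℝ) : 2 * Real.pi * Real.cosh u = Real.pi * Real.exp (L u) := by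
  rw [exp_L]; ring

lemma inner_integral (ν s : ℂ) (hs : 0 < s.re) (u : ℝ) :
    ∫ y : ℝ in Ioi 0, F ν s y u =
      Complex.Gamma s * (Real.pi : ℂ) ^ (-s) * Complex.exp (ν * u - s * L u) := by
  have hr : 0 < 2 * Real.pi * Real.cosh u := by
    have := Real.cosh_pos u
    have := Real.pi_pos
    positivity
  have h1 : ∫ y : ℝ in Ioi 0, F ν s y u = Complex.exp (ν * u) * ((1 / ((2 * Real.pi * Real.cosh u : ℝ) : ℂ)) ^ s
      * Complex.Gamma s) := by
    rw [← Complex.integral_cpow_mul_exp_neg_mul_Ioi hs hr, ← integral_const_mul]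
    apply integral_congr_ae
    exact Eventually.of_forall (fun y => F_eq ν s y u)
  rw [h1, pi_cosh]
  have h2 : (1 / ((Real.pi * Real.exp (L u) : ℝ) : ℂ)) ^ s
      = (Real.pi : ℂ) ^ (-s) * Complex.exp (-(s * L u)) := by
    rw [one_div, ← Complex.ofReal_inv, mul_inv, ← Real.exp_neg, Complex.ofReal_mul,
      Complex.mul_cpow_ofReal_nonneg (by have := Real.pi_pos; positivity) (Real.exp_pos _).le,
      cpow_exp, Complex.ofReal_inv, Complex.inv_cpow, Complex.cpow_neg]
    · push_cast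
      ring_nf
    · rw [Complex.arg_ofReal_of_nonneg Real.pi_pos.le]
      exact Real.pi_pos.ne
  rw [h2, sub_eq_add_neg, Complex.exp_add]
  ring

lemma inner_norm (ν s : ℂ) (hs : 0 < s.re) (u : ℝ) :
    ∫ y : ℝ in Ioi 0, ‖F ν s y u‖ =
      Real.Gamma s.re * (Real.pi)⁻¹ ^ s.re * Real.exp (ν.re * u - s.re * L u) := by
  have hr : 0 < 2 * Real.pi * Real.cosh u := by
    have := Real.cosh_pos u
    have := Real.pi_pos
    positivity
  have h1 : ∫ y : ℝ in Ioi 0, ‖F ν s y u‖ = Real.exp (ν.re * u) *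
      ((1 / (2 * Real.pi * Real.cosh u)) ^ s.re * Real.Gamma s.re) := by
    rw [← Real.integral_rpow_mul_exp_neg_mul_Ioi hs hr, ← integral_const_mul]
    apply setIntegral_congr_fun measurableSet_Ioi
    intro y hy
    exact norm_F ν s hy u
  rw [h1, pi_cosh]
  have h2 : (1 / (Real.pi * Real.exp (L u))) ^ s.re
      = (Real.pi)⁻¹ ^ s.re * Real.exp (-(s.re * L u)) := by
    rw [one_div, mul_inv, Real.mul_rpow (by have := Real.pi_pos; positivity)
      (by have := Real.exp_pos (L u); positivity), ← Real.exp_neg, ← Real.exp_mul]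
    ring_nf
  rw [h2, sub_eq_add_neg, Real.exp_add]
  ring

end Pool.Agent.W31.KB
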