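import Pool.Agent.W31.KB4

/-!
Mellin transform of `whit` and uniqueness of bounded solutions.
-/

set_option autoImplicit false

open MeasureTheory Filter Topology Set
open Pool.Agent.W384 (whit)

namespace Pool.Agent.W31.KB

lemma integrable_exp_L (ν s : ℂ) (hs : |ν.re| < s.re) :
    Integrable (fun u : ℝ => Real.exp (ν.re * u - s.re * L u)) := by
  have h1 := abs_lt.mp hs
  have ha : 0 < (((s.re + ν.re) / 2 : ℝ) : ℂ).re := by rw [Complex.ofReal_re]; linarith
  have hb : 0 < (((s.re - ν.re) / 2 : ℝ) : ℂ).re := by rw [Complex.ofReal_re]; linarith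
  have h2 := (integrable_Bk ha hb).norm.const_mul (1 / 2)
  refine h2.congr (Eventually.of_forall (fun u => ?_))
  simp only
  rw [Bk, norm_mul, Complex.norm_exp]
  have h3 : ((((s.re + ν.re) / 2 : ℝ) : ℂ) - (((s.re - ν.re) / 2 : ℝ) : ℂ)) * (u : ℂ)
      - ((((s.re + ν.re) / 2 : ℝ) : ℂ) + (((s.re - ν.re) / 2 : ℝ) : ℂ)) * (L u : ℂ)
      = ((ν.re * u - s.re * L u : ℝ) : ℂ) := by
    push_cast; ring
  rw [h3, Complex.ofReal_re, show ‖(2 : ℂ)‖ = 2 by norm_num]
  ring

lemma integrable_F (ν s : ℂ) (hs : |ν.re| < s.re) :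
    Integrable (Function.uncurry (F ν s)) ((volume.restrict (Ioi (0 : ℝ))).prod volume) := by
  have hs0 : 0 < s.re := lt_of_le_of_lt (abs_nonneg _) hs
  have hmeas : Measurable (Function.uncurry (F ν s)) := by
    have h1 : Measurable (fun p : ℝ × ℝ => ((p.1 : ℝ) : ℂ) ^ (s - 1)) :=
      (Complex.measurable_ofReal.comp measurable_fst).pow_const (s - 1)
    have h2 : Continuous (fun p : ℝ × ℝ => E ν (2 * Real.pi * p.1) p.2) := by
      unfold E
      fun_prop
    exact h1.mul h2.measurable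
  rw [integrable_prod_iff' hmeas.aestronglyMeasurable]
  constructor
  · refine Eventually.of_forall (fun u => ?_)
    have hr : 0 < 2 * Real.pi * Real.cosh u := by
      have := Real.cosh_pos u
      have := Real.pi_pos
      positivity
    have hm : AEStronglyMeasurable (fun y => Function.uncurry (F ν s) (y, u))
        (volume.restrict (Ioi (0:ℝ))) :=
      (hmeas.comp (measurable_id.prodMk measurable_const)).aestronglyMeasurable
    rw [← integrable_norm_iff hm]
    have h1 := (integrableOn_rpow_mul_exp_neg_mul_rpow (s := s.re - 1) (p := 1) (b := 2 * Real.pi * Real.cosh u)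
      (by linarith) one_pos hr).const_mul (Real.exp (ν.re * u))
    refine (integrableOn_congr_fun ?_ measurableSet_Ioi).mpr h1
    intro y hy
    simp only [Function.uncurry_apply_pair]
    rw [norm_F ν s hy u, Real.rpow_one]
    ring_nf
  · have h1 := (integrable_exp_L ν s hs).const_mul (Real.Gamma s.re * (Real.pi)⁻¹ ^ s.re)
    refine h1.congr (Eventually.of_forall (fun u => ?_))
    simp only [Function.uncurry_apply_pair]
    rw [inner_norm ν s hs0 u]

lemma sqrt_cpow {y : ℝ} (hy : 0 < y) (s : ℂ) :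
    (y : ℂ) ^ (s - 1 / 2 - 1) * (Real.sqrt y : ℂ) = (y : ℂ) ^ (s - 1) := by
  have h1 : (Real.sqrt y : ℂ) = (y : ℂ) ^ (1 / 2 : ℂ) := by
    rw [Real.sqrt_eq_rpow, Complex.ofReal_cpow hy.le]
    push_cast
    rfl
  rw [h1, ← Complex.cpow_add _ _ (by exact_mod_cast hy.ne')]
  congr 1
  ring

lemma mellin_integrand (ν s : ℂ) {y : ℝ} (hy : 0 < y) :
    (y : ℂ) ^ (s - 1 / 2 - 1) • whit ν y = (1 / 2 : ℂ) * ∫ u : ℝ, F ν s y u := by
  have h1 : ∫ u : ℝ, F ν s y u = (y : ℂ) ^ (s - 1) * K ν 0 (2 * Real.pi * y) := by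
    rw [K, ← integral_const_mul]
    apply integral_congr_ae
    refine Eventually.of_forall (fun u => ?_)
    simp only [F, En, pow_zero, Complex.ofReal_one, one_mul]
  rw [h1, whit_eq, smul_eq_mul, ← sqrt_cpow hy s]
  ring

theorem whit_mellin (ν s : ℂ) (hs : |ν.re| < s.re) :
    MellinConvergent (whit ν) (s - 1 / 2) ∧
    mellin (whit ν) (s - 1 / 2) =
      1 / 4 * (Real.pi : ℂ) ^ (-s) * Complex.Gamma ((s + ν) / 2) * Complex.Gamma ((s - ν) / 2) := by
  have hs0 : 0 < s.re := lt_of_le_of_lt (abs_nonneg _) hs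
  have hF := integrable_F ν s hs
  have habs := abs_lt.mp hs
  constructor
  · rw [MellinConvergent]
    have h1 := hF.integral_prod_left.const_mul (1 / 2 : ℂ)
    refine (integrableOn_congr_fun ?_ measurableSet_Ioi).mpr h1
    intro y hy
    exact mellin_integrand ν s hy
  · rw [mellin]
    have h1 : ∫ y : ℝ in Ioi 0, (y : ℂ) ^ (s - 1 / 2 - 1) • whit ν y
        = ∫ y : ℝ in Ioi 0, (1 / 2 : ℂ) * ∫ u : ℝ, F ν s y u :=
      setIntegral_congr_fun measurableSet_Ioi (fun y hy => mellin_integrand ν s hy)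
    rw [h1, integral_const_mul, integral_integral_swap hF]
    have h2 : ∀ u : ℝ, ∫ y : ℝ in Ioi 0, F ν s y u =
        (Complex.Gamma s * (Real.pi : ℂ) ^ (-s) / 2) * Bk ((s + ν) / 2) ((s - ν) / 2) u := by
      intro u
      rw [inner_integral ν s hs0 u, Bk]
      have h3 : ((s + ν) / 2 - (s - ν) / 2) * (u : ℂ) - ((s + ν) / 2 + (s - ν) / 2) * (L u : ℂ)
        = ν * u - s * L u := by ring
      rw [h3]
      ring
    rw [integral_congr_ae (Eventually.of_forall h2), integral_const_mul, ← beta_eq]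
    have ha : 0 < ((s + ν) / 2).re := by
      have : ((s + ν) / 2).re = (s.re + ν.re) / 2 := by
        rw [← Complex.add_re]; simp
      rw [this]; linarith
    have hb : 0 < ((s - ν) / 2).re := by
      have : ((s - ν) / 2).re = (s.re - ν.re) / 2 := by
        rw [← Complex.sub_re]; simp
      rw [this]; linarith
    have h4 := Complex.Gamma_mul_Gamma_eq_betaIntegral ha hb
    have h5 : (s + ν) / 2 + (s - ν) / 2 = s := by ring
    rw [h5] at h4
    linear_combination (-(1 / 4 : ℂ) * (Real.pi : ℂ) ^ (-s)) * h4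

lemma whit_ne_zero (ν : ℂ) : ∃ y : ℝ, 0 < y ∧ whit ν y ≠ 0 := by
  by_contra hcon
  push Not at hcon
  have hs : |ν.re| < ((|ν.re| + 1 : ℝ) : ℂ).re := by rw [Complex.ofReal_re]; linarith
  have h := (whit_mellin ν ((|ν.re| + 1 : ℝ) : ℂ) hs).2
  have h0 : mellin (whit ν) (((|ν.re| + 1 : ℝ) : ℂ) - 1 / 2) = 0 := by
    rw [mellin]
    rw [setIntegral_congr_fun (g := fun _ => (0 : ℂ)) measurableSet_Ioi]
    · simp
    · intro y hy
      simp only
      rw [hcon y hy, smul_zero]
  rw [h0] at h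
  have habs := abs_lt.mp hs
  rw [Complex.ofReal_re] at habs
  have hG1 : Complex.Gamma ((((|ν.re| + 1 : ℝ) : ℂ) + ν) / 2) ≠ 0 := by
    apply Complex.Gamma_ne_zero_of_re_pos
    have : ((((|ν.re| + 1 : ℝ) : ℂ) + ν) / 2).re = (|ν.re| + 1 + ν.re) / 2 := by
      simp
    rw [this]; linarith
  have hG2 : Complex.Gamma ((((|ν.re| + 1 : ℝ) : ℂ) - ν) / 2) ≠ 0 := by
    apply Complex.Gamma_ne_zero_of_re_pos
    have : ((((|ν.re| + 1 : ℝ) : ℂ) - ν) / 2).re = (|ν.re| + 1 - ν.re) / 2 := by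
      simp
    rw [this]; linarith
  have hpi : (Real.pi : ℂ) ^ (-((|ν.re| + 1 : ℝ) : ℂ)) ≠ 0 := by
    rw [Ne, Complex.cpow_eq_zero_iff]
    intro hh
    have : (Real.pi : ℂ) ≠ 0 := by exact_mod_cast Real.pi_ne_zero
    exact this hh.1
  have h14 : (1 / 4 : ℂ) ≠ 0 := by norm_num
  exact absurd h.symm (mul_ne_zero (mul_ne_zero (mul_ne_zero h14 hpi) hG1) hG2)

end Pool.Agent.W31.KB
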