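import Pool.Agent.W31.KB5

/-!
Uniqueness of bounded solutions of the Whittaker equation.
-/

set_option autoImplicit false

open MeasureTheory Filter Topology Set
open Pool.Agent.W384 (whit)

namespace Pool.Agent.W31.KB

/-- the potential -/
noncomputable def qq (ν : ℂ) (y : ℝ) : ℂ := 4 * (Real.pi : ℂ) ^ 2 - (1 / 4 - ν ^ 2) / (y : ℂ) ^ 2

lemma norm_qq_le (ν : ℂ) {a y : ℝ} (ha : 0 < a) (hy : a ≤ y) :
    ‖qq ν y‖ ≤ 4 * Real.pi ^ 2 + ‖(1 / 4 - ν ^ 2 : ℂ)‖ / a ^ 2 := by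
  have hy0 : 0 < y := ha.trans_le hy
  calc ‖qq ν y‖ ≤ ‖(4 * (Real.pi : ℂ) ^ 2 : ℂ)‖ + ‖(1 / 4 - ν ^ 2) / (y : ℂ) ^ 2‖ := norm_sub_le _ _
    _ = 4 * Real.pi ^ 2 + ‖(1 / 4 - ν ^ 2 : ℂ)‖ / y ^ 2 := by
        rw [norm_mul, norm_pow, Complex.norm_real, Real.norm_eq_abs, abs_of_pos Real.pi_pos,
          norm_div, norm_pow, Complex.norm_real, Real.norm_eq_abs, abs_of_pos hy0]
        norm_num
    _ ≤ 4 * Real.pi ^ 2 + ‖(1 / 4 - ν ^ 2 : ℂ)‖ / a ^ 2 := by gcongr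

/-- Wronskian argument. -/
lemma wronskian_zero (ν : ℂ) (W W' V V' : ℝ → ℂ)
    (h1 : ∀ y : ℝ, 0 < y → HasDerivAt W (W' y) y)
    (h2 : ∀ y : ℝ, 0 < y → HasDerivAt W' (qq ν y * W y) y)
    (k1 : ∀ y : ℝ, 0 < y → HasDerivAt V (V' y) y)
    (k2 : ∀ y : ℝ, 0 < y → HasDerivAt V' (qq ν y * V y) y)
    (C : ℝ) (hb : ∀ y : ℝ, 1 ≤ y → ‖W y‖ ≤ C) (B : ℝ)
    (hV : ∀ y : ℝ, 1 ≤ y → ‖V y‖ ≤ B * Real.exp (-Real.pi * y) ∧
      ‖V' y‖ ≤ B * Real.exp (-Real.pi * y)) :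
    ∀ y : ℝ, 0 < y → W y * V' y - W' y * V y = 0 := by
  have hC : 0 ≤ C := (norm_nonneg _).trans (hb 1 le_rfl)
  have hB : 0 ≤ B := by
    have := (norm_nonneg _).trans (hV 1 le_rfl).1
    by_contra hneg
    push Not at hneg
    have h3 := mul_neg_of_neg_of_pos hneg (Real.exp_pos (-Real.pi * 1))
    linarith
  -- the Wronskian is constant
  have hder : ∀ y : ℝ, 0 < y → HasDerivAt (fun y => W y * V' y - W' y * V y) 0 y := by
    intro y hy
    have h := ((h1 y hy).mul (k2 y hy)).sub ((h2 y hy).mul (k1 y hy))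
    refine h.congr_deriv ?_
    ring
  have hconst : ∀ y z : ℝ, 0 < y → 0 < z →
      W y * V' y - W' y * V y = W z * V' z - W' z * V z := by
    intro y z hy hz
    have h := Convex.norm_image_sub_le_of_norm_hasDerivWithin_le (C := 0) (s := Ioi (0:ℝ))
      (f := fun y => W y * V' y - W' y * V y) (f' := fun _ => 0)
      (fun x hx => (hder x hx).hasDerivWithinAt) (fun x _ => by simp) (convex_Ioi 0) hz hy
    rw [zero_mul] at h
    have h4 := norm_le_zero_iff.mp h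
    exact sub_eq_zero.mp h4
  -- linear growth of W'
  set Q : ℝ := 4 * Real.pi ^ 2 + ‖(1 / 4 - ν ^ 2 : ℂ)‖ / 1 ^ 2 with hQ
  have hQ0 : 0 ≤ Q := by positivity
  have hgrow : ∀ y : ℝ, 1 ≤ y → ‖W' y‖ ≤ ‖W' 1‖ + Q * C * y := by
    intro y hy
    have h := Convex.norm_image_sub_le_of_norm_hasDerivWithin_le (C := Q * C) (s := Ici (1:ℝ))
      (f := W') (f' := fun x => qq ν x * W x)
      (fun x hx => (h2 x (lt_of_lt_of_le one_pos hx)).hasDerivWithinAt)
      (fun x hx => by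
        rw [norm_mul]
        have e1 := norm_qq_le ν one_pos hx
        have e2 := hb x hx
        gcongr) (convex_Ici 1) (mem_Ici.mpr le_rfl) (mem_Ici.mpr hy)
    have h5 : ‖y - 1‖ ≤ y := by
      rw [Real.norm_eq_abs, abs_of_nonneg (by linarith)]; linarith
    have h6 : ‖W' y‖ ≤ ‖W' y - W' 1‖ + ‖W' 1‖ := by
      have := norm_add_le (W' y - W' 1) (W' 1)
      rwa [sub_add_cancel] at this
    have h7 : Q * C * ‖y - 1‖ ≤ Q * C * y := by gcongr
    linarith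
  -- the limit is zero
  have hbound : ∀ y : ℝ, 1 ≤ y → ‖W y * V' y - W' y * V y‖ ≤
      (C * B + ‖W' 1‖ * B) * (y ^ 0 * Real.exp (-y)) + (Q * C * B) * (y ^ 1 * Real.exp (-y)) := by
    intro y hy
    have hexp : Real.exp (-Real.pi * y) ≤ Real.exp (-y) := by
      apply Real.exp_le_exp.mpr
      nlinarith [Real.pi_gt_three]
    obtain ⟨v1, v2⟩ := hV y hy
    have e1 : ‖V y‖ ≤ B * Real.exp (-y) := v1.trans (by gcongr)
    have e2 : ‖V' y‖ ≤ B * Real.exp (-y) := v2.trans (by gcongr)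
    calc ‖W y * V' y - W' y * V y‖ ≤ ‖W y * V' y‖ + ‖W' y * V y‖ := norm_sub_le _ _
      _ = ‖W y‖ * ‖V' y‖ + ‖W' y‖ * ‖V y‖ := by rw [norm_mul, norm_mul]
      _ ≤ C * (B * Real.exp (-y)) + (‖W' 1‖ + Q * C * y) * (B * Real.exp (-y)) := by
          have e3 := hb y hy
          have e4 := hgrow y hy
          have : 0 ≤ ‖W' 1‖ + Q * C * y := by positivity
          gcongr
      _ = _ := by ring
  have hlim : Tendsto (fun y : ℝ => (C * B + ‖W' 1‖ * B) * (y ^ 0 * Real.exp (-y))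
      + (Q * C * B) * (y ^ 1 * Real.exp (-y))) atTop (𝓝 0) := by
    have t0 := (Real.tendsto_pow_mul_exp_neg_atTop_nhds_zero 0).const_mul (C * B + ‖W' 1‖ * B)
    have t1 := (Real.tendsto_pow_mul_exp_neg_atTop_nhds_zero 1).const_mul (Q * C * B)
    have t := t0.add t1
    simpa using t
  intro y hy
  have hle : ‖W y * V' y - W' y * V y‖ ≤ 0 := by
    apply ge_of_tendsto hlim
    filter_upwards [eventually_ge_atTop (1 : ℝ)] with z hz
    rw [hconst y z hy (lt_of_lt_of_le one_pos hz)]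
    exact hbound z hz
  exact norm_le_zero_iff.mp hle

/-- uniqueness for the second order equation -/
lemma ode_zero (ν : ℂ) (Z Z' : ℝ → ℂ)
    (h1 : ∀ y : ℝ, 0 < y → HasDerivAt Z (Z' y) y)
    (h2 : ∀ y : ℝ, 0 < y → HasDerivAt Z' (qq ν y * Z y) y)
    (y0 : ℝ) (hy0 : 0 < y0) (hz : Z y0 = 0) (hz' : Z' y0 = 0) :
    ∀ y : ℝ, 0 < y → Z y = 0 := by
  intro y hy
  set a : ℝ := min y y0 / 2 with ha
  set b : ℝ := max y y0 + 1 with hbb
  have hmin : 0 < min y y0 := lt_min hy hy0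
  have ha0 : 0 < a := by rw [ha]; linarith
  set Q : ℝ := 4 * Real.pi ^ 2 + ‖(1 / 4 - ν ^ 2 : ℂ)‖ / a ^ 2 with hQ
  have hQ0 : 0 ≤ Q := by positivity
  set Kc : NNReal := ⟨1 + Q, by positivity⟩ with hKc
  have hKval : (Kc : ℝ) = 1 + Q := rfl
  let v : ℝ → ℂ × ℂ → ℂ × ℂ := fun t z => (z.2, qq ν t * z.1)
  have hv : ∀ t ∈ Ioo a b, LipschitzOnWith Kc (v t) ((fun _ => univ) t : Set (ℂ × ℂ)) := by
    intro t ht
    apply LipschitzWith.lipschitzOnWith
    apply LipschitzWith.of_dist_le_mul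
    intro z w
    rw [hKval]
    have hq := norm_qq_le ν ha0 ht.1.le
    have e1 : dist z.1 w.1 ≤ dist z w := by rw [Prod.dist_eq]; exact le_max_left _ _
    have e2 : dist z.2 w.2 ≤ dist z w := by rw [Prod.dist_eq]; exact le_max_right _ _
    have hd : 0 ≤ dist z w := dist_nonneg
    rw [Prod.dist_eq (x := v t z)]
    apply max_le
    · change dist z.2 w.2 ≤ _
      nlinarith
    · change dist (qq ν t * z.1) (qq ν t * w.1) ≤ _
      rw [dist_eq_norm, ← mul_sub, norm_mul, ← dist_eq_norm]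
      calc ‖qq ν t‖ * dist z.1 w.1 ≤ Q * dist z w := by gcongr
        _ ≤ (1 + Q) * dist z w := by gcongr; linarith
  have hty : y ∈ Ioo a b := by
    constructor
    · have := min_le_left y y0
      rw [ha]; linarith
    · have := le_max_left y y0
      rw [hbb]; linarith
  have hty0 : y0 ∈ Ioo a b := by
    constructor
    · have := min_le_right y y0
      rw [ha]; linarith
    · have := le_max_right y y0
      rw [hbb]; linarith
  have hf : ∀ t ∈ Ioo a b, HasDerivAt (fun t => (Z t, Z' t)) (v t ((fun t => (Z t, Z' t)) t)) t ∧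
      (fun t => (Z t, Z' t)) t ∈ ((fun _ => univ) t : Set (ℂ × ℂ)) := by
    intro t ht
    have ht0 : 0 < t := ha0.trans ht.1
    exact ⟨(h1 t ht0).prodMk (h2 t ht0), mem_univ _⟩
  have hg : ∀ t ∈ Ioo a b, HasDerivAt (fun _ : ℝ => ((0 : ℂ), (0 : ℂ)))
      (v t ((fun _ => ((0 : ℂ), (0 : ℂ))) t)) t ∧
      (fun _ : ℝ => ((0 : ℂ), (0 : ℂ))) t ∈ ((fun _ => univ) t : Set (ℂ × ℂ)) := by
    intro t ht
    refine ⟨?_, mem_univ _⟩
    have : v t ((fun _ : ℝ => ((0 : ℂ), (0 : ℂ))) t) = 0 := by simp [v]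
    rw [this]
    exact hasDerivAt_const t _
  have h := ODE_solution_unique_of_mem_Ioo hv hty0 hf hg (by simp [hz, hz']) hty
  exact congrArg Prod.fst h

theorem whit_unique (ν : ℂ) (W W' : ℝ → ℂ) (h1 : ∀ y : ℝ, 0 < y → HasDerivAt W (W' y) y)
    (h2 : ∀ y : ℝ, 0 < y →
      HasDerivAt W' ((4 * (Real.pi : ℂ) ^ 2 - (1 / 4 - ν ^ 2) / (y : ℂ) ^ 2) * W y) y)
    (C : ℝ) (hb : ∀ y : ℝ, 1 ≤ y → ‖W y‖ ≤ C) :
    ∃ c : ℂ, ∀ y : ℝ, 0 < y → W y = c * whit ν y := by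
  obtain ⟨V', k1, k2, B, hV⟩ := whit_ode ν
  obtain ⟨y0, hy0, hne⟩ := whit_ne_zero ν
  have hw := wronskian_zero ν W W' (whit ν) V' h1 h2 k1 k2 C hb B hV y0 hy0
  refine ⟨W y0 / whit ν y0, ?_⟩
  set c := W y0 / whit ν y0 with hc
  have h := ode_zero ν (fun y => W y - c * whit ν y) (fun y => W' y - c * V' y)
    (fun y hy => (h1 y hy).sub ((k1 y hy).const_mul c))
    (fun y hy => by
      have := (h2 y hy).sub ((k2 y hy).const_mul c)
      refine this.congr_deriv ?_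
      rw [qq]; ring) y0 hy0
    (by
      simp only [hc]
      field_simp
      ring)
    (by
      simp only [hc]
      field_simp
      linear_combination (-1 : ℂ) * hw)
  intro y hy
  exact sub_eq_zero.mp (h y hy)

end Pool.Agent.W31.KB
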